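import Pool.Agent.Work.MP_a6e60d_ag.Vb.EB

/-!
# MP_a6e60d_ag: twists of vector bundles by line bundles

`mtwSmulIso g h : mtw h ⋙ tw g ≅ mtw (g • h)`, `mtwTwIso g h : tw g ⋙ mtw h ≅ mtw (g • h)`.
-/

open CategoryTheory Limits TopologicalSpace AlgebraicGeometry Opposite Matrix

attribute [-instance] CategoryTheory.catToReflQuiver

universe u

namespace Orl.Vb

open Fdim Fdim.Coc

noncomputable section

variable {X : Scheme.{u}} {ι : Type u} {U : ι → X.Opens} {m : Type} [Fintype m]
  [DecidableEq m]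

/-- a morphism which is bijective on the sections over small open subsets is an isomorphism -/
theorem isIso_of_local [IsCov U] {M N : X.Modules} (φ : M ⟶ N)
    (h : ∀ (i : ι) (V : X.Opens), V ≤ U i → Function.Bijective (ap φ V)) : IsIso φ := by
  have hx : ∀ x : X, ∃ i, x ∈ U i := by
    intro x
    have hx : x ∈ ⨆ i, U i := by
      rw [IsCov.cov (U := U)]
      trivial
    exact Opens.mem_iSup.1 hx
  have hm : Mono φ := by
    apply mono_of_injective
    intro V
    rw [injective_iff_map_eq_zero]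
    intro s hs
    apply sec_ext M (U := fun i => V ⊓ U i) (fun _ => inf_le_left) (cov_inf V)
    intro i
    rw [map_zero]
    apply (h i _ inf_le_right).1
    rw [ap_rs, hs, map_zero, map_zero]
  have he : Epi φ := by
    apply epi_of_locally
    intro V t x hxV
    obtain ⟨i, hi⟩ := hx x
    obtain ⟨s, hs⟩ := (h i (V ⊓ U i) inf_le_right).2 (rs N inf_le_left t)
    exact ⟨V ⊓ U i, inf_le_left, ⟨hxV, hi⟩, s, hs⟩
  exact isIso_of_mono_of_epi φ

variable (g : Coc U) (h : MCoc U m)

/-! ### `tw g (mtw h M) → mtw (g • h) M` -/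

/-- the morphism `L ⊗ (E ⊗ M) → (L ⊗ E) ⊗ M` -/
def mtwSmulHom (M : X.Modules) : (tw g).obj ((mtw h).obj M) ⟶ (mtw (g • h)).obj M :=
  MCoc.lift (g • h) (fun i W hi s => mev h (tev s i le_rfl hi) i le_rfl hi)
    (fun i W hi s t => by rw [tev_add, mev_add])
    (fun i W hi r s => by rw [tev_smul, mev_smul, rO_self, rO_self])
    (fun i W W' hi hW s => by
      rw [rsV_mev, tev_rs, ← rs_tev s i le_rfl hi hW, mev_rs])
    (fun i j W hi hj s => by
      rw [tev_eq s i j le_rfl hi hj, mev_smul, rO_self, mev_eq _ i j le_rfl hi hj, MCoc.smul_v]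
      ext k
      simp [mv, Finset.smul_sum, smul_smul])

theorem mev_mtwSmulHom (M : X.Modules) {V : X.Opens} (s : Γ((tw g).obj ((mtw h).obj M), V))
    (i : ι) {W : X.Opens} (hV : W ≤ V) (hi : W ≤ U i) :
    mev (g • h) (ap (mtwSmulHom g h M) V s) i hV hi = mev h (tev s i hV hi) i le_rfl hi := by
  have h1 := MCoc.oev_lift (g := g • h)
    (fun i W hi (s : Γ((tw g).obj ((mtw h).obj M), W)) => mev h (tev s i le_rfl hi) i le_rfl hi)
    (fun i W hi s t => by rw [tev_add, mev_add])
    (fun i W hi r s => by rw [tev_smul, mev_smul, rO_self, rO_self])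
    (fun i W W' hi hW s => by
      rw [rsV_mev, tev_rs, ← rs_tev s i le_rfl hi hW, mev_rs])
    (fun i j W hi hj s => by
      rw [tev_eq s i j le_rfl hi hj, mev_smul, rO_self, mev_eq _ i j le_rfl hi hj, MCoc.smul_v]
      ext k
      simp [mv, Finset.smul_sum, smul_smul]) s i hV hi
  refine h1.trans ?_
  rw [tev_rs]

instance [IsCov U] (M : X.Modules) : IsIso (mtwSmulHom g h M) := by
  apply isIso_of_local (U := U)
  intro i V hi
  constructor
  · intro s t hst
    have h1 := congrArg (fun x => mev (g • h) x i le_rfl hi) hst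
    simp only [mev_mtwSmulHom] at h1
    exact tw_ext i hi (mext_small i hi h1)
  · intro s
    obtain ⟨t, ht⟩ := tw_exists (g := g) (M := (mtw h).obj M) i hi
      ((mEquiv h M i hi).symm (mev (g • h) s i le_rfl hi))
    refine ⟨t, mext_small i hi ?_⟩
    rw [mev_mtwSmulHom, ht, mev_mEquiv_symm, h.v_self, mv_one, rsV_self]

/-- `L ⊗ (E ⊗ M) ≅ (L ⊗ E) ⊗ M` -/
def mtwSmulIso [IsCov U] : mtw h ⋙ tw g ≅ mtw (g • h) :=
  NatIso.ofComponents (fun M => asIso (mtwSmulHom g h M)) (fun {M N} φ => by
    change (tw g).map ((mtw h).map φ) ≫ mtwSmulHom g h N =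
      mtwSmulHom g h M ≫ (mtw (g • h)).map φ
    apply hom_ext'
    intro V s
    apply mext
    intro i
    rw [ap_comp, ap_comp, mev_mtwSmulHom, mev_map, mev_mtwSmulHom, tev_map, mev_map])

/-! ### `mtw h (tw g M) → mtw (g • h) M` -/

/-- the morphism `E ⊗ (L ⊗ M) → (L ⊗ E) ⊗ M` -/
def mtwTwHom (M : X.Modules) : (mtw h).obj ((tw g).obj M) ⟶ (mtw (g • h)).obj M :=
  MCoc.lift (g • h) (fun i W hi s k => tev (mev h s i le_rfl hi k) i le_rfl hi)
    (fun i W hi s t => by
      ext k
      rw [mev_add, Pi.add_apply, tev_add, Pi.add_apply])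
    (fun i W hi r s => by
      ext k
      rw [mev_smul, Pi.smul_apply, tev_smul, rO_self, rO_self, Pi.smul_apply])
    (fun i W W' hi hW s => by
      ext k
      rw [rsV_apply, rs_tev, mev_rs, ← rsV_mev s i le_rfl hi hW, rsV_apply, tev_rs])
    (fun i j W hi hj s => by
      have h1 : ∀ (f : m → Γ((tw g).obj M, W)) (hi : W ≤ U i),
          tev (∑ b, f b) i le_rfl hi = ∑ b, tev (f b) i le_rfl hi := by
        intro f hi
        exact map_sum (comp g M i W hi) f Finset.univ
      ext k
      rw [mev_eq s i j le_rfl hi hj, MCoc.smul_v]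
      simp only [mv]
      rw [h1]
      refine Finset.sum_congr rfl fun b _ => ?_
      rw [tev_smul, tev_eq _ i j le_rfl hi hj, rO_self, Matrix.smul_apply, smul_smul, smul_eq_mul,
        mul_comm])

theorem mev_mtwTwHom (M : X.Modules) {V : X.Opens} (s : Γ((mtw h).obj ((tw g).obj M), V))
    (i : ι) {W : X.Opens} (hV : W ≤ V) (hi : W ≤ U i) (k : m) :
    mev (g • h) (ap (mtwTwHom g h M) V s) i hV hi k = tev (mev h s i hV hi k) i le_rfl hi := by
  have h1 := MCoc.oev_lift (g := g • h)
    (fun i W hi (s : Γ((mtw h).obj ((tw g).obj M), W)) k =>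
      tev (mev h s i le_rfl hi k) i le_rfl hi)
    (fun i W hi s t => by
      ext k
      rw [mev_add, Pi.add_apply, tev_add, Pi.add_apply])
    (fun i W hi r s => by
      ext k
      rw [mev_smul, Pi.smul_apply, tev_smul, rO_self, rO_self, Pi.smul_apply])
    (fun i W W' hi hW s => by
      ext k
      rw [rsV_apply, rs_tev, mev_rs, ← rsV_mev s i le_rfl hi hW, rsV_apply, tev_rs])
    (fun i j W hi hj s => by
      have h1 : ∀ (f : m → Γ((tw g).obj M, W)) (hi : W ≤ U i),
          tev (∑ b, f b) i le_rfl hi = ∑ b, tev (f b) i le_rfl hi := by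
        intro f hi
        exact map_sum (comp g M i W hi) f Finset.univ
      ext k
      rw [mev_eq s i j le_rfl hi hj, MCoc.smul_v]
      simp only [mv]
      rw [h1]
      refine Finset.sum_congr rfl fun b _ => ?_
      rw [tev_smul, tev_eq _ i j le_rfl hi hj, rO_self, Matrix.smul_apply, smul_smul, smul_eq_mul,
        mul_comm]) s i hV hi
  refine (congrFun h1 k).trans ?_
  rw [mev_rs]

instance [IsCov U] (M : X.Modules) : IsIso (mtwTwHom g h M) := by
  apply isIso_of_local (U := U)
  intro i V hi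
  constructor
  · intro s t hst
    apply mext_small i hi
    ext k
    apply tw_ext i hi
    have h1 := congrArg (fun x => mev (g • h) x i le_rfl hi k) hst
    simp only [mev_mtwTwHom] at h1
    exact h1
  · intro s
    choose t ht using fun k => tw_exists (g := g) (M := M) i hi (mev (g • h) s i le_rfl hi k)
    refine ⟨(mEquiv h _ i hi).symm t, mext_small i hi ?_⟩
    ext k
    rw [mev_mtwTwHom, mev_mEquiv_symm, h.v_self, mv_one, rsV_self, ht]

/-- `E ⊗ (L ⊗ M) ≅ (L ⊗ E) ⊗ M` -/
def mtwTwIso [IsCov U] : tw g ⋙ mtw h ≅ mtw (g • h) :=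
  NatIso.ofComponents (fun M => asIso (mtwTwHom g h M)) (fun {M N} φ => by
    change (mtw h).map ((tw g).map φ) ≫ mtwTwHom g h N =
      mtwTwHom g h M ≫ (mtw (g • h)).map φ
    apply hom_ext'
    intro V s
    apply mext
    intro i
    ext k
    rw [ap_comp, ap_comp, mev_mtwTwHom, mev_map, mev_map, apV, apV, tev_map, mev_mtwTwHom])

end

end Orl.Vb
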