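import Pool.Agent.Work.MP_a6e60d_ag.Vb.Seq
import Pool.Agent.Work.MP_a6e60d_ag.Vb.TwMtw
import Pool.Agent.Work.MP_a6e60d_ag.Perf.Coh
import Pool.Agent.Work.MP_f714fc_ag.Tw.Local

/-!
# MP_a6e60d_ag: the line bundles `LL g` and the rank two bundles `EE g` are coherent
-/

open CategoryTheory Limits TopologicalSpace AlgebraicGeometry Opposite

attribute [-instance] CategoryTheory.catToReflQuiver

namespace Orl

open Fdim Fdim.Coc Orl.Vb

namespace XCharts

variable {A : CommRingCat.{0}} {a : A} {c : Fin 5 → A} {X : Scheme.{0}} {π : X ⟶ Spec A}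
  (Y : XCharts A a c π)

theorem isCoh_LL (g : Coc Y.U) : IsCoh X (Y.LL g) := isCoh_tw g IsCov.cov isCoh_unit

theorem isCoh_EE (g : Coc Y.U) : IsCoh X (Y.EE g) :=
  (IsCoh X).prop_X₂_of_shortExact (Y.seqE_exact g (g * Y.cB) rfl) (Y.isCoh_LL g)
    (Y.isCoh_LL (g * Y.cB))

instance isQuasicoherent_LL (g : Coc Y.U) : (Y.LL g).IsQuasicoherent := (Y.isCoh_LL g).1

instance isQuasicoherent_EE (g : Coc Y.U) : (Y.EE g).IsQuasicoherent := (Y.isCoh_EE g).1

/-- `E` as the twist of the structure sheaf by the cocycle `cE` -/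
noncomputable def isoEEOne : Y.EE 1 ≅ (mtw Y.cE).obj (OO X) :=
  eqToIso (by
    change (mtw _).obj (OO X) = (mtw _).obj (OO X)
    rw [one_smul])

/-- the structure sheaf as a line bundle -/
noncomputable def isoLLOne : OO X ≅ Y.LL 1 := oneIsoApp rfl (OO X)

/-- the twists of `E` -/
noncomputable def isoEE (g : Coc Y.U) : Y.EE g ≅ (tw g).obj ((mtw Y.cE).obj (OO X)) :=
  ((mtwSmulIso g Y.cE).app (OO X)).symm

theorem isCoh_E : IsCoh X ((mtw Y.cE).obj (OO X)) :=
  (IsCoh X).prop_of_iso Y.isoEEOne (Y.isCoh_EE 1)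

end XCharts

end Orl
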