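import Pool.Agent.Work.MP_a6e60d_ag.Vb.MtwFun

/-!
# MP_a6e60d_ag: trivialisations of twists and sums, transition matrices

* `Tv.unit`: the structure sheaf; `Tv.tw g a`: the twist; `Tv.sum a b`: the biproduct;
* `Trn a v`: the trivialisation `a` has the transition matrices `v`;
* `compat_of_trn`: compatibility of a family of matrices from the transition matrices.
-/

open CategoryTheory Limits TopologicalSpace AlgebraicGeometry Opposite Matrix

attribute [-instance] CategoryTheory.catToReflQuiver

universe u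

namespace Orl.Vb

open Fdim Fdim.Coc

noncomputable section

variable {X : Scheme.{u}} {ι : Type u} {U : ι → X.Opens}

/-- families of matrices on the intersections of two charts -/
abbrev Tra (U : ι → X.Opens) (m : Type) : Type u :=
  ∀ (i j : ι) {W : X.Opens} (_ : W ≤ U i) (_ : W ≤ U j), Matrix m m Γ(X, W)

section

variable {m : Type} [Fintype m]

/-- the trivialisation `a` has the transition matrices `v` -/
def Trn {M : X.Modules} (a : Tv U M m) (v : Tra U m) : Prop :=
  ∀ (i j : ι) {W : X.Opens} (hi : W ≤ U i) (hj : W ≤ U j) (s : Γ(M, W)),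
    a.co i hi s = v i j hi hj *ᵥ a.co j hj s

theorem compat_of_trn {n : Type} [Fintype n] {M N : X.Modules} {a : Tv U M m} {b : Tv U N n}
    {v : Tra U m} {w : Tra U n} (ha : Trn a v) (hb : Trn b w) {A : ∀ i, Matrix n m Γ(X, U i)}
    (h : ∀ (i j : ι) {W : X.Opens} (hi : W ≤ U i) (hj : W ≤ U j),
      rM hi (A i) * v i j hi hj = w i j hi hj * rM hj (A j)) : Tv.Compat a b A := by
  intro i j W hi hj s
  rw [LinearEquiv.symm_apply_eq, hb i j hi hj, LinearEquiv.apply_symm_apply, ha i j hi hj,
    Matrix.mulVec_mulVec, Matrix.mulVec_mulVec, h i j hi hj]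

end

/-! ### the structure sheaf -/

/-- the trivialisation of the structure sheaf -/
def Tv.unit : Tv U (Coc.OO X) Unit where
  co _ V _ := (LinearEquiv.funUnique Unit Γ(X, V) Γ(X, V)).symm
  co_rs i {V W} h hW s := by
    funext k
    rfl

/-- the transition matrices of the structure sheaf -/
theorem trn_unit : Trn (Tv.unit : Tv U (Coc.OO X) Unit) (fun _ _ _ _ _ => 1) := by
  intro i j W hi hj s
  rw [Matrix.one_mulVec]
  rfl

/-! ### twists -/

/-- the component of a section of a twist -/
def twEq (g : Coc U) (M : X.Modules) (i : ι) {V : X.Opens} (h : V ≤ U i) :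
    Γ((Coc.tw g).obj M, V) ≃ₗ[Γ(X, V)] Γ(M, V) :=
  LinearEquiv.ofBijective
    { toFun := fun s => tev s i le_rfl h
      map_add' := fun s t => by simp
      map_smul' := fun r s => by simp }
    ⟨fun _ _ hst => Coc.tw_ext i h hst, fun s => Coc.tw_exists i h s⟩

@[simp] lemma twEq_apply (g : Coc U) (M : X.Modules) (i : ι) {V : X.Opens} (h : V ≤ U i)
    (s : Γ((Coc.tw g).obj M, V)) : twEq g M i h s = tev s i le_rfl h := rfl

section

variable {m : Type}

/-- the trivialisation of a twist -/
def Tv.tw (g : Coc U) {M : X.Modules} (a : Tv U M m) : Tv U ((Coc.tw g).obj M) m where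
  co i _ h := (twEq g M i h).trans (a.co i h)
  co_rs i {V W} h hW s := by
    simp only [LinearEquiv.trans_apply, twEq_apply]
    rw [tev_rs, ← rs_tev s i le_rfl h hW, a.co_rs]

theorem trn_tw [Fintype m] (g : Coc U) {M : X.Modules} {a : Tv U M m} {v : Tra U m}
    (ha : Trn a v) : Trn (a.tw g) (fun i j _ hi hj => g.v i j hi hj • v i j hi hj) := by
  intro i j W hi hj s
  simp only [Tv.tw, LinearEquiv.trans_apply, twEq_apply]
  rw [tev_eq s i j le_rfl hi hj, map_smul, ha i j hi hj, Matrix.smul_mulVec]

end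

/-! ### sums -/

section

variable {m n : Type}

/-- sections of a sum -/
def sumEq (M N : X.Modules) (V : X.Opens) :
    Γ(M ⊞ N, V) ≃ₗ[Γ(X, V)] Γ(M, V) × Γ(N, V) where
  toFun s := (ap biprod.fst V s, ap biprod.snd V s)
  invFun s := ap biprod.inl V s.1 + ap biprod.inr V s.2
  map_add' s t := by simp
  map_smul' r s := by simp [ap_smul]
  left_inv s := by
    simp only
    rw [← ap_comp, ← ap_comp, ← ap_add, biprod.total, ap_id]
  right_inv s := by
    simp only [map_add, ← ap_comp, biprod.inl_fst, biprod.inr_fst, biprod.inl_snd,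
      biprod.inr_snd, ap_id, ap_zero, add_zero, zero_add]

/-- the trivialisation of a sum -/
def Tv.sum {M N : X.Modules} (a : Tv U M m) (b : Tv U N n) : Tv U (M ⊞ N) (m ⊕ n) where
  co i V h := (sumEq M N V).trans (((a.co i h).prodCongr (b.co i h)).trans
    (LinearEquiv.sumArrowLequivProdArrow m n Γ(X, V) Γ(X, V)).symm)
  co_rs i {V W} h hW s := by
    funext k
    rcases k with k | k
    · change a.co i _ (ap biprod.fst W (rs (M ⊞ N) hW s)) k = rO hW (a.co i h (ap biprod.fst V s) k)
      rw [ap_rs, a.co_rs i h hW]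
    · change b.co i _ (ap biprod.snd W (rs (M ⊞ N) hW s)) k = rO hW (b.co i h (ap biprod.snd V s) k)
      rw [ap_rs, b.co_rs i h hW]

theorem Tv.sum_co {M N : X.Modules} (a : Tv U M m) (b : Tv U N n) (i : ι) {V : X.Opens}
    (h : V ≤ U i) (s : Γ(M ⊞ N, V)) : (a.sum b).co i h s =
      Sum.elim (a.co i h (ap biprod.fst V s)) (b.co i h (ap biprod.snd V s)) := by
  funext k
  rcases k with k | k <;> rfl

theorem trn_sum [Fintype m] [Fintype n] {M N : X.Modules} {a : Tv U M m} {b : Tv U N n}
    {v : Tra U m} {w : Tra U n} (ha : Trn a v) (hb : Trn b w) :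
    Trn (a.sum b) (fun i j _ hi hj => Matrix.fromBlocks (v i j hi hj) 0 0 (w i j hi hj)) := by
  intro i j W hi hj s
  rw [Tv.sum_co, Tv.sum_co, Matrix.fromBlocks_mulVec, ha i j hi hj, hb i j hi hj]
  simp

end

end

end Orl.Vb
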