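import Pool.Agent.Work.MP_a6e60d_ag.Vb.EB

/-!
# MP_a6e60d_ag: the exact sequences of `E`

* `Tv.Chg a h`: the change of coordinates of the trivialisation `a` is the cocycle `h`;
* `twTv g`, `Tv.bi`: trivialisations of the twists of `O` and of direct sums;
* `Y.seqE g : 0 → L_g → E_g → L_g(B) → 0`;
* `Y.seqK g : 0 → L_g(-C) → L_g(-2 D) ⊕ L_g ⊕ L_g → E_g → 0`;
  here `L_g = Y.LL g = (tw g).obj O`, `E_g = Y.EE g = (mtw (g • cE)).obj O`.
-/

open CategoryTheory Limits TopologicalSpace AlgebraicGeometry Opposite Matrix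

attribute [-instance] CategoryTheory.catToReflQuiver

set_option linter.unusedSimpArgs false
set_option linter.unnecessarySeqFocus false

universe u

namespace Orl

open Fdim Fdim.Coc Orl.Vb

noncomputable section

namespace Vb

variable {X : Scheme.{u}} {ι : Type u} {U : ι → X.Opens} {m n p : Type} [Fintype m]
  [DecidableEq m] [Fintype n] [DecidableEq n] [Fintype p] [DecidableEq p]

/-! ### change of coordinates -/

/-- the change of coordinates of the trivialisation is the cocycle `h` -/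
def Tv.Chg {M : X.Modules} (a : Tv U M m) (h : MCoc U m) : Prop :=
  ∀ (i j : ι) {W : X.Opens} (hi : W ≤ U i) (hj : W ≤ U j) (s : Γ(M, W)),
    a.co i hi s = h.v i j hi hj *ᵥ a.co j hj s

theorem Tv.compat_of_chg {M N : X.Modules} {a : Tv U M m} {b : Tv U N n} {G : MCoc U m}
    {H : MCoc U n} (ha : a.Chg G) (hb : b.Chg H) {A : ∀ i, Matrix n m Γ(X, U i)}
    (h : ∀ (i j : ι) (W : X.Opens) (hi : W ≤ U i) (hj : W ≤ U j),
      rM hi (A i) * G.v i j hi hj = H.v i j hi hj * rM hj (A j)) : Tv.Compat a b A := by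
  intro i j W hi hj s
  rw [LinearEquiv.symm_apply_eq, hb i j hi hj, LinearEquiv.apply_symm_apply, ha i j hi hj,
    Matrix.mulVec_mulVec, h, ← Matrix.mulVec_mulVec]

theorem mtwTv_chg (h : MCoc U m) : (mtwTv h).Chg h := by
  intro i j W hi hj s
  exact mev_eq s i j le_rfl hi hj

/-- the direct sum of line bundles -/
def MCoc.diag (G : m → Coc U) : MCoc U m where
  g i j := Matrix.diagonal fun k => (G k).v i j inf_le_left inf_le_right
  one i := by simp
  mul i j k := by
    have h1 : ∀ {V W : X.Opens} (h : W ≤ V) (d : m → Γ(X, V)),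
        rM h (Matrix.diagonal d) = Matrix.diagonal fun k => rO h (d k) := by
      intro V W h d
      ext b l
      by_cases hb : b = l
      · subst hb
        simp [rM]
      · simp [rM, Matrix.diagonal_apply_ne _ hb]
    rw [h1, h1, h1, Matrix.diagonal_mul_diagonal]
    congr 1
    funext l
    rw [(G l).rO_v, (G l).rO_v, (G l).rO_v, (G l).v_v]

@[simp] theorem MCoc.diag_v (G : m → Coc U) (i j : ι) {W : X.Opens} (hi : W ≤ U i)
    (hj : W ≤ U j) : (MCoc.diag G).v i j hi hj = Matrix.diagonal fun k => (G k).v i j hi hj := by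
  ext b l
  by_cases hb : b = l
  · subst hb
    simp [MCoc.v, rM, MCoc.diag]
  · simp [MCoc.v, rM, MCoc.diag, Matrix.diagonal_apply_ne _ hb]

/-- the trivialisation of a twist of the structure sheaf -/
def twTv (g : Coc U) : Tv U ((tw g).obj (OO X)) (Fin 1) where
  co i V h :=
    { toFun := fun s _ => sv s i le_rfl h
      map_add' := fun s t => by
        funext k
        exact sv_add s t i le_rfl h
      map_smul' := fun r s => by
        funext k
        change sv (r • s) i le_rfl h = r * sv s i le_rfl h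
        rw [sv_smul, rO_self]
      invFun := fun c => (tw_exists (g := g) (M := OO X) i h (c 0)).choose
      left_inv := fun s => by
        apply tw_ext (g := g) (M := OO X) i h
        exact (tw_exists (g := g) (M := OO X) i h _).choose_spec
      right_inv := fun c => by
        funext k
        rw [Subsingleton.elim k 0]
        exact (tw_exists (g := g) (M := OO X) i h (c 0)).choose_spec }
  co_rs i {V W} h hW s := by
    funext k
    have h1 := rO_sv s i le_rfl h hW
    have h2 := sv_rs hW s i le_rfl (hW.trans h)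
    exact h2.trans h1.symm

theorem twTv_chg (g : Coc U) : (twTv g).Chg (MCoc.diag fun _ => g) := by
  intro i j W hi hj s
  rw [MCoc.diag_v]
  funext k
  rw [Matrix.mulVec_diagonal]
  exact sv_eq s i j le_rfl hi hj

/-- the trivialisation of a direct sum -/
def Tv.bi {M N : X.Modules} {l : ℕ} (a : Tv U M (Fin 1)) (b : Tv U N (Fin l)) :
    Tv U (M ⊞ N) (Fin (l + 1)) where
  co i V h :=
    { toFun := fun s => vecCons (a.co i h (ap biprod.fst V s) 0) (b.co i h (ap biprod.snd V s))
      map_add' := fun s t => by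
        rw [map_add, map_add, map_add, map_add, Pi.add_apply, Matrix.cons_add_cons]
      map_smul' := fun r s => by
        rw [ap_smul, ap_smul, map_smul, map_smul, Pi.smul_apply, RingHom.id_apply,
          Matrix.smul_cons]
      invFun := fun c => ap (biprod.inl : M ⟶ M ⊞ N) V ((a.co i h).symm fun _ => c 0) +
        ap (biprod.inr : N ⟶ M ⊞ N) V ((b.co i h).symm (vecTail c))
      left_inv := fun s => by
        have h1 : (fun _ : Fin 1 => a.co i h (ap biprod.fst V s) 0) =
            a.co i h (ap biprod.fst V s) := by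
          funext k
          rw [Subsingleton.elim k 0]
        simp only [Matrix.cons_val_zero, Matrix.tail_cons]
        rw [h1, LinearEquiv.symm_apply_apply, LinearEquiv.symm_apply_apply, ← ap_comp, ← ap_comp,
          ← ap_add, biprod.total, ap_id]
      right_inv := fun c => by
        have e1 : ap (biprod.fst : M ⊞ N ⟶ M) V
            (ap (biprod.inl : M ⟶ M ⊞ N) V ((a.co i h).symm fun _ => c 0) +
            ap (biprod.inr : N ⟶ M ⊞ N) V ((b.co i h).symm (vecTail c))) =
            (a.co i h).symm fun _ => c 0 := by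
          rw [map_add, ← ap_comp, ← ap_comp, biprod.inl_fst, biprod.inr_fst, ap_id, ap_zero,
            add_zero]
        have e2 : ap (biprod.snd : M ⊞ N ⟶ N) V
            (ap (biprod.inl : M ⟶ M ⊞ N) V ((a.co i h).symm fun _ => c 0) +
            ap (biprod.inr : N ⟶ M ⊞ N) V ((b.co i h).symm (vecTail c))) =
            (b.co i h).symm (vecTail c) := by
          rw [map_add, ← ap_comp, ← ap_comp, biprod.inl_snd, biprod.inr_snd, ap_id, ap_zero,
            zero_add]
        beta_reduce
        rw [e1, e2, LinearEquiv.apply_symm_apply, LinearEquiv.apply_symm_apply]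
        exact Matrix.cons_head_tail c }
  co_rs i {V W} h hW s := by
    change vecCons (a.co i _ (ap biprod.fst W (rs _ hW s)) 0) (b.co i _ (ap biprod.snd W
      (rs _ hW s))) = _
    rw [ap_rs, ap_rs, a.co_rs, b.co_rs]
    funext k
    refine Fin.cases ?_ (fun k => ?_) k
    · rfl
    · rfl

theorem Tv.bi_chg {M N : X.Modules} {l : ℕ} {a : Tv U M (Fin 1)} {b : Tv U N (Fin l)}
    {g : Coc U} {G : Fin l → Coc U} (ha : a.Chg (MCoc.diag fun _ => g))
    (hb : b.Chg (MCoc.diag G)) : (a.bi b).Chg (MCoc.diag (vecCons g G)) := by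
  intro i j W hi hj s
  rw [MCoc.diag_v]
  have h1 := ha i j hi hj (ap biprod.fst W s)
  have h2 := hb i j hi hj (ap biprod.snd W s)
  rw [MCoc.diag_v] at h1 h2
  funext k
  refine Fin.cases ?_ (fun k => ?_) k
  · rw [Matrix.mulVec_diagonal]
    change a.co i hi (ap biprod.fst W s) 0 = g.v i j hi hj * a.co j hj (ap biprod.fst W s) 0
    rw [h1, Matrix.mulVec_diagonal]
  · rw [Matrix.mulVec_diagonal]
    change b.co i hi (ap biprod.snd W s) k = (G k).v i j hi hj * b.co j hj (ap biprod.snd W s) k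
    rw [h2, Matrix.mulVec_diagonal]

/-! ### short exact sequences from matrices -/

/-- matrices of a locally split short exact sequence of vector bundles -/
structure SesMat (G : MCoc U m) (H : MCoc U n) (K : MCoc U p) where
  A : ∀ i, Matrix n m Γ(X, U i)
  B : ∀ i, Matrix p n Γ(X, U i)
  L : ∀ i, Matrix m n Γ(X, U i)
  R : ∀ i, Matrix n p Γ(X, U i)
  hA : ∀ (i j : ι) (W : X.Opens) (hi : W ≤ U i) (hj : W ≤ U j),
      rM hi (A i) * G.v i j hi hj = H.v i j hi hj * rM hj (A j)
  hB : ∀ (i j : ι) (W : X.Opens) (hi : W ≤ U i) (hj : W ≤ U j),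
      rM hi (B i) * H.v i j hi hj = K.v i j hi hj * rM hj (B j)
  h₀ : ∀ i, B i * A i = 0
  h₁ : ∀ i, L i * A i = 1
  h₂ : ∀ i, B i * R i = 1
  h₃ : ∀ i, A i * L i + R i * B i = 1

namespace SesMat

variable [IsCov U] {G : MCoc U m} {H : MCoc U n} {K : MCoc U p} (S : SesMat G H K)
  {M N P : X.Modules} {a : Tv U M m} {b : Tv U N n} {c : Tv U P p} (ha : a.Chg G) (hb : b.Chg H)
  (hc : c.Chg K)

include S ha hb hc

/-- the short exact sequence -/
def sc : ShortComplex X.Modules :=
  ShortComplex.mk (a.hom b (Tv.compat_of_chg ha hb S.hA)) (b.hom c (Tv.compat_of_chg hb hc S.hB))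
    (((a.isMat_hom b (Tv.compat_of_chg ha hb S.hA)).comp
      (b.isMat_hom c (Tv.compat_of_chg hb hc S.hB))).eq_zero S.h₀)

theorem shortExact : (S.sc ha hb hc).ShortExact :=
  Tv.shortExact_of_isMat (S := S.sc ha hb hc) (a := a) (b := b) (c := c)
    (a.isMat_hom b (Tv.compat_of_chg ha hb S.hA)) (b.isMat_hom c (Tv.compat_of_chg hb hc S.hB))
    S.L S.R S.h₁ S.h₂ S.h₃

end SesMat

end Vb

namespace XCharts

variable {A : CommRingCat.{0}} {a : A} {c : Fin 5 → A} {X : Scheme.{0}} {π : X ⟶ Spec A}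
  (Y : XCharts A a c π)

/-- the line bundle of the cocycle `g` -/
abbrev LL (g : Coc Y.U) : X.Modules := (tw g).obj (OO X)

/-- the twist of `E` by the line bundle of the cocycle `g` -/
abbrev EE (g : Coc Y.U) : X.Modules := (mtw (g • Y.cE)).obj (OO X)

/-- the matrices of `0 → L → E ⊗ L → L(B) → 0` -/
def sesE (g h : Coc Y.U) (e : g * Y.cB = h) :
    SesMat (MCoc.diag fun _ : Fin 1 => g) (g • Y.cE) (MCoc.diag fun _ : Fin 1 => h) where
  A _ := !![1; 0]
  B _ := !![0, 1]
  L _ := !![1, 0]
  R _ := !![0; 1]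
  hA i j W hi hj := by
    rw [MCoc.smul_v, MCoc.diag_v, cE_v]
    ext k l
    fin_cases k <;> fin_cases l <;>
      simp [rM, Matrix.mul_apply, Fin.sum_univ_two]
  hB i j W hi hj := by
    rw [MCoc.smul_v, MCoc.diag_v, cE_v, ← e]
    ext k l
    fin_cases k <;> fin_cases l <;>
      simp [rM, Matrix.mul_apply, Fin.sum_univ_two, cB_v]
  h₀ i := by
    ext k l
    fin_cases k <;> fin_cases l <;> simp [Matrix.mul_apply, Fin.sum_univ_two]
  h₁ i := by
    ext k l
    fin_cases k <;> fin_cases l <;> simp [Matrix.mul_apply, Fin.sum_univ_two]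
  h₂ i := by
    ext k l
    fin_cases k <;> fin_cases l <;> simp [Matrix.mul_apply, Fin.sum_univ_two]
  h₃ i := by
    ext k l
    fin_cases k <;> fin_cases l <;> simp [Matrix.mul_apply, Fin.sum_univ_two]

/-- the exact sequence `0 → L → E ⊗ L → L(B) → 0` -/
def seqE (g h : Coc Y.U) (e : g * Y.cB = h) : ShortComplex X.Modules :=
  (Y.sesE g h e).sc (twTv_chg g) (mtwTv_chg _) (twTv_chg h)

theorem seqE_exact (g h : Coc Y.U) (e : g * Y.cB = h) : (Y.seqE g h e).ShortExact :=
  (Y.sesE g h e).shortExact _ _ _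

/-- the map `(v / w, 1, √a)` to `E` -/
def matP : ∀ i : Fin 4, Matrix (Fin 2) (Fin 3) Γ(X, Y.U i) :=
  fun i k l => ![Y.mJ i k, Y.mOne i k, Y.mI i k] l

/-- the map `(w, - y, - z)` -/
def matF : ∀ i : Fin 4, Matrix (Fin 3) (Fin 1) Γ(X, Y.U i) :=
  fun i => !![Y.fW i; - Y.fY i; - Y.fZ i]

/-- the left inverse -/
def matL : ∀ i : Fin 4, Matrix (Fin 1) (Fin 3) Γ(X, Y.U i)
  | 0 => !![0, 0, -1]
  | 1 => !![1, 0, 0]
  | 2 => !![0, 0, -1]
  | 3 => !![1, 0, 0]

/-- the right inverse -/
def matR : ∀ i : Fin 4, Matrix (Fin 3) (Fin 2) Γ(X, Y.U i)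
  | 0 => !![0, 1; 1, 0; 0, 0]
  | 1 => !![0, 0; 1, 0; 0, 1]
  | 2 => !![0, 1; 1, 0; 0, 0]
  | 3 => !![0, 0; 1, 0; 0, 1]

/-- the matrices of `0 → L(-C) → L(-2 D) ⊕ L ⊕ L → E ⊗ L → 0` -/
def sesK (g g' g'' : Coc Y.U) (e : g' * Y.cD ^ 2 = g) (e' : g'' * Y.cC = g) :
    SesMat (MCoc.diag fun _ : Fin 1 => g'') (MCoc.diag ![g', g, g]) (g • Y.cE) where
  A := Y.matF
  B := Y.matP
  L := Y.matL
  R := Y.matR
  hA i j W hi hj := by
    have e2 : g'' * Y.cB = g' := by
      rw [← Y.cB_mul, ← mul_assoc] at e'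
      rw [← e] at e'
      exact mul_right_cancel e'
    have h1 := Y.isSec_fW i j W hi hj
    have h2 := Y.isSec_fY i j W hi hj
    have h3 := Y.isSec_fZ i j W hi hj
    rw [MCoc.diag_v, MCoc.diag_v]
    ext k l
    rw [Matrix.mul_diagonal, Matrix.diagonal_mul, Subsingleton.elim l 0]
    fin_cases k
    · change rO hi (Y.fW i) * g''.v i j hi hj = g'.v i j hi hj * rO hj (Y.fW j)
      rw [h1, ← e2, Coc.v_mul]
      ring
    · change rO hi (- Y.fY i) * g''.v i j hi hj = g.v i j hi hj * rO hj (- Y.fY j)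
      rw [map_neg, map_neg, h2, ← e', Coc.v_mul]
      ring
    · change rO hi (- Y.fZ i) * g''.v i j hi hj = g.v i j hi hj * rO hj (- Y.fZ j)
      rw [map_neg, map_neg, h3, ← e', Coc.v_mul]
      ring
  hB i j W hi hj := by
    have h1 := Y.isMSec_mJ i j W hi hj
    have h2 := Y.isMSec_mOne i j W hi hj
    have h3 := Y.isMSec_mI i j W hi hj
    rw [MCoc.smul_v, Matrix.smul_mulVec] at h1
    rw [MCoc.diag_v, MCoc.smul_v, Matrix.smul_mul]
    ext k l
    rw [Matrix.mul_diagonal, Matrix.smul_apply, smul_eq_mul]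
    fin_cases l
    · change rV hi (Y.mJ i) k * g'.v i j hi hj =
        g.v i j hi hj * (Y.cE.v i j hi hj *ᵥ rV hj (Y.mJ j)) k
      rw [h1, Pi.smul_apply, smul_eq_mul, ← e, Coc.v_mul]
      ring
    · change rV hi (Y.mOne i) k * g.v i j hi hj =
        g.v i j hi hj * (Y.cE.v i j hi hj *ᵥ rV hj (Y.mOne j)) k
      rw [h2]
      ring
    · change rV hi (Y.mI i) k * g.v i j hi hj =
        g.v i j hi hj * (Y.cE.v i j hi hj *ᵥ rV hj (Y.mI j)) k
      rw [h3]
      ring
  h₀ i := by
    match i with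
    | 0 =>
      ext k l
      fin_cases k <;> fin_cases l <;>
        simp [matP, matF, mJ, mOne, mI, fW, fY, fZ, eC, Matrix.mul_apply, Fin.sum_univ_three]
    | 1 =>
      ext k l
      fin_cases k <;> fin_cases l <;>
        simp [matP, matF, mJ, mOne, mI, fW, fY, fZ, eC, Matrix.mul_apply, Fin.sum_univ_three]
    | 2 =>
      ext k l
      fin_cases k <;> fin_cases l <;>
        simp [matP, matF, mJ, mOne, mI, fW, fY, fZ, eC, Matrix.mul_apply, Fin.sum_univ_three]
    | 3 =>
      ext k l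
      fin_cases k <;> fin_cases l <;>
        simp [matP, matF, mJ, mOne, mI, fW, fY, fZ, eC, Matrix.mul_apply, Fin.sum_univ_three]
  h₁ i := by
    match i with
    | 0 =>
      ext k l
      fin_cases k; fin_cases l
      simp [matL, matF, fW, fY, fZ, eC, Matrix.mul_apply, Fin.sum_univ_three]
    | 1 =>
      ext k l
      fin_cases k; fin_cases l
      simp [matL, matF, fW, fY, fZ, eC, Matrix.mul_apply, Fin.sum_univ_three]
    | 2 =>
      ext k l
      fin_cases k; fin_cases l
      simp [matL, matF, fW, fY, fZ, eC, Matrix.mul_apply, Fin.sum_univ_three]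
    | 3 =>
      ext k l
      fin_cases k; fin_cases l
      simp [matL, matF, fW, fY, fZ, eC, Matrix.mul_apply, Fin.sum_univ_three]
  h₂ i := by
    match i with
    | 0 =>
      ext k l
      fin_cases k <;> fin_cases l <;>
        simp [matP, matR, mJ, mOne, mI, Matrix.mul_apply, Fin.sum_univ_three]
    | 1 =>
      ext k l
      fin_cases k <;> fin_cases l <;>
        simp [matP, matR, mJ, mOne, mI, Matrix.mul_apply, Fin.sum_univ_three]
    | 2 =>
      ext k l
      fin_cases k <;> fin_cases l <;>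
        simp [matP, matR, mJ, mOne, mI, Matrix.mul_apply, Fin.sum_univ_three]
    | 3 =>
      ext k l
      fin_cases k <;> fin_cases l <;>
        simp [matP, matR, mJ, mOne, mI, Matrix.mul_apply, Fin.sum_univ_three]
  h₃ i := by
    ext k l
    rw [Matrix.add_apply, Matrix.mul_apply, Matrix.mul_apply, Fin.sum_univ_two, Fin.sum_univ_one]
    match i with
    | 0 =>
      fin_cases k <;> fin_cases l <;>
        simp [matP, matR, matF, matL, mJ, mOne, mI, fW, fY, fZ, eC]
    | 1 =>
      fin_cases k <;> fin_cases l <;>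
        simp [matP, matR, matF, matL, mJ, mOne, mI, fW, fY, fZ, eC]
    | 2 =>
      fin_cases k <;> fin_cases l <;>
        simp [matP, matR, matF, matL, mJ, mOne, mI, fW, fY, fZ, eC]
    | 3 =>
      fin_cases k <;> fin_cases l <;>
        simp [matP, matR, matF, matL, mJ, mOne, mI, fW, fY, fZ, eC]

/-- the trivialisation of a sum of three line bundles -/
def tv3 {X : Scheme.{u}} {ι : Type u} {U : ι → X.Opens} (g' g : Coc U) :
    Tv U ((tw g').obj (OO X) ⊞ ((tw g).obj (OO X) ⊞ (tw g).obj (OO X))) (Fin 3) :=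
  (twTv g').bi ((twTv g).bi (twTv g))

theorem tv3_chg {X : Scheme.{u}} {ι : Type u} {U : ι → X.Opens} (g' g : Coc U) :
    (tv3 g' g).Chg (MCoc.diag ![g', g, g]) := by
  have h1 : (![g', g, g] : Fin 3 → Coc U) = vecCons g' (vecCons g fun _ : Fin 1 => g) := by
    funext k
    fin_cases k <;> rfl
  rw [h1]
  exact Tv.bi_chg (twTv_chg g') (Tv.bi_chg (twTv_chg g) (twTv_chg g))

/-- the exact sequence `0 → L(-C) → L(-2 D) ⊕ L ⊕ L → E ⊗ L → 0` -/
def seqK (g g' g'' : Coc Y.U) (e : g' * Y.cD ^ 2 = g) (e' : g'' * Y.cC = g) :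
    ShortComplex X.Modules :=
  (Y.sesK g g' g'' e e').sc (twTv_chg g'') (tv3_chg g' g) (mtwTv_chg _)

theorem seqK_exact (g g' g'' : Coc Y.U) (e : g' * Y.cD ^ 2 = g) (e' : g'' * Y.cC = g) :
    (Y.seqK g g' g'' e e').ShortExact :=
  (Y.sesK g g' g'' e e').shortExact _ _ _

end XCharts

end

end Orl
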