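import Pool.Agent.Work.MP_f714fc_ag.Geo.YSect
import Pool.Agent.Work.MP_a6e60d_ag.Sch.XCharts

/-!
# MP_a6e60d_ag: line bundles on the Châtelet surfaces `y ^ 2 = a z ^ 2 + q(x, t) w ^ 2`

`D` is the class of a fibre (sections `x, t`), `B` the class of `w`, `C = B + 2 D` the class of
`y, z`.  The frame of `D` is `t, t, x, x`, the frame of `C` is `z, w t ^ 2, z, w x ^ 2`.
* `Y.frD`, `Y.frC`: the frames, `Y.cD`, `Y.cC`: their cocycles, `Y.cB = cC * (cD ^ 2)⁻¹`;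
* sections `sX, sT` of `D`, `sZ, sWTT, sWXT, sWXX, sY` of `C`, `sW` of `B`;
* `relXXx, relXXy, relXXe`: the relations between the coordinates on smaller open subsets.
-/

open CategoryTheory Limits TopologicalSpace AlgebraicGeometry Opposite

attribute [-instance] CategoryTheory.catToReflQuiver

set_option linter.unusedSimpArgs false

universe u

namespace Orl

open Fdim Fdim.Coc

noncomputable section

/-! ### four open subsets -/

section four

variable {X : Scheme.{0}} {U : Fin 4 → X.Opens}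

/-- a frame on four opens from the relations on the six overlaps -/
def mk4Frame (e : ∀ i : Fin 4, Fin 4 → Γ(X, U i)) (one : ∀ i, e i i = 1)
    (m01 : ∀ k, rO (inf_le_left : U 0 ⊓ U 1 ≤ U 0) (e 0 1) *
      rO (inf_le_right : U 0 ⊓ U 1 ≤ U 1) (e 1 k) = rO inf_le_left (e 0 k))
    (m02 : ∀ k, rO (inf_le_left : U 0 ⊓ U 2 ≤ U 0) (e 0 2) *
      rO (inf_le_right : U 0 ⊓ U 2 ≤ U 2) (e 2 k) = rO inf_le_left (e 0 k))
    (m03 : ∀ k, rO (inf_le_left : U 0 ⊓ U 3 ≤ U 0) (e 0 3) *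
      rO (inf_le_right : U 0 ⊓ U 3 ≤ U 3) (e 3 k) = rO inf_le_left (e 0 k))
    (m12 : ∀ k, rO (inf_le_left : U 1 ⊓ U 2 ≤ U 1) (e 1 2) *
      rO (inf_le_right : U 1 ⊓ U 2 ≤ U 2) (e 2 k) = rO inf_le_left (e 1 k))
    (m13 : ∀ k, rO (inf_le_left : U 1 ⊓ U 3 ≤ U 1) (e 1 3) *
      rO (inf_le_right : U 1 ⊓ U 3 ≤ U 3) (e 3 k) = rO inf_le_left (e 1 k))
    (m23 : ∀ k, rO (inf_le_left : U 2 ⊓ U 3 ≤ U 2) (e 2 3) *
      rO (inf_le_right : U 2 ⊓ U 3 ≤ U 3) (e 3 k) = rO inf_le_left (e 2 k)) :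
    Frame U where
  e := e
  one := one
  mul := by
    have key : ∀ i j : Fin 4, (∀ k, rO (inf_le_left : U i ⊓ U j ≤ U i) (e i j) *
        rO (inf_le_right : U i ⊓ U j ≤ U j) (e j k) = rO inf_le_left (e i k)) →
        ∀ k, rO (inf_le_left : U j ⊓ U i ≤ U j) (e j i) *
          rO (inf_le_right : U j ⊓ U i ≤ U i) (e i k) = rO inf_le_left (e j k) := by
      intro i j h k
      have h1 := congrArg (rO (le_inf inf_le_right inf_le_left :
        U j ⊓ U i ≤ U i ⊓ U j)) (h i)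
      have h2 := congrArg (rO (le_inf inf_le_right inf_le_left :
        U j ⊓ U i ≤ U i ⊓ U j)) (h k)
      simp only [map_mul, rO_rO, one, map_one] at h1 h2
      linear_combination rO _ (e j k) * h1 - rO _ (e j i) * h2
    have key2 : ∀ i k : Fin 4, rO (inf_le_left : U i ⊓ U i ≤ U i) (e i i) *
        rO (inf_le_right : U i ⊓ U i ≤ U i) (e i k) = rO inf_le_left (e i k) := by
      intro i k
      rw [one, map_one, one_mul]
    intro i j
    match i, j with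
    | 0, 0 => exact key2 0
    | 0, 1 => exact m01
    | 0, 2 => exact m02
    | 0, 3 => exact m03
    | 1, 0 => exact key _ _ m01
    | 1, 1 => exact key2 1
    | 1, 2 => exact m12
    | 1, 3 => exact m13
    | 2, 0 => exact key _ _ m02
    | 2, 1 => exact key _ _ m12
    | 2, 2 => exact key2 2
    | 2, 3 => exact m23
    | 3, 0 => exact key _ _ m03
    | 3, 1 => exact key _ _ m13
    | 3, 2 => exact key _ _ m23
    | 3, 3 => exact key2 3

/-- a section of a line bundle on four opens from the relations on the six overlaps -/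
theorem isSec4 {g : Coc U} {s : ∀ i, Γ(X, U i)}
    (h01 : rO (inf_le_left : U 0 ⊓ U 1 ≤ U 0) (s 0) =
      g.v 0 1 inf_le_left inf_le_right * rO (inf_le_right : U 0 ⊓ U 1 ≤ U 1) (s 1))
    (h02 : rO (inf_le_left : U 0 ⊓ U 2 ≤ U 0) (s 0) =
      g.v 0 2 inf_le_left inf_le_right * rO (inf_le_right : U 0 ⊓ U 2 ≤ U 2) (s 2))
    (h03 : rO (inf_le_left : U 0 ⊓ U 3 ≤ U 0) (s 0) =
      g.v 0 3 inf_le_left inf_le_right * rO (inf_le_right : U 0 ⊓ U 3 ≤ U 3) (s 3))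
    (h12 : rO (inf_le_left : U 1 ⊓ U 2 ≤ U 1) (s 1) =
      g.v 1 2 inf_le_left inf_le_right * rO (inf_le_right : U 1 ⊓ U 2 ≤ U 2) (s 2))
    (h13 : rO (inf_le_left : U 1 ⊓ U 3 ≤ U 1) (s 1) =
      g.v 1 3 inf_le_left inf_le_right * rO (inf_le_right : U 1 ⊓ U 3 ≤ U 3) (s 3))
    (h23 : rO (inf_le_left : U 2 ⊓ U 3 ≤ U 2) (s 2) =
      g.v 2 3 inf_le_left inf_le_right * rO (inf_le_right : U 2 ⊓ U 3 ≤ U 3) (s 3)) :
    IsSec g s := by
  apply IsSec.mk'
  intro i j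
  match i, j with
  | 0, 0 => exact IsSec.diag 0
  | 0, 1 => exact h01
  | 0, 2 => exact h02
  | 0, 3 => exact h03
  | 1, 0 => exact IsSec.swap h01
  | 1, 1 => exact IsSec.diag 1
  | 1, 2 => exact h12
  | 1, 3 => exact h13
  | 2, 0 => exact IsSec.swap h02
  | 2, 1 => exact IsSec.swap h12
  | 2, 2 => exact IsSec.diag 2
  | 2, 3 => exact h23
  | 3, 0 => exact IsSec.swap h03
  | 3, 1 => exact IsSec.swap h13
  | 3, 2 => exact IsSec.swap h23
  | 3, 3 => exact IsSec.diag 3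

end four

namespace XCharts

variable {A : CommRingCat.{0}} {a : A} {c : Fin 5 → A} {X : Scheme.{0}} {π : X ⟶ Spec A}
  (Y : XCharts A a c π)

instance isCov : IsCov Y.U := ⟨Y.cover⟩

/-! ### relations on smaller open subsets -/

section rel

variable {W : X.Opens}

theorem rel01x (h0 : W ≤ Y.U 0) (h1 : W ≤ Y.U 1) : rO h0 (Y.x 0) = rO h1 (Y.x 1) := by
  have h := congrArg (rO (le_inf h0 h1)) Y.r01x
  simpa only [rO_rO] using h

theorem rel01y (h0 : W ≤ Y.U 0) (h1 : W ≤ Y.U 1) : rO h0 (Y.y 0) * rO h1 (Y.y 1) = 1 := by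
  have h := congrArg (rO (le_inf h0 h1)) Y.r01y
  simpa only [map_mul, map_one, rO_rO] using h

theorem rel01e (h0 : W ≤ Y.U 0) (h1 : W ≤ Y.U 1) :
    rO h0 (Y.e 0) * rO h1 (Y.y 1) = rO h1 (Y.e 1) := by
  have h := congrArg (rO (le_inf h0 h1)) Y.r01e
  simpa only [map_mul, map_one, rO_rO] using h

theorem rel23x (h0 : W ≤ Y.U 2) (h1 : W ≤ Y.U 3) : rO h0 (Y.x 2) = rO h1 (Y.x 3) := by
  have h := congrArg (rO (le_inf h0 h1)) Y.r23x
  simpa only [rO_rO] using h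

theorem rel23y (h0 : W ≤ Y.U 2) (h1 : W ≤ Y.U 3) : rO h0 (Y.y 2) * rO h1 (Y.y 3) = 1 := by
  have h := congrArg (rO (le_inf h0 h1)) Y.r23y
  simpa only [map_mul, map_one, rO_rO] using h

theorem rel23e (h0 : W ≤ Y.U 2) (h1 : W ≤ Y.U 3) :
    rO h0 (Y.e 2) * rO h1 (Y.y 3) = rO h1 (Y.e 3) := by
  have h := congrArg (rO (le_inf h0 h1)) Y.r23e
  simpa only [map_mul, map_one, rO_rO] using h

theorem rel02x (h0 : W ≤ Y.U 0) (h1 : W ≤ Y.U 2) : rO h0 (Y.x 0) * rO h1 (Y.x 2) = 1 := by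
  have h := congrArg (rO (le_inf h0 h1)) Y.r02x
  simpa only [map_mul, map_one, rO_rO] using h

theorem rel02y (h0 : W ≤ Y.U 0) (h1 : W ≤ Y.U 2) :
    rO h1 (Y.y 2) = rO h0 (Y.x 0) ^ 2 * rO h0 (Y.y 0) := by
  have h := congrArg (rO (le_inf h0 h1)) Y.r02y
  simpa only [map_mul, map_pow, map_one, rO_rO] using h

theorem rel02e (h0 : W ≤ Y.U 0) (h1 : W ≤ Y.U 2) : rO h0 (Y.e 0) = rO h1 (Y.e 2) := by
  have h := congrArg (rO (le_inf h0 h1)) Y.r02e
  simpa only [rO_rO] using h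

theorem rel13x (h0 : W ≤ Y.U 1) (h1 : W ≤ Y.U 3) : rO h0 (Y.x 1) * rO h1 (Y.x 3) = 1 := by
  have h := congrArg (rO (le_inf h0 h1)) Y.r13x
  simpa only [map_mul, map_one, rO_rO] using h

theorem rel13y (h0 : W ≤ Y.U 1) (h1 : W ≤ Y.U 3) :
    rO h0 (Y.y 1) = rO h0 (Y.x 1) ^ 2 * rO h1 (Y.y 3) := by
  have h := congrArg (rO (le_inf h0 h1)) Y.r13y
  simpa only [map_mul, map_pow, map_one, rO_rO] using h

theorem rel13e (h0 : W ≤ Y.U 1) (h1 : W ≤ Y.U 3) :
    rO h0 (Y.e 1) = rO h0 (Y.x 1) ^ 2 * rO h1 (Y.e 3) := by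
  have h := congrArg (rO (le_inf h0 h1)) Y.r13e
  simpa only [map_mul, map_pow, map_one, rO_rO] using h

theorem rel03x (h0 : W ≤ Y.U 0) (h1 : W ≤ Y.U 3) : rO h0 (Y.x 0) * rO h1 (Y.x 3) = 1 := by
  have h := congrArg (rO (le_inf h0 h1)) Y.r03x
  simpa only [map_mul, map_one, rO_rO] using h

theorem rel03y (h0 : W ≤ Y.U 0) (h1 : W ≤ Y.U 3) :
    rO h0 (Y.x 0) ^ 2 * rO h0 (Y.y 0) * rO h1 (Y.y 3) = 1 := by
  have h := congrArg (rO (le_inf h0 h1)) Y.r03y
  simpa only [map_mul, map_pow, map_one, rO_rO] using h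

theorem rel03e (h0 : W ≤ Y.U 0) (h1 : W ≤ Y.U 3) :
    rO h0 (Y.x 0) ^ 2 * rO h0 (Y.y 0) * rO h1 (Y.e 3) = rO h0 (Y.e 0) := by
  have h := congrArg (rO (le_inf h0 h1)) Y.r03e
  simpa only [map_mul, map_pow, map_one, rO_rO] using h

theorem rel12x (h0 : W ≤ Y.U 1) (h1 : W ≤ Y.U 2) : rO h0 (Y.x 1) * rO h1 (Y.x 2) = 1 := by
  have h := congrArg (rO (le_inf h0 h1)) Y.r12x
  simpa only [map_mul, map_one, rO_rO] using h

theorem rel12y (h0 : W ≤ Y.U 1) (h1 : W ≤ Y.U 2) :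
    rO h0 (Y.y 1) * (rO h1 (Y.x 2) ^ 2 * rO h1 (Y.y 2)) = 1 := by
  have h := congrArg (rO (le_inf h0 h1)) Y.r12y
  simpa only [map_mul, map_pow, map_one, rO_rO] using h

theorem rel12e (h0 : W ≤ Y.U 1) (h1 : W ≤ Y.U 2) :
    rO h0 (Y.e 1) * (rO h1 (Y.x 2) ^ 2 * rO h1 (Y.y 2)) = rO h1 (Y.e 2) := by
  have h := congrArg (rO (le_inf h0 h1)) Y.r12e
  simpa only [map_mul, map_pow, map_one, rO_rO] using h

end rel

/-! ### the frames -/

/-- the functions `l j / l i` on chart `i`, for `l = t, t, x, x` -/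
def eD : ∀ i : Fin 4, Fin 4 → Γ(X, Y.U i)
  | 0 => ![1, 1, Y.x 0, Y.x 0]
  | 1 => ![1, 1, Y.x 1, Y.x 1]
  | 2 => ![Y.x 2, Y.x 2, 1, 1]
  | 3 => ![Y.x 3, Y.x 3, 1, 1]

/-- the functions `l j / l i` on chart `i`, for `l = z, w t ^ 2, z, w x ^ 2` -/
def eC : ∀ i : Fin 4, Fin 4 → Γ(X, Y.U i)
  | 0 => ![1, Y.y 0, 1, Y.x 0 ^ 2 * Y.y 0]
  | 1 => ![Y.y 1, 1, Y.y 1, Y.x 1 ^ 2]
  | 2 => ![1, Y.x 2 ^ 2 * Y.y 2, 1, Y.y 2]
  | 3 => ![Y.y 3, Y.x 3 ^ 2, Y.y 3, 1]

/-- the frame of the fibre class `D` -/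
def frD : Frame Y.U :=
  mk4Frame Y.eD
    (fun i => by
      match i with
      | 0 => rfl
      | 1 => rfl
      | 2 => rfl
      | 3 => rfl)
    (fun k => by
      have h := Y.rel01x (W := Y.U 0 ⊓ Y.U 1) inf_le_left inf_le_right
      match k with
      | 0 => simp [eD]
      | 1 => simp [eD]
      | 2 => simp [eD, h]
      | 3 => simp [eD, h])
    (fun k => by
      have h := Y.rel02x (W := Y.U 0 ⊓ Y.U 2) inf_le_left inf_le_right
      match k with
      | 0 => simp [eD, h]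
      | 1 => simp [eD, h]
      | 2 => simp [eD]
      | 3 => simp [eD])
    (fun k => by
      have h := Y.rel03x (W := Y.U 0 ⊓ Y.U 3) inf_le_left inf_le_right
      match k with
      | 0 => simp [eD, h]
      | 1 => simp [eD, h]
      | 2 => simp [eD]
      | 3 => simp [eD])
    (fun k => by
      have h := Y.rel12x (W := Y.U 1 ⊓ Y.U 2) inf_le_left inf_le_right
      match k with
      | 0 => simp [eD, h]
      | 1 => simp [eD, h]
      | 2 => simp [eD]
      | 3 => simp [eD])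
    (fun k => by
      have h := Y.rel13x (W := Y.U 1 ⊓ Y.U 3) inf_le_left inf_le_right
      match k with
      | 0 => simp [eD, h]
      | 1 => simp [eD, h]
      | 2 => simp [eD]
      | 3 => simp [eD])
    (fun k => by
      have h := Y.rel23x (W := Y.U 2 ⊓ Y.U 3) inf_le_left inf_le_right
      match k with
      | 0 => simp [eD, h]
      | 1 => simp [eD, h]
      | 2 => simp [eD]
      | 3 => simp [eD])

/-- the frame of the class `C = B + 2 D` -/
def frC : Frame Y.U :=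
  mk4Frame Y.eC
    (fun i => by
      match i with
      | 0 => rfl
      | 1 => rfl
      | 2 => rfl
      | 3 => rfl)
    (fun k => by
      have hx := Y.rel01x (W := Y.U 0 ⊓ Y.U 1) inf_le_left inf_le_right
      have hy := Y.rel01y (W := Y.U 0 ⊓ Y.U 1) inf_le_left inf_le_right
      match k with
      | 0 => simp [eC, hy]
      | 1 => simp [eC]
      | 2 => simp [eC, hy]
      | 3 => simp [eC, ← hx, mul_comm])
    (fun k => by
      have hx := Y.rel02x (W := Y.U 0 ⊓ Y.U 2) inf_le_left inf_le_right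
      have hy := Y.rel02y (W := Y.U 0 ⊓ Y.U 2) inf_le_left inf_le_right
      match k with
      | 0 => simp [eC]
      | 1 =>
        simp only [eC, Matrix.cons_val, Matrix.cons_val_one, map_mul, map_pow, map_one]
        rw [hy]
        generalize rO _ (Y.x 0) = z at *
        generalize rO _ (Y.x 2) = w at *
        generalize rO _ (Y.y 0) = p at *
        linear_combination (p * (z * w + 1)) * hx
      | 2 => simp [eC]
      | 3 => simp [eC, hy])
    (fun k => by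
      have hx := Y.rel03x (W := Y.U 0 ⊓ Y.U 3) inf_le_left inf_le_right
      have hy := Y.rel03y (W := Y.U 0 ⊓ Y.U 3) inf_le_left inf_le_right
      match k with
      | 0 => simp [eC, hy]
      | 1 =>
        simp only [eC, Matrix.cons_val, Matrix.cons_val_one, map_mul, map_pow, map_one]
        generalize rO _ (Y.x 0) = z at *
        generalize rO _ (Y.x 3) = w at *
        generalize rO _ (Y.y 0) = p at *
        linear_combination (p * (z * w + 1)) * hx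
      | 2 => simp [eC, hy]
      | 3 => simp [eC])
    (fun k => by
      have hx := Y.rel12x (W := Y.U 1 ⊓ Y.U 2) inf_le_left inf_le_right
      have hy := Y.rel12y (W := Y.U 1 ⊓ Y.U 2) inf_le_left inf_le_right
      match k with
      | 0 => simp [eC]
      | 1 => simp [eC, hy]
      | 2 => simp [eC]
      | 3 =>
        simp only [eC, Matrix.cons_val, map_mul, map_pow, map_one]
        generalize rO _ (Y.x 1) = z at *
        generalize rO _ (Y.x 2) = w at *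
        generalize rO _ (Y.y 1) = p' at *
        generalize rO _ (Y.y 2) = q at *
        linear_combination z ^ 2 * hy - (p' * q * (z * w + 1)) * hx)
    (fun k => by
      have hx := Y.rel13x (W := Y.U 1 ⊓ Y.U 3) inf_le_left inf_le_right
      have hy := Y.rel13y (W := Y.U 1 ⊓ Y.U 3) inf_le_left inf_le_right
      match k with
      | 0 => simp [eC, hy]
      | 1 =>
        simp only [eC, Matrix.cons_val, Matrix.cons_val_one, map_mul, map_pow, map_one]
        generalize rO _ (Y.x 1) = z at *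
        generalize rO _ (Y.x 3) = w at *
        linear_combination (z * w + 1) * hx
      | 2 => simp [eC, hy]
      | 3 => simp [eC])
    (fun k => by
      have hx := Y.rel23x (W := Y.U 2 ⊓ Y.U 3) inf_le_left inf_le_right
      have hy := Y.rel23y (W := Y.U 2 ⊓ Y.U 3) inf_le_left inf_le_right
      match k with
      | 0 => simp [eC, hy]
      | 1 => simp [eC, ← hx, mul_comm]
      | 2 => simp [eC, hy]
      | 3 => simp [eC])

@[simp] theorem frD_e (i j : Fin 4) : Y.frD.e i j = Y.eD i j := rfl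

@[simp] theorem frC_e (i j : Fin 4) : Y.frC.e i j = Y.eC i j := rfl

/-- the cocycle of the fibre class `D` -/
def cD : Coc Y.U := Y.frD.coc

/-- the cocycle of the class `C = B + 2 D` -/
def cC : Coc Y.U := Y.frC.coc

/-- the cocycle of the class `B` of `w` -/
def cB : Coc Y.U := Y.cC * (Y.cD ^ 2)⁻¹

@[simp] theorem cD_v (i j : Fin 4) {W : X.Opens} (hi : W ≤ Y.U i) (hj : W ≤ Y.U j) :
    Y.cD.v i j hi hj = rO hi (Y.eD i j) := Y.frD.coc_v i j hi hj

@[simp] theorem cC_v (i j : Fin 4) {W : X.Opens} (hi : W ≤ Y.U i) (hj : W ≤ Y.U j) :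
    Y.cC.v i j hi hj = rO hi (Y.eC i j) := Y.frC.coc_v i j hi hj

theorem cB_mul : Y.cB * Y.cD ^ 2 = Y.cC := by
  rw [cB, inv_mul_cancel_right]

theorem cB_v_mul (i j : Fin 4) {W : X.Opens} (hi : W ≤ Y.U i) (hj : W ≤ Y.U j) :
    Y.cB.v i j hi hj * rO hi (Y.eD i j) ^ 2 = rO hi (Y.eC i j) := by
  have h := congrArg (fun g : Coc Y.U => g.v i j hi hj) Y.cB_mul
  simpa [pow_two] using h

theorem eD_swap (i j : Fin 4) {W : X.Opens} (hi : W ≤ Y.U i) (hj : W ≤ Y.U j) :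
    rO hi (Y.eD i j) * rO hj (Y.eD j i) = 1 := Y.frD.mul_swap i j hi hj

theorem cB_v_eq (i j : Fin 4) {W : X.Opens} (hi : W ≤ Y.U i) (hj : W ≤ Y.U j) :
    Y.cB.v i j hi hj = rO hi (Y.eC i j) * rO hj (Y.eD j i) ^ 2 := by
  rw [← Y.cB_v_mul i j hi hj, mul_assoc, ← mul_pow, eD_swap, one_pow, mul_one]

/-- the values of the cocycle of `B` -/
def vB : ∀ (i j : Fin 4) {W : X.Opens} (_ : W ≤ Y.U i) (_ : W ≤ Y.U j), Γ(X, W)
  | 0, 1, _, hi, _ => rO hi (Y.y 0)
  | 0, 2, _, _, hj => rO hj (Y.x 2) ^ 2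
  | 0, 3, _, hi, _ => rO hi (Y.y 0)
  | 1, 0, _, hi, _ => rO hi (Y.y 1)
  | 1, 2, _, hi, hj => rO hi (Y.y 1) * rO hj (Y.x 2) ^ 2
  | 2, 0, _, _, hj => rO hj (Y.x 0) ^ 2
  | 2, 1, _, hi, _ => rO hi (Y.y 2)
  | 2, 3, _, hi, _ => rO hi (Y.y 2)
  | 3, 0, _, hi, hj => rO hi (Y.y 3) * rO hj (Y.x 0) ^ 2
  | 3, 2, _, hi, _ => rO hi (Y.y 3)
  | _, _, _, _, _ => 1

theorem cB_v (i j : Fin 4) {W : X.Opens} (hi : W ≤ Y.U i) (hj : W ≤ Y.U j) :
    Y.cB.v i j hi hj = Y.vB i j hi hj := by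
  rw [cB_v_eq]
  match i, j with
  | 0, 0 => simp [vB, eC, eD]
  | 0, 1 => simp [vB, eC, eD]
  | 0, 2 => simp [vB, eC, eD]
  | 0, 3 =>
    have hx := Y.rel03x hi hj
    simp only [vB, eC, eD, Matrix.cons_val, Matrix.cons_val_zero, map_mul, map_pow]
    linear_combination (rO hi (Y.y 0) * (rO hi (Y.x 0) * rO hj (Y.x 3) + 1)) * hx
  | 1, 0 => simp [vB, eC, eD]
  | 1, 1 => simp [vB, eC, eD]
  | 1, 2 => simp [vB, eC, eD]
  | 1, 3 =>
    have hx := Y.rel13x hi hj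
    simp only [vB, eC, eD, Matrix.cons_val, Matrix.cons_val_one, map_mul, map_pow]
    linear_combination (rO hi (Y.x 1) * rO hj (Y.x 3) + 1) * hx
  | 2, 0 => simp [vB, eC, eD]
  | 2, 1 =>
    have hx := Y.rel12x hj hi
    simp only [vB, eC, eD, Matrix.cons_val, Matrix.cons_val_one, map_mul, map_pow]
    linear_combination (rO hi (Y.y 2) * (rO hj (Y.x 1) * rO hi (Y.x 2) + 1)) * hx
  | 2, 2 => simp [vB, eC, eD]
  | 2, 3 => simp [vB, eC, eD]
  | 3, 0 => simp [vB, eC, eD]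
  | 3, 1 =>
    have hx := Y.rel13x hj hi
    simp only [vB, eC, eD, Matrix.cons_val, Matrix.cons_val_one, map_mul, map_pow]
    linear_combination (rO hj (Y.x 1) * rO hi (Y.x 3) + 1) * hx
  | 3, 2 => simp [vB, eC, eD]
  | 3, 3 => simp [vB, eC, eD]

/-! ### sections -/

/-- the section `t` of `D` -/
def fT (i : Fin 4) : Γ(X, Y.U i) := Y.eD i 0

/-- the section `x` of `D` -/
def fX (i : Fin 4) : Γ(X, Y.U i) := Y.eD i 2

/-- the section `z` of `C` -/
def fZ (i : Fin 4) : Γ(X, Y.U i) := Y.eC i 0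

/-- the section `w t ^ 2` of `C` -/
def fWTT (i : Fin 4) : Γ(X, Y.U i) := Y.eC i 1

/-- the section `w x ^ 2` of `C` -/
def fWXX (i : Fin 4) : Γ(X, Y.U i) := Y.eC i 3

/-- the section `y` of `C` -/
def fY (i : Fin 4) : Γ(X, Y.U i) := Y.e i

/-- the section `w` of `B` -/
def fW : ∀ i : Fin 4, Γ(X, Y.U i)
  | 0 => Y.y 0
  | 1 => 1
  | 2 => Y.y 2
  | 3 => 1

theorem isSec_fT : IsSec Y.cD Y.fT := Y.frD.isSec 0

theorem isSec_fX : IsSec Y.cD Y.fX := Y.frD.isSec 2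

theorem isSec_fZ : IsSec Y.cC Y.fZ := Y.frC.isSec 0

theorem isSec_fWTT : IsSec Y.cC Y.fWTT := Y.frC.isSec 1

theorem isSec_fWXX : IsSec Y.cC Y.fWXX := Y.frC.isSec 3

theorem isSec_fY : IsSec Y.cC Y.fY := by
  apply isSec4
  · have h := Y.rel01e (W := Y.U 0 ⊓ Y.U 1) inf_le_left inf_le_right
    have hy := Y.rel01y (W := Y.U 0 ⊓ Y.U 1) inf_le_left inf_le_right
    simp only [cC_v, fY, eC, Matrix.cons_val, Matrix.cons_val_one]
    linear_combination rO _ (Y.y 0) * h - rO _ (Y.e 0) * hy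
  · have h := Y.rel02e (W := Y.U 0 ⊓ Y.U 2) inf_le_left inf_le_right
    simp [fY, eC, h]
  · have h := Y.rel03e (W := Y.U 0 ⊓ Y.U 3) inf_le_left inf_le_right
    simp [fY, eC, h]
  · have h := Y.rel12e (W := Y.U 1 ⊓ Y.U 2) inf_le_left inf_le_right
    have hy := Y.rel12y (W := Y.U 1 ⊓ Y.U 2) inf_le_left inf_le_right
    simp only [cC_v, fY, eC, Matrix.cons_val]
    linear_combination rO _ (Y.y 1) * h - rO _ (Y.e 1) * hy
  · have h := Y.rel13e (W := Y.U 1 ⊓ Y.U 3) inf_le_left inf_le_right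
    simp [fY, eC, h]
  · have h := Y.rel23e (W := Y.U 2 ⊓ Y.U 3) inf_le_left inf_le_right
    have hy := Y.rel23y (W := Y.U 2 ⊓ Y.U 3) inf_le_left inf_le_right
    simp only [cC_v, fY, eC, Matrix.cons_val]
    linear_combination rO _ (Y.y 2) * h - rO _ (Y.e 2) * hy

theorem isSec_fW : IsSec Y.cB Y.fW := by
  apply isSec4
  · simp [cB_v, vB, fW]
  · have hx := Y.rel02x (W := Y.U 0 ⊓ Y.U 2) inf_le_left inf_le_right
    have hy := Y.rel02y (W := Y.U 0 ⊓ Y.U 2) inf_le_left inf_le_right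
    simp only [cB_v, vB, fW]
    rw [hy]
    linear_combination (- rO _ (Y.y 0) * (rO _ (Y.x 0) * rO _ (Y.x 2) + 1)) * hx
  · simp [cB_v, vB, fW]
  · have hy := Y.rel12y (W := Y.U 1 ⊓ Y.U 2) inf_le_left inf_le_right
    simp only [cB_v, vB, fW, map_one]
    linear_combination - hy
  · simp [cB_v, vB, fW]
  · simp [cB_v, vB, fW]

end XCharts

end

end Orl
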