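import Pool.Agent.Work.MP_a6e60d_ag.Vb.Seq
import Pool.Agent.Work.MP_a6e60d_ag.Vb.TwMtw

/-!
# MP_a6e60d_ag: `O, O(D), E, E(D)` generate all the line bundles `O(- j B + n D)`
-/

open CategoryTheory Limits TopologicalSpace AlgebraicGeometry Opposite Pretriangulated
open DerivedCategory

attribute [-instance] CategoryTheory.catToReflQuiver

set_option linter.unusedSimpArgs false

universe w v u

namespace Orl

open Fdim Fdim.Coc Orl.Vb

/-! ### triangulated subcategories and short exact sequences -/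

section abs

variable {A : Type u} [Category.{v} A] [Abelian A] [HasDerivedCategory.{w} A]
  (P : ObjectProperty (DerivedCategory A)) [P.IsTriangulated] [P.IsClosedUnderIsomorphisms]

/-- the objects of the abelian category which belong to `P` -/
def Sg (M : A) : Prop := P ((singleFunctor A 0).obj M)

variable {P}

omit [P.IsTriangulated] in
theorem Sg.of_iso {M N : A} (h : Sg P M) (e : M ≅ N) : Sg P N :=
  P.prop_of_iso ((singleFunctor A 0).mapIso e) h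

theorem Sg.X₁ {S : ShortComplex A} (hS : S.ShortExact) (h₂ : Sg P S.X₂) (h₃ : Sg P S.X₃) :
    Sg P S.X₁ :=
  P.ext_of_isTriangulatedClosed₁ _ hS.singleTriangle_distinguished h₂ h₃

theorem Sg.X₂ {S : ShortComplex A} (hS : S.ShortExact) (h₁ : Sg P S.X₁) (h₃ : Sg P S.X₃) :
    Sg P S.X₂ :=
  P.ext_of_isTriangulatedClosed₂ _ hS.singleTriangle_distinguished h₁ h₃

theorem Sg.X₃ {S : ShortComplex A} (hS : S.ShortExact) (h₁ : Sg P S.X₁) (h₂ : Sg P S.X₂) :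
    Sg P S.X₃ :=
  P.ext_of_isTriangulatedClosed₃ _ hS.singleTriangle_distinguished h₁ h₂

theorem Sg.biprod {M N : A} (hM : Sg P M) (hN : Sg P N) : Sg P (M ⊞ N) :=
  Sg.X₂ (ShortComplex.Splitting.ofHasBinaryBiproduct M N).shortExact hM hN

/-- a two-sided recursion of order two -/
theorem int_rec_two {p : ℤ → Prop} (h0 : p 0) (h1 : p 1) (hup : ∀ n, p n → p (n + 1) → p (n + 2))
    (hdown : ∀ n, p (n + 1) → p (n + 2) → p n) : ∀ n, p n := by
  have key : ∀ n : ℤ, p n ∧ p (n + 1) := by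
    intro n
    induction n using Int.induction_on with
    | zero => exact ⟨h0, by simpa using h1⟩
    | succ n ih => exact ⟨ih.2, by
        have := hup _ ih.1 ih.2
        rwa [show (n : ℤ) + 1 + 1 = n + 2 by ring]⟩
    | pred n ih =>
      have h2 : p (-(n : ℤ) - 1) := hdown _ (by rw [sub_add_cancel]; exact ih.1) (by
        rw [show -(n : ℤ) - 1 + 2 = -(n : ℤ) + 1 by ring]
        exact ih.2)
      exact ⟨h2, by rw [sub_add_cancel]; exact ih.1⟩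
  exact fun n => (key n).1

end abs

namespace XCharts

variable {A : CommRingCat.{0}} {a : A} {c : Fin 5 → A} {X : Scheme.{0}} {π : X ⟶ Spec A}
  (Y : XCharts A a c π) [HasDerivedCategory.{w} X.Modules]
  {P : ObjectProperty (DerivedCategory X.Modules)} [P.IsTriangulated]
  [P.IsClosedUnderIsomorphisms]

omit [HasDerivedCategory X.Modules] in
/-- the Koszul sequence of the sections `x, t` of the fibre class -/
theorem exists_koszul (M : X.Modules) : ∃ S : ShortComplex X.Modules, S.ShortExact ∧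
      Nonempty (S.X₁ ≅ (tw (Y.cD ^ (-2 : ℤ))).obj M) ∧
      Nonempty (S.X₂ ≅ (tw (Y.cD ^ (-1 : ℤ))).obj M ⊞ (tw (Y.cD ^ (-1 : ℤ))).obj M) ∧
      Nonempty (S.X₃ ≅ M) := by
  refine koszul Y.cover ⟨Y.fT, Y.isSec_fT⟩ ⟨Y.fX, Y.isSec_fX⟩ (fun i => ?_) M
  match i with
  | 0 => exact Or.inl (by simp [fT, eD])
  | 1 => exact Or.inl (by simp [fT, eD])
  | 2 => exact Or.inr (by simp [fX, eD])
  | 3 => exact Or.inr (by simp [fX, eD])

/-- a family of twists by multiples of the fibre class belongs to `P` if two consecutive members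
do -/
theorem sg_family (F : ℤ → X.Modules)
    (hF : ∀ r n : ℤ, Nonempty ((tw (Y.cD ^ r)).obj (F n) ≅ F (r + n))) (h0 : Sg P (F 0))
    (h1 : Sg P (F 1)) : ∀ n, Sg P (F n) := by
  refine int_rec_two h0 h1 (fun n hn hn' => ?_) (fun n hn hn' => ?_)
  · obtain ⟨S, hS, ⟨e1⟩, ⟨e2⟩, ⟨e3⟩⟩ := Y.exists_koszul (F (n + 2))
    obtain ⟨f1⟩ := hF (-2) (n + 2)
    obtain ⟨f2⟩ := hF (-1) (n + 2)
    rw [show (-2 : ℤ) + (n + 2) = n by ring] at f1
    rw [show (-1 : ℤ) + (n + 2) = n + 1 by ring] at f2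
    exact (Sg.X₃ hS (hn.of_iso (e1 ≪≫ f1).symm)
      ((Sg.biprod (hn'.of_iso f2.symm) (hn'.of_iso f2.symm)).of_iso e2.symm)).of_iso e3
  · obtain ⟨S, hS, ⟨e1⟩, ⟨e2⟩, ⟨e3⟩⟩ := Y.exists_koszul (F (n + 2))
    obtain ⟨f1⟩ := hF (-2) (n + 2)
    obtain ⟨f2⟩ := hF (-1) (n + 2)
    rw [show (-2 : ℤ) + (n + 2) = n by ring] at f1
    rw [show (-1 : ℤ) + (n + 2) = n + 1 by ring] at f2
    exact (Sg.X₁ hS ((Sg.biprod (hn.of_iso f2.symm) (hn.of_iso f2.symm)).of_iso e2.symm)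
      (hn'.of_iso e3.symm)).of_iso (e1 ≪≫ f1)

theorem sg_LL {k : Coc Y.U} (h0 : Sg P (Y.LL k)) (h1 : Sg P (Y.LL (k * Y.cD))) (n : ℤ) :
    Sg P (Y.LL (k * Y.cD ^ n)) := by
  refine Y.sg_family (fun n => Y.LL (k * Y.cD ^ n)) (fun r n => ?_) ?_ ?_ n
  · exact ⟨(mulIso (by rw [zpow_add, mul_left_comm])).app (OO X)⟩
  · rwa [zpow_zero, mul_one]
  · rwa [zpow_one]

theorem sg_EE {k : Coc Y.U} (h0 : Sg P (Y.EE k)) (h1 : Sg P (Y.EE (k * Y.cD))) (n : ℤ) :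
    Sg P (Y.EE (k * Y.cD ^ n)) := by
  refine Y.sg_family (fun n => Y.EE (k * Y.cD ^ n)) (fun r n => ?_) ?_ ?_ n
  · refine ⟨(mtwSmulIso (Y.cD ^ r) ((k * Y.cD ^ n) • Y.cE)).app (OO X) ≪≫ eqToIso ?_⟩
    change (mtw _).obj (OO X) = (mtw _).obj (OO X)
    rw [smul_smul, zpow_add, mul_left_comm]
  · rwa [zpow_zero, mul_one]
  · rwa [zpow_one]

/-- **generation**: a triangulated subcategory which contains `O, O(D), E, E(D)` contains all
`O(- j B + n D)`, `E(- j B + n D)`, `j ≥ 0` -/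
theorem sg_all (h0 : Sg P (Y.LL 1)) (h1 : Sg P (Y.LL Y.cD)) (h2 : Sg P (Y.EE 1))
    (h3 : Sg P (Y.EE Y.cD)) (j : ℕ) : ∀ n : ℤ,
      Sg P (Y.LL ((Y.cB ^ j)⁻¹ * Y.cD ^ n)) ∧ Sg P (Y.EE ((Y.cB ^ j)⁻¹ * Y.cD ^ n)) := by
  induction j with
  | zero =>
    intro n
    rw [pow_zero, inv_one]
    exact ⟨Y.sg_LL h0 (by rwa [one_mul]) n, Y.sg_EE h2 (by rwa [one_mul]) n⟩
  | succ j ih =>
    have hL : ∀ n : ℤ, Sg P (Y.LL ((Y.cB ^ (j + 1))⁻¹ * Y.cD ^ n)) := by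
      intro n
      have hS := Y.seqK_exact ((Y.cB ^ j)⁻¹ * Y.cD ^ (n + 2)) ((Y.cB ^ j)⁻¹ * Y.cD ^ n)
        ((Y.cB ^ (j + 1))⁻¹ * Y.cD ^ n) (by rw [mul_assoc, zpow_add, zpow_ofNat]) (by
          rw [← Y.cB_mul, zpow_add, zpow_ofNat, pow_succ, mul_inv]
          calc _ = (Y.cB ^ j)⁻¹ * (Y.cB⁻¹ * Y.cB) * (Y.cD ^ n * Y.cD ^ 2) := by
                simp only [mul_assoc, mul_comm, mul_left_comm]
            _ = _ := by rw [inv_mul_cancel, mul_one])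
      refine Sg.X₁ hS ?_ (ih (n + 2)).2
      exact Sg.biprod (ih n).1 (Sg.biprod (ih (n + 2)).1 (ih (n + 2)).1)
    intro n
    refine ⟨hL n, ?_⟩
    have hS := Y.seqE_exact ((Y.cB ^ (j + 1))⁻¹ * Y.cD ^ n) ((Y.cB ^ j)⁻¹ * Y.cD ^ n) (by
      rw [pow_succ, mul_inv]
      calc _ = (Y.cB ^ j)⁻¹ * (Y.cB⁻¹ * Y.cB) * Y.cD ^ n := by
            simp only [mul_assoc, mul_comm, mul_left_comm]
        _ = _ := by rw [inv_mul_cancel, mul_one])
    exact Sg.X₂ hS (hL n) (ih n).1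

/-- the negative powers of the ample line bundle `O(B + 3 D)` belong to `P` -/
theorem sg_ample (h0 : Sg P (Y.LL 1)) (h1 : Sg P (Y.LL Y.cD)) (h2 : Sg P (Y.EE 1))
    (h3 : Sg P (Y.EE Y.cD)) (n : ℕ) :
    P ((singleFunctor X.Modules 0).obj
      ((tw ((Y.cB * Y.cD ^ 3) ^ (-(n : ℤ)))).obj (OO X))) := by
  have h := (Y.sg_all h0 h1 h2 h3 n (3 * (-(n : ℤ)))).1
  have e : (Y.cB * Y.cD ^ 3) ^ (-(n : ℤ)) = (Y.cB ^ n)⁻¹ * Y.cD ^ (3 * (-(n : ℤ))) := by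
    rw [mul_zpow, zpow_neg, zpow_natCast, ← zpow_natCast Y.cD 3, ← zpow_mul]
    rfl
  rw [e]
  exact h

end XCharts

end Orl
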