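import Pool.Agent.Work.MP_a6e60d_ag.Vb.Mtw

/-!
# MP_a6e60d_ag: the twist by a cocycle of matrices as an exact functor
-/

open CategoryTheory Limits TopologicalSpace AlgebraicGeometry Opposite Matrix

attribute [-instance] CategoryTheory.catToReflQuiver

universe u

namespace Orl.Vb

open Fdim

noncomputable section

variable {X : Scheme.{u}} {ι : Type u} {U : ι → X.Opens} {m n l : Type} [Fintype m]
  [DecidableEq m] [Fintype n] [DecidableEq n] [Fintype l] [DecidableEq l]

namespace MCoc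

/-- the twist of a module, as an object -/
def twO (g : MCoc U m) (M : X.Modules) : X.Modules := (data g M).md

variable {g : MCoc U m} {M N : X.Modules}

/-- the value of a section of the twist with index `i` on a smaller open subset -/
def oev {V : X.Opens} (s : Γ(twO g M, V)) (i : ι) {W : X.Opens} (hV : W ≤ V)
    (hi : W ≤ U i) : m → Γ(M, W) :=
  S.ev (g := g) (M := M) (V := V) s i hV hi

/-- constructor of sections of the twist -/
def omk {V : X.Opens} (c : ∀ i, m → Γ(M, V ⊓ U i))
    (h : ∀ i j, ∀ W : X.Opens, ∀ (hV : W ≤ V) (hi : W ≤ U i) (hj : W ≤ U j),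
      rsV M (le_inf hV hi) (c i) = mv (g.v i j hi hj) (rsV M (le_inf hV hj) (c j))) :
    Γ(twO g M, V) :=
  (S.mk' c h : S g M V)

theorem oev_omk {V : X.Opens} (c : ∀ i, m → Γ(M, V ⊓ U i))
    (h : ∀ i j, ∀ W : X.Opens, ∀ (hV : W ≤ V) (hi : W ≤ U i) (hj : W ≤ U j),
      rsV M (le_inf hV hi) (c i) = mv (g.v i j hi hj) (rsV M (le_inf hV hj) (c j))) (i : ι)
    {W : X.Opens} (hV : W ≤ V) (hi : W ≤ U i) :
    oev (omk (g := g) c h) i hV hi = rsV M (le_inf hV hi) (c i) := rfl

theorem rs_oev {V : X.Opens} (s : Γ(twO g M, V)) (i : ι) {W W' : X.Opens}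
    (hV : W ≤ V) (hi : W ≤ U i) (h : W' ≤ W) :
    rsV M h (oev s i hV hi) = oev s i (h.trans hV) (h.trans hi) :=
  S.rsV_ev _ _ _ _ _

theorem oev_eq {V : X.Opens} (s : Γ(twO g M, V)) (i j : ι) {W : X.Opens} (hV : W ≤ V)
    (hi : W ≤ U i) (hj : W ≤ U j) : oev s i hV hi = mv (g.v i j hi hj) (oev s j hV hj) :=
  S.ev_eq _ _ _ _ _ _

theorem oev_rs {V V' : X.Opens} (h : V' ≤ V) (s : Γ(twO g M, V)) (i : ι)
    {W : X.Opens} (hV : W ≤ V') (hi : W ≤ U i) :
    oev (rs (twO g M) h s) i hV hi = oev s i (hV.trans h) hi :=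
  ev_resS h _ i hV hi

theorem oev_add {V : X.Opens} (s t : Γ(twO g M, V)) (i : ι) {W : X.Opens}
    (hV : W ≤ V) (hi : W ≤ U i) : oev (s + t) i hV hi = oev s i hV hi + oev t i hV hi :=
  S.ev_add (g := g) (M := M) (V := V) s t i hV hi

theorem oev_zero {V : X.Opens} (i : ι) {W : X.Opens}
    (hV : W ≤ V) (hi : W ≤ U i) : oev (0 : Γ(twO g M, V)) i hV hi = 0 :=
  S.ev_zero (g := g) (M := M) (V := V) i hV hi

theorem oev_smul {V : X.Opens} (r : Γ(X, V)) (s : Γ(twO g M, V)) (i : ι)
    {W : X.Opens} (hV : W ≤ V) (hi : W ≤ U i) :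
    oev (r • s) i hV hi = rO hV r • oev s i hV hi :=
  S.ev_smul (g := g) (M := M) (V := V) r s i hV hi

theorem oext {V : X.Opens} {s t : Γ(twO g M, V)}
    (h : ∀ i, oev s i (inf_le_left : V ⊓ U i ≤ V) inf_le_right =
      oev t i (inf_le_left : V ⊓ U i ≤ V) inf_le_right) : s = t :=
  S.ext' (g := g) (M := M) (V := V) h

/-- auxiliary: sections of a lift -/
def oliftS (g : MCoc U m) (F : ∀ (i : ι) (W : X.Opens), W ≤ U i → Γ(N, W) → (m → Γ(M, W)))
    (ha : ∀ i W (hi : W ≤ U i) s t, F i W hi (s + t) = F i W hi s + F i W hi t)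
    (hr : ∀ i W W' (hi : W ≤ U i) (h : W' ≤ W) s,
      rsV M h (F i W hi s) = F i W' (h.trans hi) (rs N h s))
    (hc : ∀ i j W (hi : W ≤ U i) (hj : W ≤ U j) s,
      F i W hi s = mv (g.v i j hi hj) (F j W hj s))
    (V : X.Opens) : Γ(N, V) →+ Γ(twO g M, V) :=
  AddMonoidHom.mk' (fun s => omk (fun i => F i (V ⊓ U i) inf_le_right (rs N inf_le_left s)) (by
      intro i j W hV hi hj
      rw [hr, hr, rs_rs, rs_rs]
      exact hc i j W hi hj _))
    (fun s t => oext (fun i => by
      rw [oev_omk, oev_add, oev_omk, oev_omk, map_add, ha, rsV_add]))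

theorem oev_oliftS (F : ∀ (i : ι) (W : X.Opens), W ≤ U i → Γ(N, W) → (m → Γ(M, W)))
    (ha : ∀ i W (hi : W ≤ U i) s t, F i W hi (s + t) = F i W hi s + F i W hi t)
    (hr : ∀ i W W' (hi : W ≤ U i) (h : W' ≤ W) s,
      rsV M h (F i W hi s) = F i W' (h.trans hi) (rs N h s))
    (hc : ∀ i j W (hi : W ≤ U i) (hj : W ≤ U j) s,
      F i W hi s = mv (g.v i j hi hj) (F j W hj s))
    {V : X.Opens} (s : Γ(N, V)) (i : ι) {W : X.Opens} (hV : W ≤ V) (hi : W ≤ U i) :
    oev (oliftS g F ha hr hc V s) i hV hi = F i W hi (rs N hV s) := by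
  rw [oliftS, AddMonoidHom.mk'_apply, oev_omk, hr, rs_rs]

/-- a morphism into a twist from a compatible family of local morphisms -/
def lift (g : MCoc U m) (F : ∀ (i : ι) (W : X.Opens), W ≤ U i → Γ(N, W) → (m → Γ(M, W)))
    (ha : ∀ i W (hi : W ≤ U i) s t, F i W hi (s + t) = F i W hi s + F i W hi t)
    (hl : ∀ i W (hi : W ≤ U i) (r : Γ(X, W)) s, F i W hi (r • s) = r • F i W hi s)
    (hr : ∀ i W W' (hi : W ≤ U i) (h : W' ≤ W) s,
      rsV M h (F i W hi s) = F i W' (h.trans hi) (rs N h s))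
    (hc : ∀ i j W (hi : W ≤ U i) (hj : W ≤ U j) s,
      F i W hi s = mv (g.v i j hi hj) (F j W hj s)) :
    N ⟶ twO g M :=
  homMk (fun V => oliftS g F ha hr hc V)
    (fun V r s => oext (fun i => by
      rw [oev_oliftS, oev_smul, oev_oliftS, rs_smul, hl]))
    (fun {V W} h s => oext (fun i => by
      rw [oev_oliftS, oev_rs, oev_oliftS, rs_rs]))

theorem oev_lift (F : ∀ (i : ι) (W : X.Opens), W ≤ U i → Γ(N, W) → (m → Γ(M, W)))
    (ha : ∀ i W (hi : W ≤ U i) s t, F i W hi (s + t) = F i W hi s + F i W hi t)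
    (hl : ∀ i W (hi : W ≤ U i) (r : Γ(X, W)) s, F i W hi (r • s) = r • F i W hi s)
    (hr : ∀ i W W' (hi : W ≤ U i) (h : W' ≤ W) s,
      rsV M h (F i W hi s) = F i W' (h.trans hi) (rs N h s))
    (hc : ∀ i j W (hi : W ≤ U i) (hj : W ≤ U j) s,
      F i W hi s = mv (g.v i j hi hj) (F j W hj s))
    {V : X.Opens} (s : Γ(N, V)) (i : ι) {W : X.Opens} (hV : W ≤ V) (hi : W ≤ U i) :
    oev (ap (lift g F ha hl hr hc) V s) i hV hi = F i W hi (rs N hV s) :=
  oev_oliftS F ha hr hc s i hV hi

/-- the twist of a morphism -/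
def twM (g : MCoc U m) (φ : M ⟶ N) : twO g M ⟶ twO g N :=
  lift g (fun i W hi s => apV φ W (oev s i le_rfl hi))
    (fun i W hi s t => by
      rw [oev_add]
      ext k
      simp [apV])
    (fun i W hi r s => by
      rw [oev_smul, rO_self]
      ext k
      simp [apV])
    (fun i W W' hi h s => by
      rw [rsV_apV, rs_oev, oev_rs])
    (fun i j W hi hj s => by
      rw [oev_eq s i j le_rfl hi hj, apV_mv])

theorem oev_map (φ : M ⟶ N) {V : X.Opens} (s : Γ(twO g M, V)) (i : ι)
    {W : X.Opens} (hV : W ≤ V) (hi : W ≤ U i) :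
    oev (ap (twM g φ) V s) i hV hi = apV φ W (oev s i hV hi) := by
  rw [twM, oev_lift, oev_rs]

/-- a section over a small open subset with a given component -/
def osec {W : X.Opens} (i : ι) (hi : W ≤ U i) (c : m → Γ(M, W)) : Γ(twO g M, W) :=
  omk (fun j => mv (g.v j i inf_le_right (inf_le_left.trans hi)) (rsV M inf_le_left c))
    (by
      intro j k W' hV hj hk
      rw [rsV_mv, rsV_mv, rsV_rsV, rsV_rsV, g.rM_v, g.rM_v, mv_mv, g.v_v])

theorem oev_osec {W : X.Opens} (i : ι) (hi : W ≤ U i) (c : m → Γ(M, W)) (j : ι)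
    {W' : X.Opens} (hW : W' ≤ W) (hj : W' ≤ U j) :
    oev (osec (g := g) i hi c) j hW hj =
      mv (g.v j i hj (hW.trans hi)) (rsV M hW c) := by
  rw [osec, oev_omk, rsV_mv, g.rM_v, rsV_rsV]

/-- over a small open subset a section of the twist is determined by its component -/
theorem oext_small {W : X.Opens} {s t : Γ(twO g M, W)} (i : ι) (hi : W ≤ U i)
    (h : oev s i le_rfl hi = oev t i le_rfl hi) : s = t := by
  apply oext
  intro j
  rw [oev_eq s j i _ _ (inf_le_left.trans hi), oev_eq t j i _ _ (inf_le_left.trans hi),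
    ← rs_oev s i le_rfl hi inf_le_left, ← rs_oev t i le_rfl hi inf_le_left, h]

/-- the component of a section over a small open subset, as a linear isomorphism -/
def oequiv (g : MCoc U m) (M : X.Modules) (i : ι) {W : X.Opens} (hi : W ≤ U i) :
    Γ(twO g M, W) ≃ₗ[Γ(X, W)] (m → Γ(M, W)) where
  toFun s := oev s i le_rfl hi
  map_add' s t := oev_add s t i le_rfl hi
  map_smul' r s := by
    rw [oev_smul, rO_self]
    rfl
  invFun c := osec i hi c
  left_inv s := oext_small i hi (by rw [oev_osec, g.v_self, mv_one, rsV_self])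
  right_inv c := by
    change oev (osec i hi c) i le_rfl hi = c
    rw [oev_osec, g.v_self, mv_one, rsV_self]

@[simp] lemma oequiv_apply (i : ι) {W : X.Opens} (hi : W ≤ U i) (s : Γ(twO g M, W)) :
    oequiv g M i hi s = oev s i le_rfl hi := rfl

lemma oequiv_symm_apply (i : ι) {W : X.Opens} (hi : W ≤ U i) (c : m → Γ(M, W)) :
    (oequiv g M i hi).symm c = osec i hi c := rfl

end MCoc

open MCoc

/-- the twist functor `M ↦ E ⊗ M`, `E` the vector bundle with the cocycle of matrices `g` -/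
def mtw (g : MCoc U m) : X.Modules ⥤ X.Modules where
  obj M := twO g M
  map φ := twM g φ
  map_id M := hom_ext' (fun V s => oext (fun i => by
    rw [oev_map]
    rfl))
  map_comp φ ψ := hom_ext' (fun V s => oext (fun i => by
    rw [oev_map, ap_comp, oev_map, oev_map]
    rfl))

variable (g : MCoc U m) {M N : X.Modules}

/-- the value of a section of the twist with index `i` on a smaller open subset -/
def mev {V : X.Opens} (s : Γ((mtw g).obj M, V)) (i : ι) {W : X.Opens} (hV : W ≤ V)
    (hi : W ≤ U i) : m → Γ(M, W) :=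
  oev s i hV hi

variable {g}

@[simp] theorem rsV_mev {V : X.Opens} (s : Γ((mtw g).obj M, V)) (i : ι) {W W' : X.Opens}
    (hV : W ≤ V) (hi : W ≤ U i) (h : W' ≤ W) :
    rsV M h (mev g s i hV hi) = mev g s i (h.trans hV) (h.trans hi) :=
  rs_oev _ _ _ _ _

theorem mev_eq {V : X.Opens} (s : Γ((mtw g).obj M, V)) (i j : ι) {W : X.Opens} (hV : W ≤ V)
    (hi : W ≤ U i) (hj : W ≤ U j) :
    mev g s i hV hi = mv (g.v i j hi hj) (mev g s j hV hj) :=
  oev_eq _ _ _ _ _ _

@[simp] theorem mev_rs {V V' : X.Opens} (h : V' ≤ V) (s : Γ((mtw g).obj M, V)) (i : ι)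
    {W : X.Opens} (hV : W ≤ V') (hi : W ≤ U i) :
    mev g (rs ((mtw g).obj M) h s) i hV hi = mev g s i (hV.trans h) hi :=
  oev_rs h _ i hV hi

@[simp] theorem mev_add {V : X.Opens} (s t : Γ((mtw g).obj M, V)) (i : ι) {W : X.Opens}
    (hV : W ≤ V) (hi : W ≤ U i) : mev g (s + t) i hV hi = mev g s i hV hi + mev g t i hV hi :=
  oev_add s t i hV hi

@[simp] theorem mev_zero {V : X.Opens} (i : ι) {W : X.Opens}
    (hV : W ≤ V) (hi : W ≤ U i) : mev g (0 : Γ((mtw g).obj M, V)) i hV hi = 0 :=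
  oev_zero (g := g) i hV hi

@[simp] theorem mev_smul {V : X.Opens} (r : Γ(X, V)) (s : Γ((mtw g).obj M, V)) (i : ι)
    {W : X.Opens} (hV : W ≤ V) (hi : W ≤ U i) :
    mev g (r • s) i hV hi = rO hV r • mev g s i hV hi :=
  oev_smul r s i hV hi

theorem mext {V : X.Opens} {s t : Γ((mtw g).obj M, V)}
    (h : ∀ i, mev g s i (inf_le_left : V ⊓ U i ≤ V) inf_le_right =
      mev g t i (inf_le_left : V ⊓ U i ≤ V) inf_le_right) : s = t :=
  oext h

theorem mext_small {W : X.Opens} {s t : Γ((mtw g).obj M, W)} (i : ι) (hi : W ≤ U i)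
    (h : mev g s i le_rfl hi = mev g t i le_rfl hi) : s = t :=
  oext_small i hi h

@[simp] theorem mev_map (φ : M ⟶ N) {V : X.Opens} (s : Γ((mtw g).obj M, V)) (i : ι)
    {W : X.Opens} (hV : W ≤ V) (hi : W ≤ U i) :
    mev g (ap ((mtw g).map φ) V s) i hV hi = apV φ W (mev g s i hV hi) :=
  oev_map φ s i hV hi

variable (g M) in
/-- the component of a section over a small open subset, as a linear isomorphism -/
def mEquiv (i : ι) {W : X.Opens} (hi : W ≤ U i) :
    Γ((mtw g).obj M, W) ≃ₗ[Γ(X, W)] (m → Γ(M, W)) :=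
  oequiv g M i hi

@[simp] lemma mEquiv_apply (i : ι) {W : X.Opens} (hi : W ≤ U i) (s : Γ((mtw g).obj M, W)) :
    mEquiv g M i hi s = mev g s i le_rfl hi := rfl

lemma mev_mEquiv_symm (i : ι) {W : X.Opens} (hi : W ≤ U i) (c : m → Γ(M, W)) (j : ι)
    {W' : X.Opens} (hW : W' ≤ W) (hj : W' ≤ U j) :
    mev g ((mEquiv g M i hi).symm c) j hW hj = mv (g.v j i hj (hW.trans hi)) (rsV M hW c) :=
  oev_osec i hi c j hW hj

instance : (mtw g).Additive where
  map_add {M N φ ψ} := hom_ext' (fun V s => mext (fun i => by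
    rw [mev_map, ap_add, mev_add, mev_map, mev_map]
    ext k
    simp [apV]))

/-- the trivialisation of the twist of the structure sheaf -/
def mtwTv (g : MCoc U m) : Tv U ((mtw g).obj (Coc.OO X)) m where
  co i _ h := mEquiv g (Coc.OO X) i h
  co_rs i {V W} h hW s := by
    have h1 := rsV_mev s i le_rfl h hW
    have h2 := mev_rs hW s i le_rfl (hW.trans h)
    exact h2.trans h1.symm

/-! ### the adjunction with the twist by the dual bundle -/

/-- the section of the twist with one non-zero component -/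
def ee (g : MCoc U m) (M : X.Modules) (i : ι) {W : X.Opens} (hi : W ≤ U i) (k : m)
    (s : Γ(M, W)) : Γ((mtw g).obj M, W) :=
  (mEquiv g M i hi).symm (Pi.single k s)

lemma mev_ee (i : ι) {W : X.Opens} (hi : W ≤ U i) (k : m) (s : Γ(M, W)) (j : ι)
    {W' : X.Opens} (hW : W' ≤ W) (hj : W' ≤ U j) (l : m) :
    mev g (ee g M i hi k s) j hW hj l = g.v j i hj (hW.trans hi) l k • rs M hW s := by
  rw [ee, mev_mEquiv_symm]
  simp only [mv, rsV_apply]
  rw [Finset.sum_eq_single k]
  · rw [Pi.single_eq_same]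
  · intro b _ hb
    rw [Pi.single_eq_of_ne hb, map_zero, smul_zero]
  · simp

lemma ee_add (i : ι) {W : X.Opens} (hi : W ≤ U i) (k : m) (s t : Γ(M, W)) :
    ee g M i hi k (s + t) = ee g M i hi k s + ee g M i hi k t := by
  rw [ee, Pi.single_add, map_add]
  rfl

lemma ee_smul (i : ι) {W : X.Opens} (hi : W ≤ U i) (k : m) (r : Γ(X, W)) (s : Γ(M, W)) :
    ee g M i hi k (r • s) = r • ee g M i hi k s := by
  rw [ee, Pi.single_smul', map_smul]
  rfl

lemma rs_ee (i : ι) {W W' : X.Opens} (hi : W ≤ U i) (k : m) (s : Γ(M, W)) (h : W' ≤ W) :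
    rs _ h (ee g M i hi k s) = ee g M i (h.trans hi) k (rs M h s) := by
  apply mext_small i (h.trans hi)
  ext l
  rw [mev_rs, mev_ee, mev_ee, rs_self]

lemma sum_ee (i : ι) {W : X.Opens} (hi : W ≤ U i) (s : Γ((mtw g).obj M, W)) :
    s = ∑ k, ee g M i hi k (mev g s i le_rfl hi k) := by
  apply (mEquiv g M i hi).injective
  rw [map_sum]
  simp only [ee, LinearEquiv.apply_symm_apply, mEquiv_apply]
  ext k
  rw [Finset.sum_apply, Finset.sum_eq_single k]
  · rw [Pi.single_eq_same]
  · intro b _ hb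
    rw [Pi.single_eq_of_ne hb.symm]
  · simp

lemma ee_change (i j : ι) {W : X.Opens} (hi : W ≤ U i) (hj : W ≤ U j) (k : m) (s : Γ(M, W)) :
    ee g M i hi k s = ∑ l, g.v j i hj hi l k • ee g M j hj l s := by
  conv_lhs => rw [sum_ee j hj (ee g M i hi k s)]
  refine Finset.sum_congr rfl fun l _ => ?_
  rw [mev_ee, rs_self, ee_smul]

/-- the adjunction on morphisms, first direction -/
def toR (φ : (mtw g).obj M ⟶ N) : M ⟶ (mtw g.dual).obj N :=
  MCoc.lift g.dual (fun i W hi s k => ap φ W (ee g M i hi k s))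
    (fun i W hi s t => by
      ext k
      simp only [Pi.add_apply]
      rw [ee_add, map_add])
    (fun i W hi r s => by
      ext k
      simp only [Pi.smul_apply]
      rw [ee_smul, ap_smul])
    (fun i W W' hi h s => by
      ext k
      rw [rsV_apply, ← ap_rs, rs_ee])
    (fun i j W hi hj s => by
      ext k
      rw [ee_change i j hi hj, map_sum]
      simp only [mv, ap_smul, MCoc.dual_v, Matrix.transpose_apply])

lemma mev_toR (φ : (mtw g).obj M ⟶ N) {V : X.Opens} (s : Γ(M, V)) (i : ι) {W : X.Opens}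
    (hV : W ≤ V) (hi : W ≤ U i) (k : m) :
    mev g.dual (ap (toR φ) V s) i hV hi k = ap φ W (ee g M i hi k (rs M hV s)) :=
  congrFun (MCoc.oev_lift (g := g.dual) (fun i W hi s k => ap φ W (ee g M i hi k s)) _ _ _ _
    s i hV hi) k

/-- the adjunction on morphisms, second direction: local form -/
def toLoc (ψ : M ⟶ (mtw g.dual).obj N) : LocHom U ((mtw g).obj M) N where
  f i V h :=
    { toFun := fun s => ∑ k, mev g.dual (ap ψ V (mev g s i le_rfl h k)) i le_rfl h k
      map_add' := fun s t => by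
        rw [← Finset.sum_add_distrib]
        refine Finset.sum_congr rfl fun k _ => ?_
        rw [mev_add, Pi.add_apply, map_add, mev_add, Pi.add_apply]
      map_smul' := fun r s => by
        rw [RingHom.id_apply, Finset.smul_sum]
        refine Finset.sum_congr rfl fun k _ => ?_
        rw [mev_smul, Pi.smul_apply, rO_self, ap_smul, mev_smul, Pi.smul_apply, rO_self] }
  f_rs i V W h hW s := by
    simp only [LinearMap.coe_mk, AddHom.coe_mk, map_sum]
    refine Finset.sum_congr rfl fun k _ => ?_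
    have h1 : mev g (rs _ hW s) i le_rfl (hW.trans h) k = rs M hW (mev g s i le_rfl h k) := by
      rw [mev_rs, ← rsV_apply, rsV_mev]
    rw [h1, ap_rs, mev_rs, ← rsV_apply, rsV_mev]
  f_eq i j W hi hj s := by
    simp only [LinearMap.coe_mk, AddHom.coe_mk]
    have h1 : ∀ k, mev g s i le_rfl hi k = ∑ l, g.v i j hi hj k l • mev g s j le_rfl hj l :=
      fun k => congrFun (mev_eq s i j le_rfl hi hj) k
    have h2 : ∀ (t : Γ(M, W)) k, mev g.dual (ap ψ W t) i le_rfl hi k =
        ∑ l, g.v j i hj hi l k • mev g.dual (ap ψ W t) j le_rfl hj l := fun t k => by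
      rw [mev_eq (ap ψ W t) i j le_rfl hi hj]
      simp only [mv, MCoc.dual_v, Matrix.transpose_apply]
    have h3 : ∀ k, mev g.dual (ap ψ W (mev g s i le_rfl hi k)) i le_rfl hi k =
        ∑ l, ∑ b, (g.v j i hj hi l k * g.v i j hi hj k b) •
          mev g.dual (ap ψ W (mev g s j le_rfl hj b)) j le_rfl hj l := by
      intro k
      rw [h2]
      refine Finset.sum_congr rfl fun l _ => ?_
      have h4 : mev g.dual (ap ψ W (mev g s i le_rfl hi k)) j le_rfl hj l =
          ∑ b, g.v i j hi hj k b • mev g.dual (ap ψ W (mev g s j le_rfl hj b)) j le_rfl hj l := by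
        rw [h1, map_sum]
        have h5 : ∀ (f : m → Γ((mtw g.dual).obj N, W)),
            mev g.dual (∑ b, f b) j le_rfl hj l = ∑ b, mev g.dual (f b) j le_rfl hj l := by
          intro f
          have := map_sum (mEquiv g.dual N j hj) f Finset.univ
          have h6 := congrFun this l
          rw [Finset.sum_apply] at h6
          exact h6
        rw [h5]
        refine Finset.sum_congr rfl fun b _ => ?_
        rw [ap_smul, mev_smul, Pi.smul_apply, rO_self]
      rw [h4, Finset.smul_sum]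
      refine Finset.sum_congr rfl fun b _ => ?_
      rw [smul_smul]
    calc ∑ k, mev g.dual (ap ψ W (mev g s i le_rfl hi k)) i le_rfl hi k
        = ∑ k, ∑ l, ∑ b, (g.v j i hj hi l k * g.v i j hi hj k b) •
          mev g.dual (ap ψ W (mev g s j le_rfl hj b)) j le_rfl hj l :=
          Finset.sum_congr rfl fun k _ => h3 k
      _ = ∑ l, ∑ b, (∑ k, g.v j i hj hi l k * g.v i j hi hj k b) •
          mev g.dual (ap ψ W (mev g s j le_rfl hj b)) j le_rfl hj l := by
          rw [Finset.sum_comm]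
          refine Finset.sum_congr rfl fun l _ => ?_
          rw [Finset.sum_comm]
          refine Finset.sum_congr rfl fun b _ => ?_
          rw [Finset.sum_smul]
      _ = ∑ l, ∑ b, ((1 : Matrix m m Γ(X, W)) l b) •
          mev g.dual (ap ψ W (mev g s j le_rfl hj b)) j le_rfl hj l := by
          refine Finset.sum_congr rfl fun l _ => Finset.sum_congr rfl fun b _ => ?_
          rw [← Matrix.mul_apply, g.v_v, g.v_self]
      _ = _ := by
          refine Finset.sum_congr rfl fun l _ => ?_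
          rw [Finset.sum_eq_single l]
          · rw [Matrix.one_apply_eq, one_smul]
          · intro b _ hb
            rw [Matrix.one_apply_ne hb.symm, zero_smul]
          · simp

section cov

variable [IsCov U]

/-- the adjunction on morphisms, second direction -/
def toL (ψ : M ⟶ (mtw g.dual).obj N) : (mtw g).obj M ⟶ N := (toLoc ψ).hom

lemma ap_toL (ψ : M ⟶ (mtw g.dual).obj N) (i : ι) {V : X.Opens} (h : V ≤ U i)
    (s : Γ((mtw g).obj M, V)) :
    ap (toL ψ) V s = ∑ k, mev g.dual (ap ψ V (mev g s i le_rfl h k)) i le_rfl h k :=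
  (toLoc ψ).ap_hom i h s

lemma ap_toL_ee (ψ : M ⟶ (mtw g.dual).obj N) (i : ι) {V : X.Opens} (h : V ≤ U i) (k : m)
    (s : Γ(M, V)) : ap (toL ψ) V (ee g M i h k s) = mev g.dual (ap ψ V s) i le_rfl h k := by
  rw [ap_toL ψ i h, Finset.sum_eq_single k]
  · rw [mev_ee, rs_self, g.v_self, Matrix.one_apply_eq, one_smul]
  · intro b _ hb
    rw [mev_ee, rs_self, g.v_self, Matrix.one_apply_ne hb, zero_smul, map_zero, mev_zero,
      Pi.zero_apply]
  · simp

theorem toL_toR (φ : (mtw g).obj M ⟶ N) : toL (toR φ) = φ := by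
  apply hom_ext_local (U := U)
  intro i V h s
  rw [sum_ee i h s, map_sum, map_sum]
  refine Finset.sum_congr rfl fun k _ => ?_
  rw [ap_toL_ee, mev_toR, rs_self]

theorem toR_toL (ψ : M ⟶ (mtw g.dual).obj N) : toR (toL ψ) = ψ := by
  apply hom_ext'
  intro V s
  apply mext
  intro i
  ext k
  rw [mev_toR, ap_toL_ee, ap_rs, mev_rs]

/-- **the adjunction** `E ⊗ - ⊣ E^∨ ⊗ -` -/
def mtwAdj (g : MCoc U m) : mtw g ⊣ mtw g.dual :=
  Adjunction.mkOfHomEquiv
    { homEquiv := fun M N =>
        { toFun := toR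
          invFun := toL
          left_inv := toL_toR
          right_inv := toR_toL }
      homEquiv_naturality_left_symm := fun {M M' N} f ψ => by
        apply hom_ext_local (U := U)
        intro i V h s
        rw [sum_ee i h s, map_sum, map_sum]
        refine Finset.sum_congr rfl fun k _ => ?_
        change ap (toL (f ≫ ψ)) V _ = ap ((mtw g).map f ≫ toL ψ) V _
        have h1 : ap ((mtw g).map f) V (ee g M i h k (mev g s i le_rfl h k)) =
            ee g M' i h k (ap f V (mev g s i le_rfl h k)) := by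
          apply mext_small i h
          ext l
          rw [mev_map, apV, mev_ee, mev_ee, ap_smul, rs_self, rs_self]
        rw [ap_comp, h1, ap_toL_ee, ap_toL_ee, ap_comp]
      homEquiv_naturality_right := fun {M N N'} φ f => by
        apply hom_ext'
        intro V s
        apply mext
        intro i
        ext k
        change mev g.dual (ap (toR (φ ≫ f)) V s) i _ _ k =
          mev g.dual (ap (toR φ ≫ (mtw g.dual).map f) V s) i _ _ k
        rw [mev_toR, ap_comp, ap_comp, mev_map, apV, mev_toR] }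

omit [IsCov U] in
theorem mcoc_ext {g h : MCoc U m} (e : g.g = h.g) : g = h := by
  cases g
  cases h
  cases e
  rfl

omit [IsCov U] in
lemma dual_dual (g : MCoc U m) : g.dual.dual = g := by
  apply mcoc_ext
  funext i j
  ext a b
  simp [MCoc.dual, rM]

/-- the adjunction `E^∨ ⊗ - ⊣ E ⊗ -` -/
def mtwAdj' (g : MCoc U m) : mtw g.dual ⊣ mtw g :=
  (mtwAdj g.dual).ofNatIsoRight (eqToIso (congrArg mtw (dual_dual g)))

instance : (mtw g).IsLeftAdjoint := (mtwAdj g).isLeftAdjoint

instance : (mtw g).IsRightAdjoint := (mtwAdj' g).isRightAdjoint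

end cov

end

end Orl.Vb
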