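import Pool.Agent.Work.MP_a6e60d_ag.Vb.Chat
import Pool.Agent.Work.MP_a6e60d_ag.Vb.MtwFun

/-!
# MP_a6e60d_ag: the rank two bundle `E` on the Châtelet surfaces

`E` is the extension `0 → O → E → O(B) → 0` with `End E` = the quaternion algebra.  Over the charts
`1, 3` (`w ≠ 0`) it has the basis `1, √a`, over the charts `0, 2` the basis `1, v / w`,
`v = y + z √a`.
* `g • h` for `g : Coc U`, `h : MCoc U m`: the twist of a vector bundle by a line bundle;
* `MFrame U m`: frames of vector bundles, `MFrame.coc`;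
* `IsMSec h s`: the family `s` is a section of the vector bundle with the cocycle `h`;
* `Y.cE : MCoc Y.U (Fin 2)`: the cocycle of `E`, `Y.cE_v`: its values;
* `Y.mOne`, `Y.mI`: the sections `1`, `√a` of `E`; `Y.mJ`: the section `v / w` of `E(2 D)`.
-/

open CategoryTheory Limits TopologicalSpace AlgebraicGeometry Opposite Matrix

attribute [-instance] CategoryTheory.catToReflQuiver

set_option linter.unusedSimpArgs false

universe u

namespace Orl

open Fdim Fdim.Coc Orl.Vb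

noncomputable section

namespace Vb

variable {X : Scheme.{u}} {ι : Type u} {U : ι → X.Opens} {m n : Type} [Fintype m]
  [DecidableEq m] [Fintype n] [DecidableEq n]

omit [Fintype m] [DecidableEq m] [Fintype n] [DecidableEq n] in
lemma rM_smul {V W : X.Opens} (h : W ≤ V) (r : Γ(X, V)) (A : Matrix n m Γ(X, V)) :
    rM h (r • A) = rO h r • rM h A := by
  ext k l
  simp [rM]

omit [Fintype m] [DecidableEq m] in
lemma rV_add {V W : X.Opens} (h : W ≤ V) (s t : m → Γ(X, V)) : rV h (s + t) = rV h s + rV h t := by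
  ext k
  simp [rV]

omit [Fintype m] [DecidableEq m] in
lemma rV_smul {V W : X.Opens} (h : W ≤ V) (r : Γ(X, V)) (s : m → Γ(X, V)) :
    rV h (r • s) = rO h r • rV h s := by
  ext k
  simp [rV]

lemma rM_two {V W : X.Opens} (h : W ≤ V) (a b c d : Γ(X, V)) :
    rM h !![a, b; c, d] = !![rO h a, rO h b; rO h c, rO h d] := by
  ext k l
  fin_cases k <;> fin_cases l <;> rfl

lemma rV_two {V W : X.Opens} (h : W ≤ V) (a b : Γ(X, V)) :
    rV h ![a, b] = ![rO h a, rO h b] := by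
  ext k
  fin_cases k <;> rfl

lemma mulVec_two {R : Type*} [CommRing R] (a b c d p q : R) :
    !![a, b; c, d] *ᵥ ![p, q] = ![a * p + b * q, c * p + d * q] := by
  ext k
  fin_cases k <;> simp [Matrix.mulVec, dotProduct, Fin.sum_univ_two]

lemma two_ext {R : Type*} {p q p' q' : R} (h : p = p') (h' : q = q') : ![p, q] = ![p', q'] := by
  rw [h, h']

namespace MCoc

theorem ext_v {g h : MCoc U m}
    (e : ∀ i j, g.v i j (inf_le_left : U i ⊓ U j ≤ U i) inf_le_right = h.v i j inf_le_left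
      inf_le_right) : g = h := by
  apply mcoc_ext
  funext i j
  have h1 := e i j
  have h2 : ∀ g : MCoc U m, g.v i j (inf_le_left : U i ⊓ U j ≤ U i) inf_le_right = g.g i j := by
    intro g
    ext k l
    simp [MCoc.v, rM]
  rwa [h2, h2] at h1

/-- the twist of a vector bundle by a line bundle -/
instance : SMul (Coc U) (MCoc U m) where
  smul g h :=
    { g := fun i j => g.v i j inf_le_left inf_le_right • h.g i j
      one := fun i => by rw [g.v_self, one_smul, h.one]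
      mul := fun i j k => by
        rw [rM_smul, rM_smul, rM_smul, Matrix.smul_mul, Matrix.mul_smul, h.mul, smul_smul,
          g.rO_v, g.rO_v, g.rO_v, g.v_v] }

@[simp] theorem smul_v (g : Coc U) (h : MCoc U m) (i j : ι) {W : X.Opens} (hi : W ≤ U i)
    (hj : W ≤ U j) : (g • h).v i j hi hj = g.v i j hi hj • h.v i j hi hj := by
  change rM _ (g.v i j _ _ • h.g i j) = _
  rw [rM_smul, g.rO_v]
  rfl

instance : MulAction (Coc U) (MCoc U m) where
  one_smul h := ext_v fun i j => by simp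
  mul_smul g g' h := ext_v fun i j => by simp [mul_smul]

end MCoc

/-- frames of vector bundles: matrices `e i j` with entries in the functions on `U i` -/
structure MFrame (U : ι → X.Opens) (m : Type) [Fintype m] [DecidableEq m] where
  e : ∀ i, ι → Matrix m m Γ(X, U i)
  one : ∀ i, e i i = 1
  mul : ∀ i j k, rM (inf_le_left : U i ⊓ U j ≤ U i) (e i j) *
    rM (inf_le_right : U i ⊓ U j ≤ U j) (e j k) = rM inf_le_left (e i k)

namespace MFrame

variable (F : MFrame U m)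

theorem mulW (i j k : ι) {W : X.Opens} (hi : W ≤ U i) (hj : W ≤ U j) :
    rM hi (F.e i j) * rM hj (F.e j k) = rM hi (F.e i k) := by
  have h := congrArg (rM (le_inf hi hj)) (F.mul i j k)
  rw [rM_mul] at h
  simpa only [rM_rM] using h

/-- the cocycle of a frame -/
def coc : MCoc U m where
  g i j := rM inf_le_left (F.e i j)
  one i := by rw [F.one, rM_one]
  mul i j k := by
    simp only [rM_rM]
    exact F.mulW i j k _ _

@[simp] theorem coc_v (i j : ι) {W : X.Opens} (hi : W ≤ U i) (hj : W ≤ U j) :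
    F.coc.v i j hi hj = rM hi (F.e i j) := by
  change rM _ (rM _ _) = _
  rw [rM_rM]

end MFrame

/-- the family `s` is a section of the vector bundle with the cocycle `h` -/
def IsMSec (h : MCoc U m) (s : ∀ i, m → Γ(X, U i)) : Prop :=
  ∀ (i j : ι) (W : X.Opens) (hi : W ≤ U i) (hj : W ≤ U j),
    rV hi (s i) = h.v i j hi hj *ᵥ rV hj (s j)

theorem MFrame.isMSec (F : MFrame U m) (j : ι) (l : m) :
    IsMSec F.coc (fun i k => F.e i j k l) := by
  intro i k W hi hk
  rw [F.coc_v]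
  ext b
  exact (congrFun (congrFun (F.mulW i k j hi hk) b) l).symm

/-- the frame of an extension of line bundles -/
def triFrame (F G : Frame U) (ε : ∀ i, ι → Γ(X, U i)) (h0 : ∀ i, ε i i = 0)
    (hε : ∀ i j k, rO (inf_le_left : U i ⊓ U j ≤ U i) (F.e i j) *
      rO (inf_le_right : U i ⊓ U j ≤ U j) (ε j k) +
      rO (inf_le_left : U i ⊓ U j ≤ U i) (ε i j) *
      rO (inf_le_right : U i ⊓ U j ≤ U j) (G.e j k) = rO inf_le_left (ε i k)) :
    MFrame U (Fin 2) where
  e i j := !![F.e i j, ε i j; 0, G.e i j]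
  one i := by
    rw [F.one, G.one, h0]
    exact Matrix.one_fin_two.symm
  mul i j k := by
    rw [rM_two, rM_two, rM_two]
    ext b l
    fin_cases b <;> fin_cases l
    · simp [Matrix.mul_apply, Fin.sum_univ_two, F.mul i j k]
    · simp [Matrix.mul_apply, Fin.sum_univ_two, hε i j k]
    · simp [Matrix.mul_apply, Fin.sum_univ_two]
    · simp [Matrix.mul_apply, Fin.sum_univ_two, G.mul i j k]

end Vb

section four

variable {X : Scheme.{0}} {U : Fin 4 → X.Opens}

/-- the relations of an extension on four opens from those on the six overlaps -/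
theorem tri4 (F G : Frame U) (ε : ∀ i, Fin 4 → Γ(X, U i)) (h0 : ∀ i, ε i i = 0)
    (m01 : ∀ k, rO (inf_le_left : U 0 ⊓ U 1 ≤ U 0) (F.e 0 1) *
      rO (inf_le_right : U 0 ⊓ U 1 ≤ U 1) (ε 1 k) +
      rO (inf_le_left : U 0 ⊓ U 1 ≤ U 0) (ε 0 1) *
      rO (inf_le_right : U 0 ⊓ U 1 ≤ U 1) (G.e 1 k) = rO inf_le_left (ε 0 k))
    (m02 : ∀ k, rO (inf_le_left : U 0 ⊓ U 2 ≤ U 0) (F.e 0 2) *
      rO (inf_le_right : U 0 ⊓ U 2 ≤ U 2) (ε 2 k) +
      rO (inf_le_left : U 0 ⊓ U 2 ≤ U 0) (ε 0 2) *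
      rO (inf_le_right : U 0 ⊓ U 2 ≤ U 2) (G.e 2 k) = rO inf_le_left (ε 0 k))
    (m03 : ∀ k, rO (inf_le_left : U 0 ⊓ U 3 ≤ U 0) (F.e 0 3) *
      rO (inf_le_right : U 0 ⊓ U 3 ≤ U 3) (ε 3 k) +
      rO (inf_le_left : U 0 ⊓ U 3 ≤ U 0) (ε 0 3) *
      rO (inf_le_right : U 0 ⊓ U 3 ≤ U 3) (G.e 3 k) = rO inf_le_left (ε 0 k))
    (m12 : ∀ k, rO (inf_le_left : U 1 ⊓ U 2 ≤ U 1) (F.e 1 2) *
      rO (inf_le_right : U 1 ⊓ U 2 ≤ U 2) (ε 2 k) +
      rO (inf_le_left : U 1 ⊓ U 2 ≤ U 1) (ε 1 2) *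
      rO (inf_le_right : U 1 ⊓ U 2 ≤ U 2) (G.e 2 k) = rO inf_le_left (ε 1 k))
    (m13 : ∀ k, rO (inf_le_left : U 1 ⊓ U 3 ≤ U 1) (F.e 1 3) *
      rO (inf_le_right : U 1 ⊓ U 3 ≤ U 3) (ε 3 k) +
      rO (inf_le_left : U 1 ⊓ U 3 ≤ U 1) (ε 1 3) *
      rO (inf_le_right : U 1 ⊓ U 3 ≤ U 3) (G.e 3 k) = rO inf_le_left (ε 1 k))
    (m23 : ∀ k, rO (inf_le_left : U 2 ⊓ U 3 ≤ U 2) (F.e 2 3) *
      rO (inf_le_right : U 2 ⊓ U 3 ≤ U 3) (ε 3 k) +
      rO (inf_le_left : U 2 ⊓ U 3 ≤ U 2) (ε 2 3) *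
      rO (inf_le_right : U 2 ⊓ U 3 ≤ U 3) (G.e 3 k) = rO inf_le_left (ε 2 k)) :
    ∀ i j k, rO (inf_le_left : U i ⊓ U j ≤ U i) (F.e i j) *
      rO (inf_le_right : U i ⊓ U j ≤ U j) (ε j k) +
      rO (inf_le_left : U i ⊓ U j ≤ U i) (ε i j) *
      rO (inf_le_right : U i ⊓ U j ≤ U j) (G.e j k) = rO inf_le_left (ε i k) := by
  have key : ∀ i j : Fin 4, (∀ k, rO (inf_le_left : U i ⊓ U j ≤ U i) (F.e i j) *
      rO (inf_le_right : U i ⊓ U j ≤ U j) (ε j k) +
      rO (inf_le_left : U i ⊓ U j ≤ U i) (ε i j) *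
      rO (inf_le_right : U i ⊓ U j ≤ U j) (G.e j k) = rO inf_le_left (ε i k)) →
      ∀ k, rO (inf_le_left : U j ⊓ U i ≤ U j) (F.e j i) *
      rO (inf_le_right : U j ⊓ U i ≤ U i) (ε i k) +
      rO (inf_le_left : U j ⊓ U i ≤ U j) (ε j i) *
      rO (inf_le_right : U j ⊓ U i ≤ U i) (G.e i k) = rO inf_le_left (ε j k) := by
    intro i j h k
    have h1 := congrArg (rO (le_inf inf_le_right inf_le_left :
      U j ⊓ U i ≤ U i ⊓ U j)) (h i)
    have h2 := congrArg (rO (le_inf inf_le_right inf_le_left :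
      U j ⊓ U i ≤ U i ⊓ U j)) (h k)
    simp only [map_mul, map_add, rO_rO, h0, map_zero] at h1 h2
    have hF := F.mulW j i j (W := U j ⊓ U i) inf_le_left inf_le_right
    rw [F.one, map_one] at hF
    have hG := G.mulW j i j (W := U j ⊓ U i) inf_le_left inf_le_right
    rw [G.one, map_one] at hG
    have hG' := G.mulW i j i (W := U j ⊓ U i) inf_le_right inf_le_left
    rw [G.one, map_one] at hG'
    have hG2 := G.mulW j i k (W := U j ⊓ U i) inf_le_left inf_le_right
    have hG3 := G.mulW i j k (W := U j ⊓ U i) inf_le_right inf_le_left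
    rw [← hG3]
    generalize rO _ (F.e j i) = fji at *
    generalize rO _ (F.e i j) = fij at *
    generalize rO _ (G.e j i) = gji at *
    generalize rO _ (G.e i j) = gij at *
    generalize rO _ (ε i j) = eij at *
    generalize rO _ (ε j i) = eji at *
    generalize rO _ (ε j k) = ejk at *
    generalize rO _ (ε i k) = eik at *
    generalize rO _ (G.e j k) = gjk at *
    generalize rO _ (G.e i k) = gik at *
    linear_combination (-fji) * h2 + (fji * gij * gjk) * h1 +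
      (ejk - gij * gjk * eji) * hF - fji * eij * gjk * hG'
  have key2 : ∀ i k : Fin 4, rO (inf_le_left : U i ⊓ U i ≤ U i) (F.e i i) *
      rO (inf_le_right : U i ⊓ U i ≤ U i) (ε i k) +
      rO (inf_le_left : U i ⊓ U i ≤ U i) (ε i i) *
      rO (inf_le_right : U i ⊓ U i ≤ U i) (G.e i k) = rO inf_le_left (ε i k) := by
    intro i k
    rw [F.one, h0, map_one, one_mul, map_zero, zero_mul, add_zero]
  intro i j
  match i, j with
  | 0, 0 => exact key2 0
  | 0, 1 => exact m01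
  | 0, 2 => exact m02
  | 0, 3 => exact m03
  | 1, 0 => exact key _ _ m01
  | 1, 1 => exact key2 1
  | 1, 2 => exact m12
  | 1, 3 => exact m13
  | 2, 0 => exact key _ _ m02
  | 2, 1 => exact key _ _ m12
  | 2, 2 => exact key2 2
  | 2, 3 => exact m23
  | 3, 0 => exact key _ _ m03
  | 3, 1 => exact key _ _ m13
  | 3, 2 => exact key _ _ m23
  | 3, 3 => exact key2 3

end four

namespace XCharts

variable {A : CommRingCat.{0}} {a : A} {c : Fin 5 → A} {X : Scheme.{0}} {π : X ⟶ Spec A}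
  (Y : XCharts A a c π)

/-- the upper right entries of the frame of `E(2 D)` -/
def eE : ∀ i : Fin 4, Fin 4 → Γ(X, Y.U i)
  | 0 => ![0, - Y.e 0, 0, - (Y.x 0 ^ 2 * Y.e 0)]
  | 1 => ![Y.e 1, 0, Y.e 1, 0]
  | 2 => ![0, - (Y.x 2 ^ 2 * Y.e 2), 0, - Y.e 2]
  | 3 => ![Y.e 3, 0, Y.e 3, 0]

/-- the relation of the upper right entries on an overlap -/
def RelE (i j : Fin 4) : Prop := ∀ k, rO (inf_le_left : Y.U i ⊓ Y.U j ≤ Y.U i) ((Y.frD ^ 2).e i j) *
      rO (inf_le_right : Y.U i ⊓ Y.U j ≤ Y.U j) (Y.eE j k) +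
      rO (inf_le_left : Y.U i ⊓ Y.U j ≤ Y.U i) (Y.eE i j) *
      rO (inf_le_right : Y.U i ⊓ Y.U j ≤ Y.U j) (Y.frC.e j k) = rO inf_le_left (Y.eE i k)

theorem relE01 : Y.RelE 0 1 := by
  intro k
  have hx := Y.rel01x (W := Y.U 0 ⊓ Y.U 1) inf_le_left inf_le_right
  have he := Y.rel01e (W := Y.U 0 ⊓ Y.U 1) inf_le_left inf_le_right
  rw [Frame.pow_e]
  match k with
  | 0 => simp [eE, eD, eC, ← he]
  | 1 => simp [eE, eD, eC]
  | 2 => simp [eE, eD, eC, ← he]
  | 3 => simp [eE, eD, eC, ← hx, mul_comm]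

theorem relE02 : Y.RelE 0 2 := by
  intro k
  have hx := Y.rel02x (W := Y.U 0 ⊓ Y.U 2) inf_le_left inf_le_right
  have he := Y.rel02e (W := Y.U 0 ⊓ Y.U 2) inf_le_left inf_le_right
  rw [Frame.pow_e]
  match k with
  | 0 => simp [eE, eD, eC]
  | 1 =>
    simp only [frD_e, frC_e, eE, eD, eC, Matrix.cons_val, Matrix.cons_val_one,
      Matrix.cons_val_zero, map_mul, map_pow, map_neg, map_zero, ← he]
    generalize rO _ (Y.x 0) = z at *
    generalize rO _ (Y.x 2) = w at *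
    generalize rO _ (Y.e 0) = p at *
    linear_combination (- p * (z * w + 1)) * hx
  | 2 => simp [eE, eD, eC]
  | 3 => simp [eE, eD, eC, ← he]

theorem relE03 : Y.RelE 0 3 := by
  intro k
  have hx := Y.rel03x (W := Y.U 0 ⊓ Y.U 3) inf_le_left inf_le_right
  have hy := Y.rel03y (W := Y.U 0 ⊓ Y.U 3) inf_le_left inf_le_right
  have he := Y.rel03e (W := Y.U 0 ⊓ Y.U 3) inf_le_left inf_le_right
  have h1 : rO inf_le_left (Y.x 0) ^ 2 * rO inf_le_right (Y.e 3) +
      -(rO inf_le_left (Y.x 0) ^ 2 * rO inf_le_left (Y.e 0)) *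
        rO inf_le_right (Y.y 3) = (0 : Γ(X, Y.U 0 ⊓ Y.U 3)) := by
    generalize rO _ (Y.x 0) = z at *
    generalize rO _ (Y.y 0) = p at *
    generalize rO _ (Y.y 3) = p' at *
    generalize rO _ (Y.e 0) = e at *
    generalize rO _ (Y.e 3) = e' at *
    linear_combination (z ^ 2 * p') * he - (z ^ 2 * e') * hy
  rw [Frame.pow_e]
  match k with
  | 0 =>
    simp only [frD_e, frC_e, eE, eD, eC, Matrix.cons_val, Matrix.cons_val_one,
      Matrix.cons_val_zero, map_mul, map_pow, map_neg, map_zero]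
    exact h1
  | 1 =>
    simp only [frD_e, frC_e, eE, eD, eC, Matrix.cons_val, Matrix.cons_val_one,
      Matrix.cons_val_zero, map_mul, map_pow, map_neg, map_zero]
    generalize rO _ (Y.x 0) = z at *
    generalize rO _ (Y.x 3) = w at *
    generalize rO _ (Y.e 0) = e at *
    linear_combination (- e * (z * w + 1)) * hx
  | 2 =>
    simp only [frD_e, frC_e, eE, eD, eC, Matrix.cons_val, Matrix.cons_val_one,
      Matrix.cons_val_zero, map_mul, map_pow, map_neg, map_zero]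
    exact h1
  | 3 => simp [eE, eD, eC]

theorem relE12 : Y.RelE 1 2 := by
  intro k
  have hx := Y.rel12x (W := Y.U 1 ⊓ Y.U 2) inf_le_left inf_le_right
  have he := Y.rel12e (W := Y.U 1 ⊓ Y.U 2) inf_le_left inf_le_right
  rw [Frame.pow_e]
  match k with
  | 0 => simp [eE, eD, eC]
  | 1 =>
    simp only [frD_e, frC_e, eE, eD, eC, Matrix.cons_val, Matrix.cons_val_one,
      Matrix.cons_val_zero, map_mul, map_pow, map_neg, map_zero]
    generalize rO _ (Y.x 1) = z at *
    generalize rO _ (Y.x 2) = w at *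
    generalize rO _ (Y.y 2) = p at *
    generalize rO _ (Y.e 1) = e at *
    generalize rO _ (Y.e 2) = e' at *
    linear_combination he - (e' * (z * w + 1)) * hx
  | 2 => simp [eE, eD, eC]
  | 3 =>
    simp only [frD_e, frC_e, eE, eD, eC, Matrix.cons_val, Matrix.cons_val_one,
      Matrix.cons_val_zero, map_mul, map_pow, map_neg, map_zero]
    generalize rO _ (Y.x 1) = z at *
    generalize rO _ (Y.x 2) = w at *
    generalize rO _ (Y.y 2) = p at *
    generalize rO _ (Y.e 1) = e at *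
    generalize rO _ (Y.e 2) = e' at *
    linear_combination z ^ 2 * he - (e * p * (z * w + 1)) * hx

theorem relE13 : Y.RelE 1 3 := by
  intro k
  have he := Y.rel13e (W := Y.U 1 ⊓ Y.U 3) inf_le_left inf_le_right
  rw [Frame.pow_e]
  match k with
  | 0 => simp [eE, eD, eC, he]
  | 1 => simp [eE, eD, eC]
  | 2 => simp [eE, eD, eC, he]
  | 3 => simp [eE, eD, eC]

theorem relE23 : Y.RelE 2 3 := by
  intro k
  have hx := Y.rel23x (W := Y.U 2 ⊓ Y.U 3) inf_le_left inf_le_right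
  have he := Y.rel23e (W := Y.U 2 ⊓ Y.U 3) inf_le_left inf_le_right
  rw [Frame.pow_e]
  match k with
  | 0 => simp [eE, eD, eC, ← he]
  | 1 => simp [eE, eD, eC, ← hx, mul_comm]
  | 2 => simp [eE, eD, eC, ← he]
  | 3 => simp [eE, eD, eC]

theorem eE_self (i : Fin 4) : Y.eE i i = 0 := by
  match i with
  | 0 => rfl
  | 1 => rfl
  | 2 => rfl
  | 3 => rfl

/-- the frame of `E(2 D)` -/
def frE : MFrame Y.U (Fin 2) :=
  triFrame (Y.frD ^ 2) Y.frC Y.eE Y.eE_self
    (tri4 _ _ _ Y.eE_self Y.relE01 Y.relE02 Y.relE03 Y.relE12 Y.relE13 Y.relE23)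

/-- the cocycle of the rank two bundle `E` -/
def cE : MCoc Y.U (Fin 2) := (Y.cD ^ 2)⁻¹ • Y.frE.coc

theorem cD_smul_cE : Y.cD ^ 2 • Y.cE = Y.frE.coc := by
  rw [cE, smul_inv_smul]

/-- the upper right entries of the cocycle of `E` -/
def vA : ∀ (i j : Fin 4) {W : X.Opens} (_ : W ≤ Y.U i) (_ : W ≤ Y.U j), Γ(X, W)
  | 0, 1, _, hi, _ => - rO hi (Y.e 0)
  | 0, 3, _, hi, _ => - rO hi (Y.e 0)
  | 1, 0, _, hi, _ => rO hi (Y.e 1)
  | 1, 2, _, hi, hj => rO hi (Y.e 1) * rO hj (Y.x 2) ^ 2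
  | 2, 1, _, hi, _ => - rO hi (Y.e 2)
  | 2, 3, _, hi, _ => - rO hi (Y.e 2)
  | 3, 0, _, hi, hj => rO hi (Y.e 3) * rO hj (Y.x 0) ^ 2
  | 3, 2, _, hi, _ => rO hi (Y.e 3)
  | _, _, _, _, _ => 0

theorem eE_mul (i j : Fin 4) {W : X.Opens} (hi : W ≤ Y.U i) (hj : W ≤ Y.U j) :
    rO hi (Y.eE i j) * rO hj (Y.eD j i) ^ 2 = Y.vA i j hi hj := by
  match i, j with
  | 0, 0 => simp [vA, eE, eD]
  | 0, 1 => simp [vA, eE, eD]
  | 0, 2 => simp [vA, eE, eD]
  | 0, 3 =>
    have hx := Y.rel03x hi hj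
    simp only [vA, eE, eD, Matrix.cons_val, Matrix.cons_val_zero, map_mul, map_pow, map_neg]
    linear_combination (- rO hi (Y.e 0) * (rO hi (Y.x 0) * rO hj (Y.x 3) + 1)) * hx
  | 1, 0 => simp [vA, eE, eD]
  | 1, 1 => simp [vA, eE, eD]
  | 1, 2 => simp [vA, eE, eD]
  | 1, 3 => simp [vA, eE, eD]
  | 2, 0 => simp [vA, eE, eD]
  | 2, 1 =>
    have hx := Y.rel12x hj hi
    simp only [vA, eE, eD, Matrix.cons_val, Matrix.cons_val_one, map_mul, map_pow, map_neg]
    linear_combination (- rO hi (Y.e 2) * (rO hj (Y.x 1) * rO hi (Y.x 2) + 1)) * hx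
  | 2, 2 => simp [vA, eE, eD]
  | 2, 3 => simp [vA, eE, eD]
  | 3, 0 => simp [vA, eE, eD]
  | 3, 1 => simp [vA, eE, eD]
  | 3, 2 => simp [vA, eE, eD]
  | 3, 3 => simp [vA, eE, eD]

theorem cD_inv_v (i j : Fin 4) {W : X.Opens} (hi : W ≤ Y.U i) (hj : W ≤ Y.U j) :
    ((Y.cD ^ 2)⁻¹).v i j hi hj = rO hj (Y.eD j i) ^ 2 := by
  have h1 := (Y.cD ^ 2).v_inv_mul i j hi hj
  have h2 : (Y.cD ^ 2).v i j hi hj = rO hi (Y.eD i j) ^ 2 := by
    rw [pow_two, Coc.v_mul, cD_v, pow_two]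
  have h3 := Y.eD_swap i j hi hj
  rw [h2] at h1
  calc ((Y.cD ^ 2)⁻¹).v i j hi hj
      = ((Y.cD ^ 2)⁻¹).v i j hi hj * (rO hi (Y.eD i j) * rO hj (Y.eD j i)) ^ 2 := by
        rw [h3, one_pow, mul_one]
    _ = ((Y.cD ^ 2)⁻¹).v i j hi hj * rO hi (Y.eD i j) ^ 2 * rO hj (Y.eD j i) ^ 2 := by ring
    _ = _ := by rw [h1, one_mul]

/-- **the cocycle of the rank two bundle `E`** -/
theorem cE_v (i j : Fin 4) {W : X.Opens} (hi : W ≤ Y.U i) (hj : W ≤ Y.U j) :
    Y.cE.v i j hi hj = !![1, Y.vA i j hi hj; 0, Y.vB i j hi hj] := by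
  have hF : Y.frE.e i j = !![Y.eD i j ^ 2, Y.eE i j; 0, Y.eC i j] := by
    change !![(Y.frD ^ 2).e i j, Y.eE i j; 0, Y.frC.e i j] = _
    rw [Frame.pow_e]
    rfl
  rw [cE, MCoc.smul_v, MFrame.coc_v, cD_inv_v, hF, rM_two]
  have h3 := Y.eD_swap i j hi hj
  have h4 := Y.eE_mul i j hi hj
  have h5 := Y.cB_v_eq i j hi hj
  rw [cB_v] at h5
  ext b l
  fin_cases b <;> fin_cases l
  · change rO hj (Y.eD j i) ^ 2 * rO hi (Y.eD i j ^ 2) = 1
    rw [map_pow, ← mul_pow, mul_comm, h3, one_pow]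
  · change rO hj (Y.eD j i) ^ 2 * rO hi (Y.eE i j) = Y.vA i j hi hj
    rw [mul_comm, h4]
  · change rO hj (Y.eD j i) ^ 2 * rO hi 0 = 0
    rw [map_zero, mul_zero]
  · change rO hj (Y.eD j i) ^ 2 * rO hi (Y.eC i j) = Y.vB i j hi hj
    rw [mul_comm, h5]

/-! ### sections -/

/-- the section `1` of `E` -/
def mOne (i : Fin 4) : Fin 2 → Γ(X, Y.U i) := ![1, 0]

/-- the section `√a` of `E` -/
def mI : ∀ i : Fin 4, Fin 2 → Γ(X, Y.U i)
  | 0 => ![- Y.e 0, Y.y 0]
  | 1 => ![0, 1]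
  | 2 => ![- Y.e 2, Y.y 2]
  | 3 => ![0, 1]

/-- the section `v / w` of `E(2 D)` -/
def mJ : ∀ i : Fin 4, Fin 2 → Γ(X, Y.U i)
  | 0 => ![0, 1]
  | 1 => ![Y.e 1, Y.y 1]
  | 2 => ![0, 1]
  | 3 => ![Y.e 3, Y.y 3]

theorem isMSec_mOne : IsMSec Y.cE Y.mOne := by
  intro i j W hi hj
  rw [cE_v, mOne, mOne, rV_two, rV_two, mulVec_two]
  exact two_ext (by simp) (by simp)

theorem isMSec_mJ : IsMSec (Y.cD ^ 2 • Y.cE) Y.mJ := by
  rw [cD_smul_cE]
  have h := Y.frE.isMSec 0 1
  have h2 : Y.mJ = (fun i k => Y.frE.e i 0 k 1) := by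
    funext i k
    change _ = !![(Y.frD ^ 2).e i 0, Y.eE i 0; 0, Y.frC.e i 0] k 1
    match i with
    | 0 => fin_cases k <;> rfl
    | 1 => fin_cases k <;> rfl
    | 2 => fin_cases k <;> rfl
    | 3 => fin_cases k <;> rfl
  rw [h2]
  exact h

theorem isMSec_mI : IsMSec Y.cE Y.mI := by
  intro i j W hi hj
  rw [cE_v]
  match i, j with
  | 0, 0 =>
    simp only [vA, vB, mI, rV_two, mulVec_two, map_neg]
    exact two_ext (by ring) (by ring)
  | 0, 1 =>
    simp only [vA, vB, mI, rV_two, mulVec_two, map_neg, map_zero, map_one]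
    exact two_ext (by ring) (by ring)
  | 0, 2 =>
    have hx := Y.rel02x hi hj
    have hy := Y.rel02y hi hj
    have he := Y.rel02e hi hj
    simp only [vA, vB, mI, rV_two, mulVec_two, map_neg]
    refine two_ext ?_ ?_
    · linear_combination - he
    · linear_combination (- rO hi (Y.y 0) * (rO hi (Y.x 0) * rO hj (Y.x 2) + 1)) * hx -
        rO hj (Y.x 2) ^ 2 * hy
  | 0, 3 =>
    simp only [vA, vB, mI, rV_two, mulVec_two, map_neg, map_zero, map_one]
    exact two_ext (by ring) (by ring)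
  | 1, 0 =>
    have hy := Y.rel01y hj hi
    have he := Y.rel01e hj hi
    simp only [vA, vB, mI, rV_two, mulVec_two, map_neg, map_zero, map_one]
    refine two_ext ?_ ?_
    · linear_combination rO hj (Y.y 0) * he - rO hj (Y.e 0) * hy
    · linear_combination - hy
  | 1, 1 =>
    simp only [vA, vB, mI, rV_two, mulVec_two, map_zero, map_one]
    exact two_ext (by ring) (by ring)
  | 1, 2 =>
    have hy := Y.rel12y hi hj
    have he := Y.rel12e hi hj
    simp only [vA, vB, mI, rV_two, mulVec_two, map_neg, map_zero, map_one]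
    refine two_ext ?_ ?_
    · linear_combination - he
    · linear_combination - hy
  | 1, 3 =>
    simp only [vA, vB, mI, rV_two, mulVec_two, map_zero, map_one]
    exact two_ext (by ring) (by ring)
  | 2, 0 =>
    have hy := Y.rel02y hj hi
    have he := Y.rel02e hj hi
    simp only [vA, vB, mI, rV_two, mulVec_two, map_neg]
    refine two_ext ?_ ?_
    · linear_combination he
    · linear_combination hy
  | 2, 1 =>
    simp only [vA, vB, mI, rV_two, mulVec_two, map_neg, map_zero, map_one]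
    exact two_ext (by ring) (by ring)
  | 2, 2 =>
    simp only [vA, vB, mI, rV_two, mulVec_two, map_neg]
    exact two_ext (by ring) (by ring)
  | 2, 3 =>
    simp only [vA, vB, mI, rV_two, mulVec_two, map_neg, map_zero, map_one]
    exact two_ext (by ring) (by ring)
  | 3, 0 =>
    have hy := Y.rel03y hj hi
    have he := Y.rel03e hj hi
    simp only [vA, vB, mI, rV_two, mulVec_two, map_neg, map_zero, map_one]
    refine two_ext ?_ ?_
    · linear_combination - he
    · linear_combination - hy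
  | 3, 1 =>
    simp only [vA, vB, mI, rV_two, mulVec_two, map_zero, map_one]
    exact two_ext (by ring) (by ring)
  | 3, 2 =>
    have hy := Y.rel23y hj hi
    have he := Y.rel23e hj hi
    simp only [vA, vB, mI, rV_two, mulVec_two, map_neg, map_zero, map_one]
    refine two_ext ?_ ?_
    · linear_combination rO hj (Y.y 2) * he - rO hj (Y.e 2) * hy
    · linear_combination - hy
  | 3, 3 =>
    simp only [vA, vB, mI, rV_two, mulVec_two, map_zero, map_one]
    exact two_ext (by ring) (by ring)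

end XCharts

end

end Orl
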