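import Pool.Agent.Work.MP_f714fc_ag.Tw.Koszul
import Pool.Agent.Work.MP_f714fc_ag.Tw.TwSec

/-!
# MP_a6e60d_ag: locally free modules in coordinates

`U` a family of open subsets which covers `X`.
* `LocHom U M N`: compatible maps of sections over the open subsets contained in some `U i`;
  they are the same as morphisms `M ⟶ N` (`LocHom.hom`).
* `Tv U M m`: trivialisations of `M` on the `U i`, with values in `m → Γ(X, V)`.
* `Tv.hom a b A`: the morphism with the matrices `A i`.
* `shortExact_of_local`: exactness from the exactness of sections on small open subsets.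
-/

open CategoryTheory Limits TopologicalSpace AlgebraicGeometry Opposite Matrix

attribute [-instance] CategoryTheory.catToReflQuiver

universe u

namespace Orl.Vb

open Fdim Fdim.Coc

noncomputable section

variable {X : Scheme.{u}} {ι : Type u} {U : ι → X.Opens}

/-! ### morphisms from local maps -/

/-- compatible maps of sections over the open subsets contained in some `U i` -/
structure LocHom (U : ι → X.Opens) (M N : X.Modules) where
  f : ∀ (i : ι) {V : X.Opens} (_ : V ≤ U i), Γ(M, V) →ₗ[Γ(X, V)] Γ(N, V)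
  f_rs : ∀ (i : ι) {V W : X.Opens} (h : V ≤ U i) (hW : W ≤ V) (s : Γ(M, V)),
    f i (hW.trans h) (rs M hW s) = rs N hW (f i h s)
  f_eq : ∀ (i j : ι) {W : X.Opens} (hi : W ≤ U i) (hj : W ≤ U j) (s : Γ(M, W)),
    f i hi s = f j hj s

namespace LocHom

variable {M N : X.Modules} [IsCov U] (F : LocHom U M N)

lemma exists_sec {V : X.Opens} (s : Γ(M, V)) : ∃ t : Γ(N, V), ∀ i,
    rs N (inf_le_left : V ⊓ U i ≤ V) t = F.f i inf_le_right (rs M inf_le_left s) := by
  apply exists_glue N (U := fun i => V ⊓ U i) (fun _ => inf_le_left) (cov_inf V)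
  intro i j
  rw [← F.f_rs, ← F.f_rs, rs_rs, rs_rs]
  exact F.f_eq i j _ _ _

/-- the global map on sections -/
def sec {V : X.Opens} (s : Γ(M, V)) : Γ(N, V) := (F.exists_sec s).choose

lemma rs_sec {V : X.Opens} (s : Γ(M, V)) (i : ι) {W : X.Opens} (h : W ≤ V) (hi : W ≤ U i) :
    rs N h (F.sec s) = F.f i hi (rs M h s) := by
  have h1 := (F.exists_sec s).choose_spec i
  have h2 := congrArg (rs N (le_inf h hi)) h1
  rw [rs_rs, ← F.f_rs, rs_rs] at h2
  exact h2

lemma sec_eq_of {V : X.Opens} {s : Γ(M, V)} {t : Γ(N, V)}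
    (h : ∀ i, rs N (inf_le_left : V ⊓ U i ≤ V) t = F.f i inf_le_right (rs M inf_le_left s)) :
    F.sec s = t := by
  apply sec_ext N (U := fun i => V ⊓ U i) (fun _ => inf_le_left) (cov_inf V)
  intro i
  rw [F.rs_sec s i inf_le_left inf_le_right, h]

/-- the morphism given by compatible local maps -/
def hom : M ⟶ N :=
  homMk (fun V =>
    { toFun := fun s => F.sec s
      map_zero' := F.sec_eq_of fun i => by simp
      map_add' := fun s t => F.sec_eq_of fun i => by
        rw [map_add, map_add, map_add, F.rs_sec s i, F.rs_sec t i] })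
    (fun V r s => F.sec_eq_of fun i => by
      rw [rs_smul, rs_smul, map_smul]
      change _ • rs N _ (F.sec s) = _
      rw [F.rs_sec s i])
    (fun {V W} h s => F.sec_eq_of fun i => by
      change rs N _ (rs N h (F.sec s)) = _
      rw [rs_rs, F.rs_sec s i _ inf_le_right, rs_rs])

theorem ap_hom (i : ι) {V : X.Opens} (h : V ≤ U i) (s : Γ(M, V)) :
    ap F.hom V s = F.f i h s := by
  have h1 := F.rs_sec s i (le_refl V) h
  rw [rs_self, rs_self] at h1
  exact h1

end LocHom

section local_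

variable [IsCov U]

/-- morphisms are determined by their values on the sections over small open subsets -/
theorem hom_ext_local {M N : X.Modules} {φ ψ : M ⟶ N}
    (h : ∀ (i : ι) (V : X.Opens), V ≤ U i → ∀ s : Γ(M, V), ap φ V s = ap ψ V s) : φ = ψ := by
  apply hom_ext'
  intro V s
  apply sec_ext N (U := fun i => V ⊓ U i) (fun _ => inf_le_left) (cov_inf V)
  intro i
  rw [← ap_rs, ← ap_rs]
  exact h i _ inf_le_right _

variable (U) in
/-- a complex of modules which is exact on the sections over small open subsets -/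
theorem shortExact_of_local (S : ShortComplex X.Modules)
    (h₁ : ∀ (i : ι) (V : X.Opens), V ≤ U i → ∀ s : Γ(S.X₁, V), ap S.f V s = 0 → s = 0)
    (h₂ : ∀ (i : ι) (V : X.Opens), V ≤ U i → ∀ s : Γ(S.X₂, V), ap S.g V s = 0 →
      ∃ t : Γ(S.X₁, V), ap S.f V t = s)
    (h₃ : ∀ (i : ι) (V : X.Opens), V ≤ U i → Function.Surjective (ap S.g V)) :
    S.ShortExact := by
  have hx : ∀ x : X, ∃ i, x ∈ U i := by
    intro x
    have hx : x ∈ ⨆ i, U i := by
      rw [IsCov.cov (U := U)]
      trivial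
    exact Opens.mem_iSup.1 hx
  have hm : Mono S.f := by
    apply mono_of_injective
    intro V
    rw [injective_iff_map_eq_zero]
    intro s hs
    apply sec_ext S.X₁ (U := fun i => V ⊓ U i) (fun _ => inf_le_left) (cov_inf V)
    intro i
    rw [map_zero]
    apply h₁ i _ inf_le_right
    rw [ap_rs, hs, map_zero]
  have he : Epi S.g := by
    apply epi_of_locally
    intro V t x hxV
    obtain ⟨i, hi⟩ := hx x
    obtain ⟨s, hs⟩ := h₃ i (V ⊓ U i) inf_le_right (rs S.X₃ inf_le_left t)
    exact ⟨V ⊓ U i, inf_le_left, ⟨hxV, hi⟩, s, hs⟩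
  have hex : S.Exact := by
    apply exact_of_locally
    intro V s hs x hxV
    obtain ⟨i, hi⟩ := hx x
    obtain ⟨t, ht⟩ := h₂ i (V ⊓ U i) inf_le_right (rs S.X₂ inf_le_left s) (by
      rw [ap_rs, hs, map_zero])
    exact ⟨V ⊓ U i, inf_le_left, ⟨hxV, hi⟩, t, ht⟩
  exact { exact := hex, mono_f := hm, epi_g := he }

end local_

/-! ### trivialisations -/

/-- trivialisations of the module `M` on the open subsets `U i` -/
structure Tv (U : ι → X.Opens) (M : X.Modules) (m : Type) where
  /-- the coordinates of a section over an open subset of `U i` -/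
  co : ∀ (i : ι) {V : X.Opens} (_ : V ≤ U i), Γ(M, V) ≃ₗ[Γ(X, V)] (m → Γ(X, V))
  co_rs : ∀ (i : ι) {V W : X.Opens} (h : V ≤ U i) (hW : W ≤ V) (s : Γ(M, V)),
    co i (hW.trans h) (rs M hW s) = fun k => rO hW (co i h s k)

/-- the restriction of vectors -/
def rV {m : Type} {V W : X.Opens} (h : W ≤ V) (c : m → Γ(X, V)) : m → Γ(X, W) :=
  fun k => rO h (c k)

/-- the restriction of matrices -/
def rM {m n : Type} {V W : X.Opens} (h : W ≤ V) (A : Matrix m n Γ(X, V)) :
    Matrix m n Γ(X, W) := A.map (rO h)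

@[simp] lemma rM_rM {m n : Type} {V W W' : X.Opens} (h : W ≤ V) (h' : W' ≤ W)
    (A : Matrix m n Γ(X, V)) : rM h' (rM h A) = rM (h'.trans h) A := by
  ext k l
  simp [rM]

@[simp] lemma rV_rV {m : Type} {V W W' : X.Opens} (h : W ≤ V) (h' : W' ≤ W)
    (c : m → Γ(X, V)) : rV h' (rV h c) = rV (h'.trans h) c := by
  ext k
  simp [rV]

lemma rM_mul {l m n : Type} [Fintype m] {V W : X.Opens} (h : W ≤ V) (A : Matrix l m Γ(X, V))
    (B : Matrix m n Γ(X, V)) : rM h (A * B) = rM h A * rM h B := by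
  simp [rM, Matrix.map_mul]

lemma rM_one {m : Type} [DecidableEq m] {V W : X.Opens} (h : W ≤ V) :
    rM h (1 : Matrix m m Γ(X, V)) = 1 := by
  simp [rM]

lemma rM_add {m n : Type} {V W : X.Opens} (h : W ≤ V) (A B : Matrix m n Γ(X, V)) :
    rM h (A + B) = rM h A + rM h B := by
  ext k l
  simp [rM]

lemma rV_mulVec {m n : Type} [Fintype n] {V W : X.Opens} (h : W ≤ V) (A : Matrix m n Γ(X, V))
    (c : n → Γ(X, V)) : rV h (A *ᵥ c) = rM h A *ᵥ rV h c := by
  ext k
  simp [rM, rV, Matrix.mulVec, dotProduct]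

namespace Tv

variable {M N P : X.Modules} {m n p : Type} (a : Tv U M m) (b : Tv U N n) (c : Tv U P p)

lemma co_rs' (i : ι) {V W : X.Opens} (h : V ≤ U i) (hW : W ≤ V) (s : Γ(M, V)) :
    a.co i (hW.trans h) (rs M hW s) = rV hW (a.co i h s) := a.co_rs i h hW s

lemma symm_rs (i : ι) {V W : X.Opens} (h : V ≤ U i) (hW : W ≤ V) (d : m → Γ(X, V)) :
    rs M hW ((a.co i h).symm d) = (a.co i (hW.trans h)).symm (rV hW d) := by
  rw [LinearEquiv.eq_symm_apply, a.co_rs' i h hW, LinearEquiv.apply_symm_apply]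

variable [Fintype m] [Fintype n] [Fintype p]

/-- the matrices `A i` are compatible on the intersections -/
def Compat (A : ∀ i, Matrix n m Γ(X, U i)) : Prop :=
  ∀ (i j : ι) {W : X.Opens} (hi : W ≤ U i) (hj : W ≤ U j) (s : Γ(M, W)),
    (b.co i hi).symm (rM hi (A i) *ᵥ a.co i hi s) = (b.co j hj).symm (rM hj (A j) *ᵥ a.co j hj s)

variable {a b} in
/-- the morphism with the given matrices -/
def locHom {A : ∀ i, Matrix n m Γ(X, U i)} (hA : Compat a b A) : LocHom U M N where
  f i V h := (b.co i h).symm.toLinearMap ∘ₗ (rM h (A i)).mulVecLin ∘ₗ (a.co i h).toLinearMap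
  f_rs i V W h hW s := by
    simp only [LinearMap.comp_apply, LinearEquiv.coe_coe, Matrix.mulVecLin_apply]
    rw [b.symm_rs, rV_mulVec, rM_rM, co_rs']
  f_eq i j W hi hj s := hA i j hi hj s

/-- the morphism `φ` has the matrices `A` -/
def IsMat (φ : M ⟶ N) (A : ∀ i, Matrix n m Γ(X, U i)) : Prop :=
  ∀ (i : ι) {V : X.Opens} (h : V ≤ U i) (s : Γ(M, V)),
    b.co i h (ap φ V s) = rM h (A i) *ᵥ a.co i h s

section cov

variable [IsCov U]

/-- the morphism with the given matrices -/
def hom {A : ∀ i, Matrix n m Γ(X, U i)} (hA : Compat a b A) : M ⟶ N := (locHom hA).hom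

theorem isMat_hom {A : ∀ i, Matrix n m Γ(X, U i)} (hA : Compat a b A) :
    IsMat a b (a.hom b hA) A := by
  intro i V h s
  rw [hom, (locHom hA).ap_hom i h]
  simp [locHom]

variable {a b} in
theorem IsMat.ext {φ ψ : M ⟶ N} {A : ∀ i, Matrix n m Γ(X, U i)} (h : IsMat a b φ A)
    (h' : IsMat a b ψ A) : φ = ψ :=
  hom_ext_local (U := U) fun i V hV s => by
    apply (b.co i hV).injective
    rw [h i hV, h' i hV]

end cov

variable {a b c}

theorem IsMat.comp {φ : M ⟶ N} {ψ : N ⟶ P} {A : ∀ i, Matrix n m Γ(X, U i)}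
    {B : ∀ i, Matrix p n Γ(X, U i)} (h : IsMat a b φ A) (h' : IsMat b c ψ B) :
    IsMat a c (φ ≫ ψ) (fun i => B i * A i) := by
  intro i V hV s
  rw [ap_comp, h' i hV, h i hV, rM_mul, Matrix.mulVec_mulVec]

theorem IsMat.id [DecidableEq m] : IsMat a a (𝟙 M) (fun _ => 1) := by
  intro i V hV s
  rw [ap_id, rM_one, Matrix.one_mulVec]

theorem IsMat.add {φ ψ : M ⟶ N} {A B : ∀ i, Matrix n m Γ(X, U i)}
    (h : IsMat a b φ A) (h' : IsMat a b ψ B) : IsMat a b (φ + ψ) (fun i => A i + B i) := by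
  intro i V hV s
  rw [ap_add, map_add, h i hV, h' i hV, rM_add, Matrix.add_mulVec]

theorem IsMat.zero : IsMat a b (0 : M ⟶ N) (fun _ => 0) := by
  intro i V hV s
  have : rM hV (0 : Matrix n m Γ(X, U i)) = 0 := by
    ext k l
    simp [rM]
  rw [ap_zero, map_zero, this, Matrix.zero_mulVec]

theorem IsMat.eq_zero [IsCov U] {φ : M ⟶ N} {A : ∀ i, Matrix n m Γ(X, U i)} (h : IsMat a b φ A)
    (h0 : ∀ i, A i = 0) : φ = 0 := by
  have : A = fun _ => 0 := funext h0
  subst this
  exact h.ext IsMat.zero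

/-- **Exactness from local splittings** -/
theorem shortExact_of_isMat [IsCov U] [DecidableEq m] [DecidableEq n] [DecidableEq p]
    {S : ShortComplex X.Modules} {a : Tv U S.X₁ m} {b : Tv U S.X₂ n} {c : Tv U S.X₃ p}
    {A : ∀ i, Matrix n m Γ(X, U i)} {B : ∀ i, Matrix p n Γ(X, U i)}
    (hA : IsMat a b S.f A) (hB : IsMat b c S.g B) (L : ∀ i, Matrix m n Γ(X, U i))
    (R : ∀ i, Matrix n p Γ(X, U i)) (h₁ : ∀ i, L i * A i = 1) (h₂ : ∀ i, B i * R i = 1)
    (h₃ : ∀ i, A i * L i + R i * B i = 1) : S.ShortExact := by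
  apply shortExact_of_local U
  · intro i V h s hs
    have h1 := hA i h s
    rw [hs, map_zero] at h1
    have h2 := congrArg (rM h (L i) *ᵥ ·) h1
    simp only [Matrix.mulVec_zero, Matrix.mulVec_mulVec, ← rM_mul, h₁, rM_one,
      Matrix.one_mulVec] at h2
    exact (a.co i h).map_eq_zero_iff.1 h2.symm
  · intro i V h s hs
    refine ⟨(a.co i h).symm (rM h (L i) *ᵥ b.co i h s), ?_⟩
    apply (b.co i h).injective
    rw [hA i h, LinearEquiv.apply_symm_apply, Matrix.mulVec_mulVec, ← rM_mul]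
    have h1 := hB i h s
    rw [hs, map_zero] at h1
    have h2 : rM h (A i * L i + R i * B i) *ᵥ b.co i h s = b.co i h s := by
      rw [h₃, rM_one, Matrix.one_mulVec]
    rw [rM_add, Matrix.add_mulVec, rM_mul h (R i), ← Matrix.mulVec_mulVec, ← h1,
      Matrix.mulVec_zero, add_zero] at h2
    exact h2
  · intro i V h t
    refine ⟨(b.co i h).symm (rM h (R i) *ᵥ c.co i h t), ?_⟩
    apply (c.co i h).injective
    rw [hB i h, LinearEquiv.apply_symm_apply, Matrix.mulVec_mulVec, ← rM_mul, h₂, rM_one,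
      Matrix.one_mulVec]

end Tv

end

end Orl.Vb
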