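import Pool.Agent.Work.MP_a6e60d_ag.Perf.Thick
import Pool.Agent.Work.MP_a6e60d_ag.Vb.Chat
import Pool.Agent.Work.MP_f714fc_ag.Tw.Koszul
import Pool.Agent.Work.MP_f714fc_ag.Tw.TwSec

/-!
# MP_a6e60d_ag: the generation theorem from short exact sequences

* `Ses X Y Z`: there is a short exact sequence with terms isomorphic to `X`, `Y`, `Z`;
* `sng P`: the objects `F` whose complex `F[0]` belongs to `P`;
* `genP`: a thick subcategory which contains `M`, `M(D)`, `E`, `E(D)` contains all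
  `M(iD - nB)`, `E(iD - nB)`, if there are sequences `0 ⟶ E(-B-2D) ⟶ M² ⊞ M(-2D)² ⟶ E ⟶ 0`
  and `0 ⟶ M ⟶ E ⟶ M(B) ⟶ 0`.
-/

open CategoryTheory Category Limits Pretriangulated Triangulated DerivedCategory
open TopologicalSpace AlgebraicGeometry Opposite

attribute [-instance] CategoryTheory.catToReflQuiver

universe w v u v' u'

namespace Orl.Vb

section abs

variable {A : Type u} [Category.{v} A] [Abelian A]

/-- there is a short exact sequence with terms isomorphic to `X`, `Y`, `Z` -/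
def Ses (X Y Z : A) : Prop :=
  ∃ S : ShortComplex A, S.ShortExact ∧ Nonempty (S.X₁ ≅ X) ∧ Nonempty (S.X₂ ≅ Y) ∧
    Nonempty (S.X₃ ≅ Z)

theorem Ses.iso {X Y Z X' Y' Z' : A} (h : Ses X Y Z) (e₁ : X ≅ X') (e₂ : Y ≅ Y')
    (e₃ : Z ≅ Z') : Ses X' Y' Z' := by
  obtain ⟨S, hS, ⟨f₁⟩, ⟨f₂⟩, ⟨f₃⟩⟩ := h
  exact ⟨S, hS, ⟨f₁ ≪≫ e₁⟩, ⟨f₂ ≪≫ e₂⟩, ⟨f₃ ≪≫ e₃⟩⟩

theorem Ses.map {B : Type u'} [Category.{v'} B] [Abelian B] (F : A ⥤ B) [F.Additive]
    [PreservesFiniteLimits F] [PreservesFiniteColimits F] {X Y Z : A} (h : Ses X Y Z) :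
    Ses (F.obj X) (F.obj Y) (F.obj Z) := by
  obtain ⟨S, hS, ⟨f₁⟩, ⟨f₂⟩, ⟨f₃⟩⟩ := h
  exact ⟨S.map F, hS.map_of_exact F, ⟨F.mapIso f₁⟩, ⟨F.mapIso f₂⟩, ⟨F.mapIso f₃⟩⟩

variable [HasDerivedCategory.{w} A]

/-- the objects `F` whose complex `F[0]` belongs to `P` -/
def sng (P : ObjectProperty (DerivedCategory A)) : ObjectProperty A :=
  fun F => P ((singleFunctor A 0).obj F)

variable (P : ObjectProperty (DerivedCategory A)) [P.IsTriangulated]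
  [P.IsStableUnderRetracts]

theorem sng_iso {X Y : A} (e : X ≅ Y) (h : sng P X) : sng P Y :=
  P.prop_of_iso ((singleFunctor A 0).mapIso e) h

variable {P}

theorem sng₂ {X Y Z : A} (h : Ses X Y Z) (h₁ : sng P X) (h₃ : sng P Z) : sng P Y := by
  obtain ⟨S, hS, ⟨f₁⟩, ⟨f₂⟩, ⟨f₃⟩⟩ := h
  refine sng_iso P f₂ ?_
  exact P.ext_of_isTriangulatedClosed₂ _ hS.singleTriangle_distinguished
    (sng_iso P f₁.symm h₁) (sng_iso P f₃.symm h₃)

theorem sng₁ {X Y Z : A} (h : Ses X Y Z) (h₂ : sng P Y) (h₃ : sng P Z) : sng P X := by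
  obtain ⟨S, hS, ⟨f₁⟩, ⟨f₂⟩, ⟨f₃⟩⟩ := h
  refine sng_iso P f₁ ?_
  exact P.ext_of_isTriangulatedClosed₁ _ hS.singleTriangle_distinguished
    (sng_iso P f₂.symm h₂) (sng_iso P f₃.symm h₃)

theorem sng₃ {X Y Z : A} (h : Ses X Y Z) (h₁ : sng P X) (h₂ : sng P Y) : sng P Z := by
  obtain ⟨S, hS, ⟨f₁⟩, ⟨f₂⟩, ⟨f₃⟩⟩ := h
  refine sng_iso P f₃ ?_
  exact P.ext_of_isTriangulatedClosed₃ _ hS.singleTriangle_distinguished
    (sng_iso P f₁.symm h₁) (sng_iso P f₂.symm h₂)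

theorem ses_biprod (X Y : A) : Ses X (X ⊞ Y) Y :=
  ⟨ShortComplex.mk biprod.inl biprod.snd biprod.inl_snd,
    (ShortComplex.Splitting.ofHasBinaryBiproduct X Y).shortExact,
    ⟨Iso.refl _⟩, ⟨Iso.refl _⟩, ⟨Iso.refl _⟩⟩

theorem sng_biprod {X Y : A} (h₁ : sng P X) (h₂ : sng P Y) : sng P (X ⊞ Y) :=
  sng₂ (ses_biprod X Y) h₁ h₂

/-- two consecutive twists give all twists -/
theorem sng_line (O : ℤ → A) (K : ∀ i, Ses (O (i - 2)) (O (i - 1) ⊞ O (i - 1)) (O i))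
    (h0 : sng P (O 0)) (h1 : sng P (O 1)) (i : ℤ) : sng P (O i) := by
  have up : ∀ n : ℕ, sng P (O n) ∧ sng P (O (n + 1)) := by
    intro n
    induction n with
    | zero => exact ⟨h0, by simpa using h1⟩
    | succ n ih =>
      refine ⟨by exact_mod_cast ih.2, ?_⟩
      have h := K (((n + 1 : ℕ) : ℤ) + 1)
      have e1 : (((n + 1 : ℕ) : ℤ) + 1) - 2 = n := by push_cast; ring
      have e2 : (((n + 1 : ℕ) : ℤ) + 1) - 1 = n + 1 := by push_cast; ring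
      rw [e1, e2] at h
      exact sng₃ h ih.1 (sng_biprod ih.2 ih.2)
  have dn : ∀ n : ℕ, sng P (O (-n)) ∧ sng P (O (1 - n)) := by
    intro n
    induction n with
    | zero => exact ⟨by simpa using h0, by simpa using h1⟩
    | succ n ih =>
      have e0 : (1 : ℤ) - ((n + 1 : ℕ) : ℤ) = -n := by push_cast; ring
      refine ⟨?_, by rw [e0]; exact ih.1⟩
      have h := K (1 - n)
      have e1 : (1 : ℤ) - n - 2 = -((n + 1 : ℕ) : ℤ) := by push_cast; ring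
      have e2 : (1 : ℤ) - n - 1 = -n := by ring
      rw [e1, e2] at h
      exact sng₁ h (sng_biprod ih.1 ih.1) ih.2
  obtain ⟨n, rfl | rfl⟩ := i.eq_nat_or_neg
  · exact (up n).1
  · exact (dn n).1

/-- the abstract generation theorem -/
theorem sng_gen (O E : ℤ → ℤ → A)
    (K : ∀ i j, Ses (O (i - 2) j) (O (i - 1) j ⊞ O (i - 1) j) (O i j))
    (KE : ∀ i j, Ses (E (i - 2) j) (E (i - 1) j ⊞ E (i - 1) j) (E i j))
    (S1 : ∀ i j, Ses (E (i - 2) (j - 1)) ((O i j ⊞ O i j) ⊞ (O (i - 2) j ⊞ O (i - 2) j)) (E i j))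
    (S2 : ∀ i j, Ses (O i j) (E i j) (O i (j + 1)))
    (h1 : sng P (O 0 0)) (h2 : sng P (O 1 0)) (h3 : sng P (E 0 0)) (h4 : sng P (E 1 0))
    (n : ℕ) : ∀ i, sng P (O i (-n)) ∧ sng P (E i (-n)) := by
  induction n with
  | zero =>
    intro i
    exact ⟨sng_line (fun i => O i (-((0 : ℕ) : ℤ))) (fun i => K i _) (by simpa using h1)
      (by simpa using h2) i, sng_line (fun i => E i (-((0 : ℕ) : ℤ))) (fun i => KE i _)
      (by simpa using h3) (by simpa using h4) i⟩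
  | succ n ih =>
    have hE : ∀ i, sng P (E i (-((n + 1 : ℕ) : ℤ))) := by
      intro i
      have h := S1 (i + 2) (-n)
      have e1 : i + 2 - 2 = i := by ring
      have e2 : -(n : ℤ) - 1 = -((n + 1 : ℕ) : ℤ) := by push_cast; ring
      rw [e1, e2] at h
      exact sng₁ h (sng_biprod (sng_biprod (ih _).1 (ih _).1) (sng_biprod (ih _).1 (ih _).1))
        (ih _).2
    intro i
    refine ⟨?_, hE i⟩
    have h := S2 i (-((n + 1 : ℕ) : ℤ))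
    have e : -((n + 1 : ℕ) : ℤ) + 1 = -n := by push_cast; ring
    rw [e] at h
    exact sng₁ h (hE i) (ih i).1

end abs

section tw

open Fdim Fdim.Coc

variable {X : Scheme.{u}} {ι : Type u} {U : ι → X.Opens} [IsCov U]

theorem Ses.tw (g : Coc U) {F G H : X.Modules} (h : Ses F G H) :
    Ses ((Coc.tw g).obj F) ((Coc.tw g).obj G) ((Coc.tw g).obj H) := h.map (Coc.tw g)

/-- the twist of a twist -/
noncomputable def twtw {g h k : Coc U} (e : g * h = k) (M : X.Modules) :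
    (Coc.tw g).obj ((Coc.tw h).obj M) ≅ (Coc.tw k).obj M := (mulIso e).app M

/-- the twist of a sum -/
noncomputable def twSum (g : Coc U) (M N : X.Modules) :
    (Coc.tw g).obj (M ⊞ N) ≅ (Coc.tw g).obj M ⊞ (Coc.tw g).obj N :=
  haveI := preservesBinaryBiproducts_of_preservesBinaryProducts (Coc.tw g)
  (Coc.tw g).mapBiprod M N

end tw

end Orl.Vb

namespace Orl.XCharts

open Fdim Fdim.Coc Orl.Vb

variable {A : CommRingCat.{0}} {a : A} {c : Fin 5 → A} {X : Scheme.{0}} {π : X ⟶ Spec A}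
  (Y : XCharts A a c π)

/-- the Koszul sequence of the sections `x`, `t` -/
theorem sesX (M : X.Modules) : Ses ((Coc.tw (Y.cD ^ (-2 : ℤ))).obj M)
    ((Coc.tw (Y.cD ^ (-1 : ℤ))).obj M ⊞ (Coc.tw (Y.cD ^ (-1 : ℤ))).obj M) M := by
  refine Coc.koszul Y.cover
    ⟨Y.fT, Y.isSec_fT⟩ ⟨Y.fX, Y.isSec_fX⟩ ?_ M
  intro i
  fin_cases i
  · left; simp [fT, eD]
  · left; simp [fT, eD]
  · right; simp [fX, eD]
  · right; simp [fX, eD]

/-- the line bundle twists `M(iD + jB)` -/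
noncomputable def tij (i j : ℤ) (M : X.Modules) : X.Modules :=
  (Coc.tw (Y.cD ^ i * Y.cB ^ j)).obj M

variable {Y}

/-- twisting the twists -/
noncomputable def tijIso {g : Coc Y.U} {i j i' j' : ℤ}
    (e : Y.cD ^ i * Y.cB ^ j * g = Y.cD ^ i' * Y.cB ^ j') (M : X.Modules) :
    Y.tij i j ((Coc.tw g).obj M) ≅ Y.tij i' j' M := twtw e M

/-- the twists of a sum -/
noncomputable def tijSum (i j : ℤ) (M N : X.Modules) :
    Y.tij i j (M ⊞ N) ≅ Y.tij i j M ⊞ Y.tij i j N := twSum _ M N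

theorem Ses.tij (i j : ℤ) {F G H : X.Modules} (h : Ses F G H) :
    Ses (Y.tij i j F) (Y.tij i j G) (Y.tij i j H) := h.tw _

theorem ses_line (M : X.Modules) (i j : ℤ) :
    Ses (Y.tij (i - 2) j M) (Y.tij (i - 1) j M ⊞ Y.tij (i - 1) j M) (Y.tij i j M) := by
  have e1 : Y.cD ^ i * Y.cB ^ j * Y.cD ^ (-2 : ℤ) = Y.cD ^ (i - 2) * Y.cB ^ j := by
    rw [mul_right_comm, ← zpow_add]
    rfl
  have e2 : Y.cD ^ i * Y.cB ^ j * Y.cD ^ (-1 : ℤ) = Y.cD ^ (i - 1) * Y.cB ^ j := by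
    rw [mul_right_comm, ← zpow_add]
    rfl
  exact (Ses.tij i j (Y.sesX M)).iso (tijIso e1 M)
    (tijSum i j _ _ ≪≫ biprod.mapIso (tijIso e2 M) (tijIso e2 M)) (Iso.refl _)

variable [HasDerivedCategory.{w} X.Modules] {P : ObjectProperty (DerivedCategory X.Modules)}
  [P.IsTriangulated] [P.IsStableUnderRetracts]

/-- **Generation.** -/
theorem sng_tij {M E : X.Modules}
    (S1 : Ses ((Coc.tw (Y.cD ^ (-2 : ℤ) * Y.cB ^ (-1 : ℤ))).obj E)
      ((M ⊞ M) ⊞ ((Coc.tw (Y.cD ^ (-2 : ℤ))).obj M ⊞ (Coc.tw (Y.cD ^ (-2 : ℤ))).obj M)) E)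
    (S2 : Ses M E ((Coc.tw Y.cB).obj M))
    (h1 : sng P M) (h2 : sng P ((Coc.tw Y.cD).obj M)) (h3 : sng P E)
    (h4 : sng P ((Coc.tw Y.cD).obj E)) (i : ℤ) (n : ℕ) :
    sng P (Y.tij i (-n) M) ∧ sng P (Y.tij i (-n) E) := by
  have e0 : Y.cD ^ (0 : ℤ) * Y.cB ^ (0 : ℤ) = 1 := by simp
  have e1 : Y.cD = Y.cD ^ (1 : ℤ) * Y.cB ^ (0 : ℤ) := by simp
  refine sng_gen (fun i j => Y.tij i j M) (fun i j => Y.tij i j E) (fun i j => ses_line M i j)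
    (fun i j => ses_line E i j) (fun i j => ?_) (fun i j => ?_) ?_ ?_ ?_ ?_ n i
  · have e1 : Y.cD ^ i * Y.cB ^ j * (Y.cD ^ (-2 : ℤ) * Y.cB ^ (-1 : ℤ)) =
        Y.cD ^ (i - 2) * Y.cB ^ (j - 1) := by
      rw [mul_mul_mul_comm, ← zpow_add, ← zpow_add]
      rfl
    have e2 : Y.cD ^ i * Y.cB ^ j * Y.cD ^ (-2 : ℤ) = Y.cD ^ (i - 2) * Y.cB ^ j := by
      rw [mul_right_comm, ← zpow_add]
      rfl
    exact (Ses.tij i j S1).iso (tijIso e1 E) (tijSum i j _ _ ≪≫ biprod.mapIso (tijSum i j _ _)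
      (tijSum i j _ _ ≪≫ biprod.mapIso (tijIso e2 M) (tijIso e2 M))) (Iso.refl _)
  · have e1 : Y.cD ^ i * Y.cB ^ j * Y.cB = Y.cD ^ i * Y.cB ^ (j + 1) := by
      rw [zpow_add_one, mul_assoc]
    exact (Ses.tij i j S2).iso (Iso.refl _) (Iso.refl _) (tijIso e1 M)
  · exact sng_iso P (oneIsoApp e0 M) h1
  · exact sng_iso P (eqToIso (by rw [tij, ← e1])) h2
  · exact sng_iso P (oneIsoApp e0 E) h3
  · exact sng_iso P (eqToIso (by rw [tij, ← e1])) h4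

/-- all the negative powers of the ample line bundle -/
theorem sng_ample {M E : X.Modules}
    (S1 : Ses ((Coc.tw (Y.cD ^ (-2 : ℤ) * Y.cB ^ (-1 : ℤ))).obj E)
      ((M ⊞ M) ⊞ ((Coc.tw (Y.cD ^ (-2 : ℤ))).obj M ⊞ (Coc.tw (Y.cD ^ (-2 : ℤ))).obj M)) E)
    (S2 : Ses M E ((Coc.tw Y.cB).obj M))
    (h1 : sng P M) (h2 : sng P ((Coc.tw Y.cD).obj M)) (h3 : sng P E)
    (h4 : sng P ((Coc.tw Y.cD).obj E)) (m : ℤ) (n : ℕ) :
    sng P ((Coc.tw ((Y.cB * Y.cD ^ m) ^ (-(n : ℤ)))).obj M) := by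
  have e : Y.cD ^ (m * -(n : ℤ)) * Y.cB ^ (-(n : ℤ)) = (Y.cB * Y.cD ^ m) ^ (-(n : ℤ)) := by
    rw [mul_zpow, mul_comm, zpow_mul]
  exact sng_iso P (eqToIso (by rw [tij, e])) (sng_tij S1 S2 h1 h2 h3 h4 (m * -(n : ℤ)) n).1

end Orl.XCharts
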