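import Pool.Agent.Work.MP_a6e60d_ag.Vb.Frame

/-!
# MP_a6e60d_ag: the tensor product of a module with a vector bundle given by a cocycle of matrices

`MCoc U m`: cocycles of matrices with respect to the cover `U`; `mtw g : X.Modules ⥤ X.Modules`:
the sections of `(mtw g).obj M` over `V` are the families `c i : m → Γ(M, V ⊓ U i)` with
`c i = g i j • c j` on `V ⊓ (U i ⊓ U j)`.
-/

open CategoryTheory Limits TopologicalSpace AlgebraicGeometry Opposite Matrix

attribute [-instance] CategoryTheory.catToReflQuiver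

universe u

namespace Orl.Vb

open Fdim Fdim.Coc

noncomputable section

variable {X : Scheme.{u}} {ι : Type u} {U : ι → X.Opens} {m n l : Type} [Fintype m]
  [DecidableEq m] [Fintype n] [DecidableEq n] [Fintype l] [DecidableEq l]

/-! ### matrices acting on vectors of sections -/

section vec

variable {M N : X.Modules} {V W : X.Opens}

/-- the product of a matrix and a vector of sections -/
def mv (A : Matrix n m Γ(X, V)) (s : m → Γ(M, V)) : n → Γ(M, V) := fun k => ∑ j, A k j • s j

/-- the restriction of a vector of sections -/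
def rsV (M : X.Modules) (h : W ≤ V) (s : m → Γ(M, V)) : m → Γ(M, W) := fun k => rs M h (s k)

omit [Fintype m] [DecidableEq m] in
@[simp] lemma rsV_apply (h : W ≤ V) (s : m → Γ(M, V)) (k : m) : rsV M h s k = rs M h (s k) := rfl

omit [Fintype m] [DecidableEq m] in
@[simp] lemma rsV_rsV {W' : X.Opens} (h : W ≤ V) (h' : W' ≤ W) (s : m → Γ(M, V)) :
    rsV M h' (rsV M h s) = rsV M (h'.trans h) s := by
  ext k
  simp

omit [Fintype m] [DecidableEq m] in
@[simp] lemma rsV_self (h : V ≤ V) (s : m → Γ(M, V)) : rsV M h s = s := by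
  ext k
  simp

omit [Fintype m] [DecidableEq m] in
@[simp] lemma rsV_add (h : W ≤ V) (s t : m → Γ(M, V)) :
    rsV M h (s + t) = rsV M h s + rsV M h t := by
  ext k
  simp

omit [Fintype m] [DecidableEq m] in
@[simp] lemma rsV_zero (h : W ≤ V) : rsV M h (0 : m → Γ(M, V)) = 0 := by
  ext k
  simp

omit [Fintype m] [DecidableEq m] in
@[simp] lemma rsV_neg (h : W ≤ V) (s : m → Γ(M, V)) : rsV M h (-s) = - rsV M h s := by
  ext k
  simp

omit [Fintype m] [DecidableEq m] in
@[simp] lemma rsV_smul (h : W ≤ V) (r : Γ(X, V)) (s : m → Γ(M, V)) :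
    rsV M h (r • s) = rO h r • rsV M h s := by
  ext k
  simp

omit [DecidableEq m] [Fintype n] [DecidableEq n] in
lemma rsV_mv (h : W ≤ V) (A : Matrix n m Γ(X, V)) (s : m → Γ(M, V)) :
    rsV M h (mv A s) = mv (rM h A) (rsV M h s) := by
  ext k
  simp [mv, rM]

omit [DecidableEq m] [DecidableEq n] [Fintype l] [DecidableEq l] in
lemma mv_mv (A : Matrix l n Γ(X, V)) (B : Matrix n m Γ(X, V)) (s : m → Γ(M, V)) :
    mv A (mv B s) = mv (A * B) s := by
  ext k
  simp only [mv, Matrix.mul_apply, Finset.smul_sum, Finset.sum_smul, smul_smul]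
  exact Finset.sum_comm

lemma mv_one (s : m → Γ(M, V)) : mv (1 : Matrix m m Γ(X, V)) s = s := by
  ext k
  simp [mv, Matrix.one_apply, Finset.sum_ite_eq]

omit [DecidableEq m] [Fintype n] [DecidableEq n] in
lemma mv_add (A : Matrix n m Γ(X, V)) (s t : m → Γ(M, V)) : mv A (s + t) = mv A s + mv A t := by
  ext k
  simp [mv, Finset.sum_add_distrib]

omit [DecidableEq m] [Fintype n] [DecidableEq n] in
@[simp] lemma mv_zero (A : Matrix n m Γ(X, V)) : mv A (0 : m → Γ(M, V)) = 0 := by
  ext k
  simp [mv]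

omit [DecidableEq m] [Fintype n] [DecidableEq n] in
lemma mv_neg (A : Matrix n m Γ(X, V)) (s : m → Γ(M, V)) : mv A (-s) = - mv A s := by
  ext k
  simp [mv]

omit [DecidableEq m] [Fintype n] [DecidableEq n] in
lemma mv_smul (A : Matrix n m Γ(X, V)) (r : Γ(X, V)) (s : m → Γ(M, V)) :
    mv A (r • s) = r • mv A s := by
  ext k
  simp only [mv, Pi.smul_apply, Finset.smul_sum]
  exact Finset.sum_congr rfl fun j _ => smul_comm _ _ _

/-- a morphism applied to a vector of sections -/
def apV (φ : M ⟶ N) (V : X.Opens) (s : m → Γ(M, V)) : m → Γ(N, V) := fun k => ap φ V (s k)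

omit [DecidableEq m] [Fintype n] [DecidableEq n] in
lemma apV_mv (φ : M ⟶ N) (A : Matrix n m Γ(X, V)) (s : m → Γ(M, V)) :
    apV φ V (mv A s) = mv A (apV φ V s) := by
  ext k
  simp [apV, mv]

omit [Fintype m] [DecidableEq m] in
lemma rsV_apV (φ : M ⟶ N) (h : W ≤ V) (s : m → Γ(M, V)) :
    rsV N h (apV φ V s) = apV φ W (rsV M h s) := by
  ext k
  simp [apV, ap_rs]

omit [Fintype m] [DecidableEq m] in
lemma sec_extV (M : X.Modules) {κ : Type*} {V : X.Opens} {W : κ → X.Opens}
    (hU : ∀ i, W i ≤ V) (hV : V ≤ ⨆ i, W i) {s t : m → Γ(M, V)}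
    (h : ∀ i, rsV M (hU i) s = rsV M (hU i) t) : s = t := by
  ext k
  exact sec_ext M hU hV fun i => congrFun (h i) k

omit [Fintype m] [DecidableEq m] in
lemma exists_glueV (M : X.Modules) {κ : Type*} {V : X.Opens} {W : κ → X.Opens}
    (hU : ∀ i, W i ≤ V) (hV : V ≤ ⨆ i, W i) (s : ∀ i, m → Γ(M, W i))
    (h : ∀ i j, rsV M inf_le_left (s i) = rsV M (inf_le_right : W i ⊓ W j ≤ W j) (s j)) :
    ∃ t : m → Γ(M, V), ∀ i, rsV M (hU i) t = s i := by
  have h1 : ∀ k, ∃ t : Γ(M, V), ∀ i, rs M (hU i) t = s i k := fun k =>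
    exists_glue M hU hV (fun i => s i k) (fun i j => congrFun (h i j) k)
  choose t ht using h1
  exact ⟨t, fun i => funext fun k => ht k i⟩

end vec

/-! ### cocycles of matrices -/

/-- cocycles of matrices with respect to the family `U` -/
structure MCoc (U : ι → X.Opens) (m : Type) [Fintype m] [DecidableEq m] where
  g : ∀ i j, Matrix m m Γ(X, U i ⊓ U j)
  one : ∀ i, g i i = 1
  mul : ∀ i j k, rM (inf_le_left : U i ⊓ U j ⊓ U k ≤ U i ⊓ U j) (g i j) *
    rM (inf_le_inf_right (U k) inf_le_right : U i ⊓ U j ⊓ U k ≤ U j ⊓ U k) (g j k) =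
      rM (inf_le_inf_right (U k) inf_le_left : U i ⊓ U j ⊓ U k ≤ U i ⊓ U k) (g i k)

namespace MCoc

variable (g : MCoc U m)

/-- the value of a cocycle on a smaller open subset -/
def v (i j : ι) {W : X.Opens} (hi : W ≤ U i) (hj : W ≤ U j) : Matrix m m Γ(X, W) :=
  rM (le_inf hi hj) (g.g i j)

@[simp] theorem rM_v (i j : ι) {W W' : X.Opens} (hi : W ≤ U i) (hj : W ≤ U j)
    (h : W' ≤ W) : rM h (g.v i j hi hj) = g.v i j (h.trans hi) (h.trans hj) := by
  simp [v]

theorem v_v (i j k : ι) {W : X.Opens} (hi : W ≤ U i) (hj : W ≤ U j) (hk : W ≤ U k) :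
    g.v i j hi hj * g.v j k hj hk = g.v i k hi hk := by
  have h := congrArg (rM (le_inf (le_inf hi hj) hk)) (g.mul i j k)
  rw [rM_mul] at h
  simp only [rM_rM] at h
  exact h

@[simp] theorem v_self (i : ι) {W : X.Opens} (hi : W ≤ U i) (hi' : W ≤ U i) :
    g.v i i hi hi' = 1 := by
  rw [v, g.one, rM_one]

theorem v_swap (i j : ι) {W : X.Opens} (hi : W ≤ U i) (hj : W ≤ U j) :
    g.v i j hi hj * g.v j i hj hi = 1 := by
  rw [v_v, v_self]

/-- the dual bundle -/
def dual : MCoc U m where
  g i j := (rM (inf_comm (U i) (U j)).le (g.g j i))ᵀ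
  one i := by
    rw [g.one, rM_one, Matrix.transpose_one]
  mul i j k := by
    have h := g.v_v k j i (W := U i ⊓ U j ⊓ U k) inf_le_right (inf_le_left.trans inf_le_right)
      (inf_le_left.trans inf_le_left)
    have h2 := congrArg Matrix.transpose h
    rw [Matrix.transpose_mul] at h2
    simpa [v, rM, Matrix.transpose_map, Function.comp_def] using h2

lemma dual_v (i j : ι) {W : X.Opens} (hi : W ≤ U i) (hj : W ≤ U j) :
    g.dual.v i j hi hj = (g.v j i hj hi)ᵀ := by
  ext a b
  simp [dual, v, rM]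

variable (M : X.Modules)

/-- sections of the twist -/
structure S (V : X.Opens) : Type u where
  /-- the components -/
  c : ∀ i, m → Γ(M, V ⊓ U i)
  comp : ∀ i j, rsV M (inf_le_inf_left V inf_le_left : V ⊓ (U i ⊓ U j) ≤ V ⊓ U i) (c i) =
      mv (g.v i j (inf_le_right.trans inf_le_left : V ⊓ (U i ⊓ U j) ≤ U i)
        (inf_le_right.trans inf_le_right : V ⊓ (U i ⊓ U j) ≤ U j))
      (rsV M (inf_le_inf_left V inf_le_right : V ⊓ (U i ⊓ U j) ≤ V ⊓ U j) (c j))

variable {g M}

namespace S

/-- the value of a section of the twist with index `i` on a smaller open subset -/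
def ev {V : X.Opens} (s : S g M V) (i : ι) {W : X.Opens} (hV : W ≤ V)
    (hi : W ≤ U i) : m → Γ(M, W) :=
  rsV M (le_inf hV hi) (s.c i)

@[simp] theorem rsV_ev {V : X.Opens} (s : S g M V) (i : ι) {W W' : X.Opens} (hV : W ≤ V)
    (hi : W ≤ U i) (h : W' ≤ W) : rsV M h (s.ev i hV hi) = s.ev i (h.trans hV) (h.trans hi) := by
  simp [ev]

theorem ev_eq {V : X.Opens} (s : S g M V) (i j : ι) {W : X.Opens} (hV : W ≤ V)
    (hi : W ≤ U i) (hj : W ≤ U j) : s.ev i hV hi = mv (g.v i j hi hj) (s.ev j hV hj) := by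
  have h := congrArg (rsV M (le_inf hV (le_inf hi hj))) (s.comp i j)
  rw [rsV_mv] at h
  simp only [rsV_rsV, rM_v] at h
  exact h

theorem ev_self {V : X.Opens} (s : S g M V) (i : ι) :
    s.ev i (inf_le_left : V ⊓ U i ≤ V) inf_le_right = s.c i := by
  simp [ev]

theorem ext' {V : X.Opens} {s t : S g M V}
    (h : ∀ i, s.ev i (inf_le_left : V ⊓ U i ≤ V) inf_le_right =
      t.ev i (inf_le_left : V ⊓ U i ≤ V) inf_le_right) : s = t := by
  have h2 : s.c = t.c := by
    funext i
    rw [← ev_self s i, ← ev_self t i]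
    exact h i
  cases s
  cases t
  cases h2
  rfl

/-- constructor of sections of the twist -/
def mk' {V : X.Opens} (c : ∀ i, m → Γ(M, V ⊓ U i))
    (h : ∀ i j, ∀ W : X.Opens, ∀ (hV : W ≤ V) (hi : W ≤ U i) (hj : W ≤ U j),
      rsV M (le_inf hV hi) (c i) = mv (g.v i j hi hj) (rsV M (le_inf hV hj) (c j))) : S g M V :=
  ⟨c, fun i j => h i j _ inf_le_left (inf_le_right.trans inf_le_left)
    (inf_le_right.trans inf_le_right)⟩

@[simp] theorem ev_mk' {V : X.Opens} (c : ∀ i, m → Γ(M, V ⊓ U i))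
    (h : ∀ i j, ∀ W : X.Opens, ∀ (hV : W ≤ V) (hi : W ≤ U i) (hj : W ≤ U j),
      rsV M (le_inf hV hi) (c i) = mv (g.v i j hi hj) (rsV M (le_inf hV hj) (c j))) (i : ι)
    {W : X.Opens} (hV : W ≤ V) (hi : W ≤ U i) :
    (mk' c h : S g M V).ev i hV hi = rsV M (le_inf hV hi) (c i) := rfl

instance (V : X.Opens) : Zero (S g M V) where
  zero := mk' (fun _ => 0) (by intros; simp)

instance (V : X.Opens) : Add (S g M V) where
  add s t := mk' (fun i => s.ev i inf_le_left inf_le_right + t.ev i inf_le_left inf_le_right) (by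
    intro i j W hV hi hj
    simp only [rsV_add, rsV_ev]
    rw [s.ev_eq i j hV hi hj, t.ev_eq i j hV hi hj, mv_add])

instance (V : X.Opens) : Neg (S g M V) where
  neg s := mk' (fun i => - s.ev i inf_le_left inf_le_right) (by
    intro i j W hV hi hj
    simp only [rsV_neg, rsV_ev]
    rw [s.ev_eq i j hV hi hj, mv_neg])

@[simp] theorem ev_add {V : X.Opens} (s t : S g M V) (i : ι) {W : X.Opens} (hV : W ≤ V)
    (hi : W ≤ U i) : (s + t).ev i hV hi = s.ev i hV hi + t.ev i hV hi := by
  change rsV M _ (_ + _) = _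
  rw [rsV_add, rsV_ev, rsV_ev]

@[simp] theorem ev_zero {V : X.Opens} (i : ι) {W : X.Opens} (hV : W ≤ V)
    (hi : W ≤ U i) : (0 : S g M V).ev i hV hi = 0 :=
  rsV_zero (le_inf hV hi)

@[simp] theorem ev_neg {V : X.Opens} (s : S g M V) (i : ι) {W : X.Opens} (hV : W ≤ V)
    (hi : W ≤ U i) : (-s).ev i hV hi = - s.ev i hV hi := by
  change rsV M _ (-_) = _
  rw [rsV_neg, rsV_ev]

instance (V : X.Opens) : AddCommGroup (S g M V) :=
  { AddGroup.ofLeftAxioms
      (fun a b c : S g M V => ext' (fun i => by simp only [ev_add]; abel))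
      (fun a => ext' (fun i => by simp only [ev_add, ev_zero]; abel))
      (fun a => ext' (fun i => by simp only [ev_add, ev_zero, ev_neg]; abel)) with
    add_comm := fun a b => ext' (fun i => by simp only [ev_add]; abel) }

instance (V : X.Opens) : SMul Γ(X, V) (S g M V) where
  smul r s := mk' (fun i => rO (inf_le_left : V ⊓ U i ≤ V) r •
      s.ev i inf_le_left inf_le_right) (by
    intro i j W hV hi hj
    simp only [rsV_smul, rO_rO, rsV_ev]
    rw [mv_smul, ← s.ev_eq i j hV hi hj])

@[simp] theorem ev_smul {V : X.Opens} (r : Γ(X, V)) (s : S g M V) (i : ι) {W : X.Opens}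
    (hV : W ≤ V) (hi : W ≤ U i) : (r • s).ev i hV hi = rO hV r • s.ev i hV hi := by
  change rsV M _ (rO inf_le_left r • s.ev i _ _) = _
  rw [rsV_smul, rO_rO, rsV_ev]

instance (V : X.Opens) : Module Γ(X, V) (S g M V) where
  one_smul s := ext' (fun i => by simp)
  mul_smul r r' s := ext' (fun i => by simp [mul_smul])
  smul_zero r := ext' (fun i => by simp)
  smul_add r s t := ext' (fun i => by simp)
  add_smul r r' s := ext' (fun i => by simp [add_smul])
  zero_smul s := ext' (fun i => by simp)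

end S

variable (g M) in
/-- restriction of sections of the twist -/
def resS {V V' : X.Opens} (h : V' ≤ V) : S g M V →+ S g M V' where
  toFun s := S.mk' (fun i => s.ev i (inf_le_left.trans h) inf_le_right) (by
    intro i j W hV hi hj
    simp only [S.rsV_ev]
    exact s.ev_eq i j _ hi hj)
  map_zero' := S.ext' (fun i => by simp)
  map_add' s t := S.ext' (fun i => by simp)

@[simp] theorem ev_resS {V V' : X.Opens} (h : V' ≤ V) (s : S g M V) (i : ι) {W : X.Opens}
    (hV : W ≤ V') (hi : W ≤ U i) : (resS g M h s).ev i hV hi = s.ev i (hV.trans h) hi := by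
  change rsV M _ (s.ev i (inf_le_left.trans h) inf_le_right) = _
  rw [S.rsV_ev]

variable (g M) in
/-- explicit data of the twist -/
def data : MkData X where
  S V := S g M V
  res h := resS g M h
  res_smul h r s := S.ext' (fun i => by simp)
  res_self h s := S.ext' (fun i => by simp)
  res_res h h' s := S.ext' (fun i => by simp)
  sep {κ V W} hW hV s t hst := by
    apply S.ext'
    intro i
    apply sec_extV M (W := fun k => W k ⊓ U i) (V := V ⊓ U i)
      (fun k => inf_le_inf_right _ (hW k)) (by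
        rw [← iSup_inf_eq]
        exact inf_le_inf_right _ hV)
    intro k
    have h := congrArg (fun x => S.ev x i (inf_le_left : W k ⊓ U i ≤ W k) inf_le_right) (hst k)
    simpa using h
  glue {κ V W} hW hV s hs := by
    have hcov : ∀ i, V ⊓ U i ≤ ⨆ k, W k ⊓ U i := fun i => by
      rw [← iSup_inf_eq]
      exact inf_le_inf_right _ hV
    have h1 : ∀ i, ∃ t : m → Γ(M, V ⊓ U i), ∀ k, rsV M (inf_le_inf_right _ (hW k)) t =
        (s k).ev i (inf_le_left : W k ⊓ U i ≤ W k) inf_le_right := by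
      intro i
      apply exists_glueV M (W := fun k => W k ⊓ U i) (V := V ⊓ U i)
        (fun k => inf_le_inf_right _ (hW k)) (hcov i)
      intro k l
      have h := congrArg (fun x => S.ev x i (W := (W k ⊓ U i) ⊓ (W l ⊓ U i))
        (inf_le_inf inf_le_left inf_le_left) (inf_le_left.trans inf_le_right)) (hs k l)
      simpa using h
    choose t ht using h1
    refine ⟨S.mk' t ?_, fun k => S.ext' (fun i => ?_)⟩
    · intro i j Z hV' hi hj
      apply sec_extV M (W := fun k => W k ⊓ Z) (V := Z) (fun k => inf_le_right) (by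
        rw [← iSup_inf_eq]
        exact le_inf (hV'.trans hV) le_rfl)
      intro k
      have e : ∀ i (hi : Z ≤ U i), rsV M (inf_le_right : W k ⊓ Z ≤ Z)
          (rsV M (le_inf hV' hi) (t i))
          = (s k).ev i (inf_le_left : W k ⊓ Z ≤ W k) (inf_le_right.trans hi) := by
        intro i hi
        rw [rsV_rsV, ← S.rsV_ev (s k) i (W := W k ⊓ U i) inf_le_left inf_le_right
          (inf_le_inf_left _ hi), ← ht, rsV_rsV]
      rw [e i hi, rsV_mv, e j hj, rM_v]
      exact (s k).ev_eq i j _ _ _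
    · simp only [ev_resS, S.ev_mk']
      rw [ht]

end MCoc

end

end Orl.Vb
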