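import Pool.Agent.Work.MP_a6e60d_ag.Conic.Alg
import Mathlib.Algebra.Quaternion

/-!
# MP_a6e60d_ag: the action of the quaternion order on the bundle `E`, in matrices

Over the chart `w = 1` of the conic `y ^ 2 = a z ^ 2 + q w ^ 2` the bundle `E` has the basis
`b1, b2` with `i b1 = b2`, `i b2 = a b1`, `j b1 = y b1 + z b2`, `j b2 = - a z b1 - y b2`; over the
chart `z = 1` it has the basis `e1 = b1`, `e2 = j b1`.
-/

set_option autoImplicit false

open Quaternion Matrix

namespace Orl.Vb

section alg

variable {S R : Type*} [CommRing S] [CommRing R] {a q : S}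

/-- the matrix of the element `d` of the quaternion algebra in the basis `b1, b2` -/
def matW (s : S →+* R) (z y : R) (d : ℍ[S, a, 0, q]) : Matrix (Fin 2) (Fin 2) R :=
  !![s d.re + s d.imJ * y + s d.imK * (s a * z),
      s a * s d.imI - s d.imJ * (s a * z) - s d.imK * (s a * y);
    s d.imI + s d.imJ * z + s d.imK * y,
      s d.re - s d.imJ * y - s d.imK * (s a * z)]

/-- the matrix of the element `d` of the quaternion algebra in the basis `e1, e2` -/
def matZ (s : S →+* R) (w v : R) (d : ℍ[S, a, 0, q]) : Matrix (Fin 2) (Fin 2) R :=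
  !![s d.re - s d.imI * v - s d.imK * (s q * w),
      s q * s d.imJ - s d.imI * (s q * w) - s d.imK * (s q * v);
    s d.imJ + s d.imI * w + s d.imK * v,
      s d.re + s d.imI * v + s d.imK * (s q * w)]

/-- the left action on `E` over the chart `w = 1` -/
def homW (s : S →+* R) {z y : R} (h : y * y = s a * (z * z) + s q) :
    ℍ[S, a, 0, q] →+* Matrix (Fin 2) (Fin 2) R where
  toFun := matW s z y
  map_one' := by
    ext i j
    fin_cases i <;> fin_cases j <;> simp [matW]
  map_zero' := by
    ext i j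
    fin_cases i <;> fin_cases j <;> simp [matW]
  map_add' d e := by
    ext i j
    fin_cases i <;> fin_cases j <;> simp [matW] <;> ring
  map_mul' d e := by
    ext i j
    fin_cases i <;> fin_cases j <;>
      simp only [matW, Matrix.mul_apply, Fin.sum_univ_two, QuaternionAlgebra.re_mul,
        QuaternionAlgebra.imI_mul, QuaternionAlgebra.imJ_mul, QuaternionAlgebra.imK_mul, map_add,
        map_sub, map_mul, map_zero, Matrix.of_apply, Matrix.cons_val', Matrix.cons_val_zero,
        Matrix.cons_val_one, Matrix.cons_val_fin_one, Fin.zero_eta, Fin.mk_one, Fin.isValue]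
    · linear_combination (-(s d.imJ * s e.imJ - s a * (s d.imK * s e.imK))) * h
    · linear_combination (-(s a * (s d.imK * s e.imJ - s d.imJ * s e.imK))) * h
    · linear_combination (-(s d.imK * s e.imJ - s d.imJ * s e.imK)) * h
    · linear_combination (-(s d.imJ * s e.imJ - s a * (s d.imK * s e.imK))) * h

/-- the left action on `E` over the chart `z = 1` -/
def homZ (s : S →+* R) {w v : R} (h : v * v = s a + s q * (w * w)) :
    ℍ[S, a, 0, q] →+* Matrix (Fin 2) (Fin 2) R where
  toFun := matZ s w v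
  map_one' := by
    ext i j
    fin_cases i <;> fin_cases j <;> simp [matZ]
  map_zero' := by
    ext i j
    fin_cases i <;> fin_cases j <;> simp [matZ]
  map_add' d e := by
    ext i j
    fin_cases i <;> fin_cases j <;> simp [matZ] <;> ring
  map_mul' d e := by
    ext i j
    fin_cases i <;> fin_cases j <;>
      simp only [matZ, Matrix.mul_apply, Fin.sum_univ_two, QuaternionAlgebra.re_mul,
        QuaternionAlgebra.imI_mul, QuaternionAlgebra.imJ_mul, QuaternionAlgebra.imK_mul, map_add,
        map_sub, map_mul, map_zero, Matrix.of_apply, Matrix.cons_val', Matrix.cons_val_zero,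
        Matrix.cons_val_one, Matrix.cons_val_fin_one, Fin.zero_eta, Fin.mk_one, Fin.isValue]
    · linear_combination (-(s d.imI * s e.imI - s q * (s d.imK * s e.imK))) * h
    · linear_combination (-(s q * (s d.imI * s e.imK - s d.imK * s e.imI))) * h
    · linear_combination (-(s d.imI * s e.imK - s d.imK * s e.imI)) * h
    · linear_combination (-(s d.imI * s e.imI - s q * (s d.imK * s e.imK))) * h

/-- the transition matrix -/
def gT (y z : R) : Matrix (Fin 2) (Fin 2) R := !![1, y; 0, z]

theorem mat_comm (s : S →+* R) {z y w v : R} (hy : y * y = s a * (z * z) + s q)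
    (hz : z * w = 1) (hv : y * w = v) (d : ℍ[S, a, 0, q]) :
    matW s z y d * gT y z = gT y z * matZ s w v d := by
  subst hv
  ext i j
  fin_cases i <;> fin_cases j <;>
    simp only [matW, matZ, gT, Matrix.mul_apply, Fin.sum_univ_two, Matrix.of_apply,
      Matrix.cons_val', Matrix.cons_val_zero, Matrix.cons_val_one, Matrix.cons_val_fin_one,
      Fin.zero_eta, Fin.mk_one, Fin.isValue]
  · linear_combination (-(s d.imK * w)) * hy - (s d.imK * s a * z) * hz
  · linear_combination (s d.imJ - s d.imI * w) * hy - (s d.imI * s a * z) * hz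
  · linear_combination (-(s d.imI + s d.imK * y)) * hz
  · linear_combination (s d.imK) * hy - (s d.imI * y + s d.imK * s q) * hz

theorem gT_mul_inv {z y w v : R} (hz : z * w = 1) (hv : y * w = v) :
    gT y z * !![1, -v; 0, w] = 1 := by
  subst hv
  ext i j
  fin_cases i <;> fin_cases j <;>
    simp [gT, Matrix.mul_apply, Fin.sum_univ_two, hz]

theorem gT_inv_mul {z y w v : R} (hz : z * w = 1) (hv : y * w = v) :
    !![1, -v; 0, w] * gT y z = 1 := by
  subst hv
  ext i j
  fin_cases i <;> fin_cases j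
  · simp [gT, Matrix.mul_apply, Fin.sum_univ_two]
  · simp [gT, Matrix.mul_apply, Fin.sum_univ_two]
    linear_combination (-y) * hz
  · simp [gT, Matrix.mul_apply, Fin.sum_univ_two]
  · simp [gT, Matrix.mul_apply, Fin.sum_univ_two]
    linear_combination hz

/-- base change of the matrices -/
theorem map_matW {R' : Type*} [CommRing R'] (f : R →+* R') (s : S →+* R) (z y : R)
    (d : ℍ[S, a, 0, q]) : (matW s z y d).map f = matW (f.comp s) (f z) (f y) d := by
  ext i j
  fin_cases i <;> fin_cases j <;> simp [matW]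

theorem map_matZ {R' : Type*} [CommRing R'] (f : R →+* R') (s : S →+* R) (w v : R)
    (d : ℍ[S, a, 0, q]) : (matZ s w v d).map f = matZ (f.comp s) (f w) (f v) d := by
  ext i j
  fin_cases i <;> fin_cases j <;> simp [matZ]

theorem map_gT {R' : Type*} [CommRing R'] (f : R →+* R') (y z : R) :
    (gT y z).map f = gT (f y) (f z) := by
  ext i j
  fin_cases i <;> fin_cases j <;> simp [gT]

end alg

end Orl.Vb

/-! ### The conic -/

namespace Orl.Cnc.Con

universe u v w x

variable {S : Type u} {Aw : Type v} {Az : Type w} {R : Type x} [CommRing S] [CommRing Aw]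
    [CommRing Az] [CommRing R] {pw : Aw →+* R} {pz : Az →+* R} (K : Cnc.Con S pw pz)

/-- the left action of the quaternion algebra on `E` over the chart `w = 1` -/
def LW : ℍ[S, K.a, 0, K.q] →+* Matrix (Fin 2) (Fin 2) Aw := Vb.homW K.sw K.yy

/-- the left action of the quaternion algebra on `E` over the chart `z = 1` -/
def LZ : ℍ[S, K.a, 0, K.q] →+* Matrix (Fin 2) (Fin 2) Az := Vb.homZ K.sz K.vv

theorem L_comm (d : ℍ[S, K.a, 0, K.q]) :
    (K.LW d).map pw * Vb.gT (pw K.y) (pw K.z) = Vb.gT (pw K.y) (pw K.z) * (K.LZ d).map pz := by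
  have h1 : (K.LW d).map pw = Vb.matW (pw.comp K.sw) (pw K.z) (pw K.y) d :=
    Vb.map_matW pw K.sw K.z K.y d
  have h2 : (K.LZ d).map pz = Vb.matZ (pw.comp K.sw) (pz K.w) (pz K.v) d := by
    have h3 : pw.comp K.sw = pz.comp K.sz := RingHom.ext K.comm
    rw [h3]
    exact Vb.map_matZ pz K.sz K.w K.v d
  rw [h1, h2]
  refine Vb.mat_comm (pw.comp K.sw) ?_ K.zw K.yw d
  have h := congrArg pw K.yy
  simpa using h

/-- the right action: an anti-homomorphism -/
def RW (d : ℍ[S, K.a, 0, K.q]) : Matrix (Fin 2) (Fin 2) Aw := K.LW (star d)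

/-- the right action: an anti-homomorphism -/
def RZ (d : ℍ[S, K.a, 0, K.q]) : Matrix (Fin 2) (Fin 2) Az := K.LZ (star d)

theorem RW_mul (d e : ℍ[S, K.a, 0, K.q]) : K.RW (d * e) = K.RW e * K.RW d := by
  rw [RW, star_mul, map_mul]
  rfl

theorem RZ_mul (d e : ℍ[S, K.a, 0, K.q]) : K.RZ (d * e) = K.RZ e * K.RZ d := by
  rw [RZ, star_mul, map_mul]
  rfl

@[simp] theorem RW_one : K.RW 1 = 1 := by
  rw [RW, star_one, map_one]

@[simp] theorem RZ_one : K.RZ 1 = 1 := by
  rw [RZ, star_one, map_one]

theorem RW_add (d e : ℍ[S, K.a, 0, K.q]) : K.RW (d + e) = K.RW d + K.RW e := by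
  rw [RW, star_add, map_add]
  rfl

theorem RZ_add (d e : ℍ[S, K.a, 0, K.q]) : K.RZ (d + e) = K.RZ d + K.RZ e := by
  rw [RZ, star_add, map_add]
  rfl

theorem R_comm (d : ℍ[S, K.a, 0, K.q]) :
    (K.RW d).map pw * Vb.gT (pw K.y) (pw K.z) = Vb.gT (pw K.y) (pw K.z) * (K.RZ d).map pz :=
  K.L_comm (star d)

/-- scalars act by scalar matrices -/
theorem RW_scalar (c : S) : K.RW (c : ℍ[S, K.a, 0, K.q]) = Matrix.scalar _ (K.sw c) := by
  ext i j
  fin_cases i <;> fin_cases j <;> simp [RW, LW, Vb.homW, Vb.matW]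

theorem RZ_scalar (c : S) : K.RZ (c : ℍ[S, K.a, 0, K.q]) = Matrix.scalar _ (K.sz c) := by
  ext i j
  fin_cases i <;> fin_cases j <;> simp [RZ, LZ, Vb.homZ, Vb.matZ]

end Orl.Cnc.Con
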